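import Pool.Agent.H44.MB.Sum

/-!
# The asymptotic formula under the condition `SmallP`
-/

set_option autoImplicit false
set_option linter.unusedSectionVars false

open NumberField Filter Topology IntermediateField

namespace Pool.Agent.H44.MB

open Pool.Agent.TH444.ML (dsc dsc_eq Cnt HasGp Gal nf_of_fd card_quot)
open Pool.Agent.NH85.ML (GalX img compDisc)
open Pool.Agent.Q17.ML2 (GalS IsC2WrS TTS cnt_eqS quot_TTS main_asympS badSmallS parts)

/-- `Γ` has subgroups `U i` whose normal cores intersect trivially, and nonempty sets `B i` of points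
such that every element which fixes all points in `B i` is in `U i`, and
`∑ 8 [Γ : U i] ([Γ : U i] + 1) |B i| ≤ |P|`. -/
def SmallP (Γ P : Type) [Group Γ] [MulAction Γ P] : Prop :=
  ∃ (r : ℕ) (U : Fin r → Subgroup Γ) (B : Fin r → Finset P),
    (⨅ i, (U i).normalCore = ⊥) ∧ (∀ i, (B i).Nonempty) ∧
    (∀ i, ∀ γ : Γ, (∀ x ∈ B i, γ • x = x) → γ ∈ U i) ∧
    ∑ i, 8 * (U i).index * ((U i).index + 1) * (B i).card ≤ Nat.card P

theorem SmallP.of_equiv {Γ P Q : Type} [Group Γ] [MulAction Γ P] [MulAction Γ Q] (ε : P ≃ Q)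
    (hε : ∀ (γ : Γ) (x : P), ε (γ • x) = γ • ε x) (h : SmallP Γ P) : SmallP Γ Q := by
  classical
  obtain ⟨r, U, B, h1, h2, h3, h4⟩ := h
  refine ⟨r, U, fun i => (B i).map ε.toEmbedding, h1, fun i => (h2 i).map, fun i γ hγ => ?_, ?_⟩
  · refine h3 i γ fun x hx => ?_
    have := hγ (ε x) (Finset.mem_map_of_mem ε.toEmbedding hx)
    rw [← hε] at this
    exact ε.injective this
  · simp only [Finset.card_map]
    rw [← Nat.card_congr ε]
    exact h4

theorem few_img (K Ω : Type) [Field K] [NumberField K] [Field Ω] [Algebra K Ω] [IsAlgClosure K Ω]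
    {Γ P : Type} [Group Γ] [Finite P] [MulAction Γ P] [FaithfulSMul Γ P] (h : SmallP Γ P) :
    Summable (fun M : GalX K Ω (img Γ P) => (dsc M.1) ^ (-(1 / 4) : ℝ)) := by
  obtain ⟨r, U, B, h1, h2, h3, h4⟩ := h
  have hinj : Function.Injective (MulAction.toPermHom Γ P) := MulAction.toPerm_injective
  let e : Γ ≃* img Γ P := MonoidHom.ofInjective hinj
  have hidx : ∀ i, ((U i).map e.toMonoidHom).index = (U i).index := fun i =>
    Subgroup.index_map_equiv (U i) e
  have hcore : ⨅ i, ((U i).map e.toMonoidHom).normalCore = ⊥ := by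
    rw [eq_bot_iff]
    have h5 : (⨅ i, ((U i).map e.toMonoidHom).normalCore).comap e.toMonoidHom ≤
        ⨅ i, (U i).normalCore := by
      refine le_iInf fun i => ?_
      have h6 : (⨅ i, ((U i).map e.toMonoidHom).normalCore).comap e.toMonoidHom ≤
          ((U i).map e.toMonoidHom).normalCore.comap e.toMonoidHom :=
        Subgroup.comap_mono (iInf_le _ i)
      refine h6.trans ?_
      have hn : (((U i).map e.toMonoidHom).normalCore.comap e.toMonoidHom).Normal := inferInstance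
      rw [Subgroup.normal_le_normalCore]
      intro x hx
      have h7 := Subgroup.normalCore_le _ (Subgroup.mem_comap.1 hx)
      obtain ⟨y, hy, hxy⟩ := Subgroup.mem_map.1 h7
      rw [← e.injective hxy]
      exact hy
    rw [h1] at h5
    intro x hx
    obtain ⟨y, rfl⟩ := e.surjective x
    have h6 : y ∈ (⊥ : Subgroup Γ) := h5 (Subgroup.mem_comap.2 hx)
    rw [Subgroup.mem_bot] at h6
    rw [h6, map_one]
    exact Subgroup.one_mem _
  refine few_small compDisc Pool.Agent.TH979.J3100.hermiteRel K Ω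
    (U := fun i => (U i).map e.toMonoidHom) (B := B) ⟨hcore, h2, ?_, ?_⟩
  · rintro i ⟨_, ⟨γ, rfl⟩⟩ h
    exact ⟨γ, h3 i γ h, rfl⟩
  · simp only [hidx]
    exact h4

theorem galS_eq (K Ω : Type) [Field K] [Field Ω] [Algebra K Ω] (Γ : Type) [Group Γ]
    (W : Subgroup Γ) : GalS K Ω Γ W = GalX K Ω (img Γ (Γ ⧸ W)) := by
  have h : ∀ π : Equiv.Perm (Γ ⧸ W), π ∈ img Γ (Γ ⧸ W) ↔ ∃ h : Γ, ∀ x : Γ ⧸ W, π x = h • x := by
    intro π
    constructor
    · rintro ⟨γ, rfl⟩
      exact ⟨γ, fun x => rfl⟩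
    · rintro ⟨γ, hγ⟩
      exact ⟨γ, Equiv.ext fun x => (hγ x).symm⟩
  ext M
  constructor
  · rintro ⟨h1, e, he⟩
    exact ⟨h1, e, fun π => (h π).trans (he π)⟩
  · rintro ⟨h1, e, he⟩
    exact ⟨h1, e, fun π => (h π).symm.trans (he π)⟩

theorem faithful_quot {Γ : Type} [Group Γ] {W : Subgroup Γ} (hW : W.normalCore = ⊥) :
    FaithfulSMul Γ (Γ ⧸ W) := by
  refine ⟨fun {a b} h => ?_⟩
  have h1 : (MulAction.toPermHom Γ (Γ ⧸ W)).ker = ⊥ := by
    rw [← Subgroup.normalCore_eq_ker W, hW]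
  have h2 : Function.Injective (MulAction.toPermHom Γ (Γ ⧸ W)) :=
    (MonoidHom.ker_eq_bot_iff _).1 h1
  exact h2 (Equiv.ext fun x => h x)

theorem sumS (K Ω : Type) [Field K] [NumberField K] [Field Ω] [Algebra K Ω] [IsAlgClosure K Ω]
    {Γ : Type} [Group Γ] [Finite Γ] {W : Subgroup Γ} (hW : W.normalCore = ⊥)
    (h : SmallP Γ (Γ ⧸ W)) :
    Summable (fun M : GalS K Ω Γ W => (dsc M.1) ^ (-(1 / 4) : ℝ)) := by
  have := faithful_quot hW
  rw [galS_eq]
  exact few_img K Ω h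

theorem asympG (K : Type) [Field K] [NumberField K] (Γ : Type) [Group Γ] [Finite Γ]
    (W : Subgroup Γ) (hW : W.normalCore = ⊥) (h : SmallP Γ (Γ ⧸ W))
    (hne : (Gal K (AlgebraicClosure K) Γ).Nonempty) {n : ℕ} (G : Subgroup (Equiv.Perm (Fin n)))
    (hG : IsC2WrS Γ W G) :
    (∀ X : ℝ, 0 < X → (Cnt K G X).Finite) ∧ ∃ c : ℝ, 0 < c ∧
      Tendsto (fun X : ℝ => (Set.ncard (Cnt K G X) : ℝ) / X) atTop (𝓝 c) := by
  have hd : 0 < ((|discr K| : ℤ) : ℝ) ^ n := by
    have : (0 : ℤ) < |discr K| := abs_pos.2 (discr_ne_zero K)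
    have : (0 : ℝ) < ((|discr K| : ℤ) : ℝ) := by exact_mod_cast this
    positivity
  have hne' : (GalS K (AlgebraicClosure K) Γ W).Nonempty :=
    (parts.dg K (AlgebraicClosure K) Γ W hW).2 hne
  have h := main_asympS (K := K) (Ω := AlgebraicClosure K) (H := Γ) (W := W)
    (Pool.Agent.TH444.ML.quadLim Pool.Agent.TH444.ML.rest) Pool.Agent.TH444.ML.quadPos
    Pool.Agent.TH444.ML.quadUnif (badSmallS parts) (parts.wi parts.dg) (parts.mu parts.dg) parts.dg hW
    (sumS K (AlgebraicClosure K) hW h) hne' _ hd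
  simp only [cnt_eqS parts K hG]
  exact h

/-- up to isomorphism -/
theorem asympG_iso (K : Type) [Field K] [NumberField K] (Γ : Type) [Group Γ] [Finite Γ]
    (W : Subgroup Γ) (hW : W.normalCore = ⊥) (h : SmallP Γ (Γ ⧸ W))
    (hne : (Gal K (AlgebraicClosure K) Γ).Nonempty) {n : ℕ} (G : Subgroup (Equiv.Perm (Fin n)))
    (hG : IsC2WrS Γ W G) :
    ∃ c : ℝ, 0 < c ∧ Tendsto (fun X : ℝ =>
      (Nat.card (Quot (fun L L' : Cnt K G X => Nonempty (L.1 ≃ₐ[K] L'.1))) : ℝ) / X)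
        atTop (𝓝 c) := by
  obtain ⟨hfin, c, hc0, hlim⟩ := asympG K Γ W hW h hne G hG
  have hpos : (0 : ℝ) < W.index := by
    exact_mod_cast Nat.pos_of_ne_zero Subgroup.index_ne_zero_of_finite
  refine ⟨c / W.index, by positivity, ?_⟩
  have h := hlim.div_const (W.index : ℝ)
  refine h.congr' ?_
  filter_upwards [eventually_gt_atTop (0 : ℝ)] with X hX
  have hX' := hfin X hX
  rw [cnt_eqS parts K hG] at hX' ⊢
  have hq := quot_TTS parts (K := K) (Ω := AlgebraicClosure K) (H := Γ) (W := W) _ hX'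
  rw [← hq]
  push_cast
  field_simp

/-- the action on the cosets of a point stabilizer -/
theorem exists_quot {Γ P : Type} [Group Γ] [MulAction Γ P] [MulAction.IsPretransitive Γ P]
    (x₀ : P) : ∃ ε : (Γ ⧸ MulAction.stabilizer Γ x₀) ≃ P, ∀ (γ : Γ) x, ε (γ • x) = γ • ε x := by
  have hb : Function.Bijective (MulAction.ofQuotientStabilizer Γ x₀) := by
    refine ⟨MulAction.injective_ofQuotientStabilizer Γ x₀, fun x => ?_⟩
    obtain ⟨g, rfl⟩ := MulAction.exists_smul_eq Γ x₀ x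
    exact ⟨(g : Γ ⧸ MulAction.stabilizer Γ x₀), MulAction.ofQuotientStabilizer_mk Γ x₀ g⟩
  exact ⟨Equiv.ofBijective _ hb, fun h x => MulAction.ofQuotientStabilizer_smul Γ x₀ h x⟩

theorem core_stab {Γ P : Type} [Group Γ] [MulAction Γ P] [FaithfulSMul Γ P]
    [MulAction.IsPretransitive Γ P] (x₀ : P) : (MulAction.stabilizer Γ x₀).normalCore = ⊥ := by
  rw [eq_bot_iff]
  intro γ hγ
  rw [Subgroup.mem_bot]
  refine eq_of_smul_eq_smul (α := P) fun x => ?_
  obtain ⟨g, rfl⟩ := MulAction.exists_smul_eq Γ x₀ x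
  have h1 : g⁻¹ * γ * g ∈ MulAction.stabilizer Γ x₀ := by
    have := (Subgroup.normalCore_normal (MulAction.stabilizer Γ x₀)).conj_mem γ hγ g⁻¹
    rw [inv_inv] at this
    exact Subgroup.normalCore_le _ this
  rw [MulAction.mem_stabilizer_iff, mul_smul, mul_smul, inv_smul_eq_iff] at h1
  rw [h1, one_smul]

end Pool.Agent.H44.MB
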