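import Pool.Graph.R_seed8.TH55.J3092
import Pool.Graph.R_pool_sql_team_seeded_3dad9d7b.NH85.ML.Ideal

/-!
# Auxiliary bounds
-/

set_option autoImplicit false

namespace Pool.Agent.H44.MB

open NumberField Module NumberField.InfinitePlace NumberField.mixedEmbedding
open scoped NNReal ENNReal
open Pool.Agent.TH55.J3092

/-- powers of the logarithm -/
theorem log_bound (n : ℕ) (ε : ℝ) (hε : 0 < ε) : ∃ C : ℝ, 1 ≤ C ∧ ∀ t : ℝ, 1 ≤ t →
    ((Nat.log 2 ⌊t⌋₊ + 1 : ℕ) : ℝ) ^ n ≤ C * t ^ ε := by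
  rcases Nat.eq_zero_or_pos n with rfl | hn
  · refine ⟨1, le_rfl, fun t ht => ?_⟩
    rw [pow_zero, one_mul]
    exact Real.one_le_rpow ht hε.le
  have hn' : (0 : ℝ) < n := by exact_mod_cast hn
  set η : ℝ := ε / n with hη
  have hη0 : 0 < η := by positivity
  have hl2 : 0 < Real.log 2 := Real.log_pos (by norm_num)
  set K : ℝ := 1 + 1 / (η * Real.log 2) with hK
  have hK1 : 1 ≤ K := by
    rw [hK]
    have : 0 ≤ 1 / (η * Real.log 2) := by positivity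
    linarith
  refine ⟨K ^ n, one_le_pow₀ hK1, fun t ht => ?_⟩
  have ht0 : 0 < t := by linarith
  have hfl : ⌊t⌋₊ ≠ 0 := by
    have : 1 ≤ ⌊t⌋₊ := Nat.le_floor (by exact_mod_cast ht)
    omega
  have h1 : ((2 : ℝ) ^ Nat.log 2 ⌊t⌋₊) ≤ t := by
    have h2 : 2 ^ Nat.log 2 ⌊t⌋₊ ≤ ⌊t⌋₊ := Nat.pow_log_le_self 2 hfl
    have h3 : ((2 ^ Nat.log 2 ⌊t⌋₊ : ℕ) : ℝ) ≤ (⌊t⌋₊ : ℝ) := by exact_mod_cast h2
    push_cast at h3
    exact h3.trans (Nat.floor_le ht0.le)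
  have h2 : (Nat.log 2 ⌊t⌋₊ : ℝ) * Real.log 2 ≤ Real.log t := by
    rw [← Real.log_pow]
    exact Real.log_le_log (by positivity) h1
  have h3 : Real.log t ≤ t ^ η / η := Real.log_le_rpow_div ht0.le hη0
  have h4 : (1 : ℝ) ≤ t ^ η := Real.one_le_rpow ht hη0.le
  have h5 : ((Nat.log 2 ⌊t⌋₊ + 1 : ℕ) : ℝ) ≤ K * t ^ η := by
    push_cast
    have h6 : (Nat.log 2 ⌊t⌋₊ : ℝ) ≤ t ^ η / (η * Real.log 2) := by
      rw [le_div_iff₀ (by positivity)]
      calc (Nat.log 2 ⌊t⌋₊ : ℝ) * (η * Real.log 2) = η * ((Nat.log 2 ⌊t⌋₊ : ℝ) * Real.log 2) := by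
            ring
        _ ≤ η * (t ^ η / η) := mul_le_mul_of_nonneg_left (h2.trans h3) hη0.le
        _ = t ^ η := by field_simp
    calc (Nat.log 2 ⌊t⌋₊ : ℝ) + 1 ≤ t ^ η / (η * Real.log 2) + t ^ η := add_le_add h6 h4
      _ = K * t ^ η := by rw [hK]; ring
  calc ((Nat.log 2 ⌊t⌋₊ + 1 : ℕ) : ℝ) ^ n ≤ (K * t ^ η) ^ n :=
        pow_le_pow_left₀ (Nat.cast_nonneg _) h5 n
    _ = K ^ n * t ^ ε := by
        rw [mul_pow, ← Real.rpow_natCast (t ^ η), ← Real.rpow_mul ht0.le, hη,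
          div_mul_cancel₀ _ hn'.ne']

/-- Minkowski's theorem for boxes, in an ideal -/
theorem mink_ideal (M : Type) [Field M] [NumberField M] (𝔟 : Ideal (𝓞 M)) (h𝔟 : 𝔟 ≠ ⊥)
    (f : InfinitePlace M → ℝ≥0)
    (hf : 2 ^ (finrank ℚ M) * Real.sqrt ((|discr M| : ℤ) : ℝ) * Ideal.absNorm 𝔟 <
      ∏ w, (f w : ℝ) ^ (mult w)) :
    ∃ a : 𝓞 M, a ∈ 𝔟 ∧ a ≠ 0 ∧ ∀ w : InfinitePlace M, w a < f w := by
  classical
  have h𝔟' : (𝔟 : FractionalIdeal (nonZeroDivisors (𝓞 M)) M) ≠ 0 :=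
    FractionalIdeal.coeIdeal_ne_zero.2 h𝔟
  set I : (FractionalIdeal (nonZeroDivisors (𝓞 M)) M)ˣ := Units.mk0 _ h𝔟' with hI
  have hIn : FractionalIdeal.absNorm (I : FractionalIdeal (nonZeroDivisors (𝓞 M)) M) =
      Ideal.absNorm 𝔟 := by
    rw [hI, Units.val_mk0, FractionalIdeal.coeIdeal_absNorm]
  have key : ∃ a ∈ (I : FractionalIdeal (nonZeroDivisors (𝓞 M)) M), a ≠ 0 ∧
      ∀ w : InfinitePlace M, w a < f w := by
    apply exists_ne_zero_mem_ideal_lt M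
    have h1 : minkowskiBound M I ≤ (2 : ℝ≥0∞) ^ (finrank ℚ M) *
        (NNReal.sqrt ‖discr M‖₊ : ℝ≥0∞) * (Ideal.absNorm 𝔟 : ℝ≥0∞) := by
      rw [minkowskiBound, volume_fundamentalDomain_fractionalIdealLatticeBasis,
        volume_fundamentalDomain_latticeBasis, mixedEmbedding.finrank, hIn]
      have e0 : ENNReal.ofReal (((Ideal.absNorm 𝔟 : ℕ) : ℚ) : ℝ) = (Ideal.absNorm 𝔟 : ℝ≥0∞) := by
        rw [Rat.cast_natCast, ENNReal.ofReal_natCast]
      rw [e0]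
      calc (Ideal.absNorm 𝔟 : ℝ≥0∞) * ((2 : ℝ≥0∞)⁻¹ ^ nrComplexPlaces M *
            (NNReal.sqrt ‖discr M‖₊ : ℝ≥0∞)) * 2 ^ (finrank ℚ M)
          ≤ (Ideal.absNorm 𝔟 : ℝ≥0∞) * (1 *
            (NNReal.sqrt ‖discr M‖₊ : ℝ≥0∞)) * 2 ^ (finrank ℚ M) := by
            gcongr
            apply pow_le_one₀ (by positivity)
            exact ENNReal.inv_le_one.mpr (by norm_num)
        _ = _ := by ring
    refine lt_of_le_of_lt h1 ?_
    rw [convexBodyLT_volume]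
    have h2 : (2 : ℝ≥0∞) ^ (finrank ℚ M) * (NNReal.sqrt ‖discr M‖₊ : ℝ≥0∞) *
        (Ideal.absNorm 𝔟 : ℝ≥0∞) < ((∏ w, (f w) ^ (mult w) : ℝ≥0) : ℝ≥0∞) := by
      have : (2 : ℝ≥0∞) ^ (finrank ℚ M) * (NNReal.sqrt ‖discr M‖₊ : ℝ≥0∞) *
          (Ideal.absNorm 𝔟 : ℝ≥0∞) =
        (((2 : ℝ≥0) ^ (finrank ℚ M) * NNReal.sqrt ‖discr M‖₊ * (Ideal.absNorm 𝔟 : ℝ≥0) : ℝ≥0) :
          ℝ≥0∞) := by
        push_cast; rfl
      rw [this, ENNReal.coe_lt_coe, ← NNReal.coe_lt_coe]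
      push_cast
      convert hf using 3
      rw [Int.norm_eq_abs]
      push_cast
      rfl
    refine h2.trans_le ?_
    have h3 : (1 : ℝ≥0∞) ≤ (convexBodyLTFactor M : ℝ≥0∞) := by
      exact_mod_cast one_le_convexBodyLTFactor M
    calc ((∏ w, (f w) ^ (mult w) : ℝ≥0) : ℝ≥0∞)
        = 1 * ((∏ w, (f w) ^ (mult w) : ℝ≥0) : ℝ≥0∞) := (one_mul _).symm
      _ ≤ _ := by gcongr
  obtain ⟨a, ha, ha0, hw⟩ := key
  rw [hI, Units.val_mk0] at ha
  obtain ⟨b, hb, rfl⟩ := (FractionalIdeal.mem_coeIdeal _).1 ha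
  exact ⟨b, hb, fun h => ha0 (by rw [h, map_zero]), hw⟩

/-- the sum of `1 / N J` over the ideals of bounded norm -/
theorem sum_inv (D : ℕ) (ε : ℝ) (hε : 0 < ε) : ∃ C : ℝ, 0 ≤ C ∧
    ∀ (M : Type) [Field M] [NumberField M], finrank ℚ M = D → ∀ t : ℝ, 1 ≤ t →
    ∀ F : Finset (Ideal (𝓞 M)), (∀ J ∈ F, J ≠ ⊥ ∧ (Ideal.absNorm J : ℝ) ≤ t) →
      ∑ J ∈ F, (1 : ℝ) / (Ideal.absNorm J : ℝ) ≤ C * t ^ ε := by
  classical
  obtain ⟨C, hC0, hC⟩ := Pool.Agent.NH85.ML.idealUnifE D (ε / 2) (by linarith)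
  obtain ⟨K, hK1, hK⟩ := log_bound 1 (ε / 2) (by linarith)
  refine ⟨C * 2 ^ (1 + ε / 2) * K, by positivity, ?_⟩
  intro M _ _ hD t ht F hF
  have ht0 : 0 < t := by linarith
  set L : ℕ := Nat.log 2 ⌊t⌋₊ with hL
  have hN : ∀ J ∈ F, Ideal.absNorm J ≠ 0 := fun J hJ h => (hF J hJ).1 (Ideal.absNorm_eq_zero_iff.1 h)
  have hmap : ∀ J ∈ F, Nat.log 2 (Ideal.absNorm J) ∈ Finset.range (L + 1) := by
    intro J hJ
    rw [Finset.mem_range, Nat.lt_succ_iff]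
    exact Nat.log_mono_right (Nat.le_floor (hF J hJ).2)
  calc ∑ J ∈ F, (1 : ℝ) / (Ideal.absNorm J : ℝ)
      = ∑ i ∈ Finset.range (L + 1), ∑ J ∈ F with Nat.log 2 (Ideal.absNorm J) = i,
          (1 : ℝ) / (Ideal.absNorm J : ℝ) := (Finset.sum_fiberwise_of_maps_to hmap _).symm
    _ ≤ ∑ _i ∈ Finset.range (L + 1), C * 2 ^ (1 + ε / 2) * t ^ (ε / 2) := by
        refine Finset.sum_le_sum fun i hi => ?_
        have hiL : i ≤ L := Nat.lt_succ_iff.1 (Finset.mem_range.1 hi)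
        have h2i : (2 : ℝ) ^ i ≤ t := by
          have hfl : ⌊t⌋₊ ≠ 0 := by
            have : 1 ≤ ⌊t⌋₊ := Nat.le_floor (by exact_mod_cast ht)
            omega
          have h3 : 2 ^ i ≤ ⌊t⌋₊ := (Nat.pow_le_pow_right (by norm_num) hiL).trans
            (Nat.pow_log_le_self 2 hfl)
          have h4 : ((2 ^ i : ℕ) : ℝ) ≤ (⌊t⌋₊ : ℝ) := by exact_mod_cast h3
          push_cast at h4
          exact h4.trans (Nat.floor_le ht0.le)
        have hcard : ((F.filter fun J => Nat.log 2 (Ideal.absNorm J) = i).card : ℝ) ≤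
            C * ((2 : ℝ) ^ (i + 1)) ^ (1 + ε / 2) := by
          obtain ⟨hfin, hle⟩ := hC M hD ((2 : ℝ) ^ (i + 1)) (one_le_pow₀ (by norm_num))
          refine le_trans ?_ hle
          have h5 : (F.filter fun J => Nat.log 2 (Ideal.absNorm J) = i).card ≤
              Set.ncard {I : Ideal (𝓞 M) | I ≠ ⊥ ∧ (Ideal.absNorm I : ℝ) ≤ (2 : ℝ) ^ (i + 1)} := by
            rw [← Set.ncard_coe_finset]
            refine Set.ncard_le_ncard ?_ hfin
            intro J hJ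
            rw [Finset.mem_coe, Finset.mem_filter] at hJ
            refine ⟨(hF J hJ.1).1, ?_⟩
            have h6 := Nat.lt_pow_succ_log_self (b := 2) (by norm_num) (Ideal.absNorm J)
            rw [hJ.2] at h6
            exact_mod_cast h6.le
          exact_mod_cast h5
        calc ∑ J ∈ F with Nat.log 2 (Ideal.absNorm J) = i, (1 : ℝ) / (Ideal.absNorm J : ℝ)
            ≤ ∑ J ∈ F with Nat.log 2 (Ideal.absNorm J) = i, (1 : ℝ) / (2 : ℝ) ^ i := by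
              refine Finset.sum_le_sum fun J hJ => ?_
              rw [Finset.mem_filter] at hJ
              have h6 := Nat.pow_log_le_self 2 (hN J hJ.1)
              rw [hJ.2] at h6
              have h7 : (2 : ℝ) ^ i ≤ (Ideal.absNorm J : ℝ) := by exact_mod_cast h6
              exact one_div_le_one_div_of_le (by positivity) h7
          _ = ((F.filter fun J => Nat.log 2 (Ideal.absNorm J) = i).card : ℝ) * (1 / (2 : ℝ) ^ i) := by
              rw [Finset.sum_const, nsmul_eq_mul]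
          _ ≤ C * ((2 : ℝ) ^ (i + 1)) ^ (1 + ε / 2) * (1 / (2 : ℝ) ^ i) :=
              mul_le_mul_of_nonneg_right hcard (by positivity)
          _ = C * 2 ^ (1 + ε / 2) * ((2 : ℝ) ^ i) ^ (ε / 2) := by
              have h8 : ((2 : ℝ) ^ (i + 1)) ^ (1 + ε / 2) =
                  2 ^ (1 + ε / 2) * ((2 : ℝ) ^ i * ((2 : ℝ) ^ i) ^ (ε / 2)) := by
                rw [pow_succ, Real.mul_rpow (by positivity) (by norm_num),
                  Real.rpow_add (by positivity : (0 : ℝ) < 2 ^ i), Real.rpow_one]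
                ring
              rw [h8]
              field_simp
          _ ≤ C * 2 ^ (1 + ε / 2) * t ^ (ε / 2) := by
              refine mul_le_mul_of_nonneg_left ?_ (by positivity)
              exact Real.rpow_le_rpow (by positivity) h2i (by linarith)
    _ = ((L + 1 : ℕ) : ℝ) * (C * 2 ^ (1 + ε / 2) * t ^ (ε / 2)) := by
        rw [Finset.sum_const, Finset.card_range, nsmul_eq_mul]
    _ ≤ (K * t ^ (ε / 2)) * (C * 2 ^ (1 + ε / 2) * t ^ (ε / 2)) := by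
        refine mul_le_mul_of_nonneg_right ?_ (by positivity)
        have := hK t ht
        rwa [pow_one] at this
    _ = C * 2 ^ (1 + ε / 2) * K * t ^ ε := by
        have h9 : t ^ ε = t ^ (ε / 2) * t ^ (ε / 2) := by
          rw [← Real.rpow_add ht0]
          congr 1
          ring
        rw [h9]
        ring

end Pool.Agent.H44.MB
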