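import Pool.Agent.H44.MB.Exp

/-!
# Chains of blocks and chains of fields
-/

set_option autoImplicit false
set_option linter.unusedSectionVars false

open NumberField Filter Topology IntermediateField

namespace Pool.Agent.H44.MB

open Pool.Agent.TH444.ML (dsc dsc_eq nf_of_fd one_le_dsc)
open Pool.Agent.NH85.ML (GalX img fewHom fewHom_apply fewHom_surj fewHom_ker few_gal)
open Pool.Agent.TH365.J3099 (act act_apply act_apply_apply)

/-- `V` is the smallest group of a chain of subgroups from `V` to `Γ`, with indices `ts` -/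
def GChain {Γ : Type} [Group Γ] : List ℕ → Subgroup Γ → Prop
  | [], V => V = ⊤
  | t :: ts, V => ∃ V' : Subgroup Γ, V ≤ V' ∧ V.relIndex V' = t ∧ GChain ts V'

/-- `L` is the top of a chain of extensions of `K`, with degrees `ts` -/
def FChain (K : Type) [Field K] : List ℕ → IntermediateField K (AlgebraicClosure K) → Prop
  | [], L => L = ⊥
  | t :: ts, L => FiniteDimensional K L ∧ ∃ M, M ≤ L ∧ Module.finrank K L = t * Module.finrank K M ∧
      FChain K ts M

theorem gchain_map {Γ Γ' : Type} [Group Γ] [Group Γ'] (g : Γ ≃* Γ') (ts : List ℕ) :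
    ∀ V : Subgroup Γ, GChain ts V → GChain ts (V.map g.toMonoidHom) := by
  induction ts with
  | nil =>
    intro V hV
    change V = ⊤ at hV
    change V.map g.toMonoidHom = ⊤
    rw [hV, ← MonoidHom.range_eq_map]
    exact MonoidHom.range_eq_top.2 g.surjective
  | cons t ts ih =>
    rintro V ⟨V', h1, h2, h3⟩
    refine ⟨V'.map g.toMonoidHom, Subgroup.map_mono h1, ?_, ih V' h3⟩
    rw [← h2]
    exact Subgroup.relIndex_map_map_of_injective V V' g.injective

theorem gchain_pos {Γ : Type} [Group Γ] [Finite Γ] (ts : List ℕ) :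
    ∀ V : Subgroup Γ, GChain ts V → ∀ t ∈ ts, 1 ≤ t := by
  induction ts with
  | nil => intro V _ t ht; simp at ht
  | cons t ts ih =>
    rintro V ⟨V', h1, h2, h3⟩ s hs
    rcases List.mem_cons.1 hs with rfl | hs
    · rw [← h2]
      exact Nat.one_le_iff_ne_zero.2 (Subgroup.index_ne_zero_of_finite (H := V.subgroupOf V'))
    · exact ih V' h3 s hs

section

variable {K : Type} [Field K] [NumberField K] {Γ : Type} [Group Γ] [Finite Γ]

/-- the field of a subgroup -/
theorem field_of (h : (AlgebraicClosure K ≃ₐ[K] AlgebraicClosure K) →* Γ)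
    (hs : Function.Surjective h)
    (hop : IsOpen (h.ker : Set (AlgebraicClosure K ≃ₐ[K] AlgebraicClosure K))) (V : Subgroup Γ) :
    FiniteDimensional K (IntermediateField.fixedField (V.comap h)) ∧
      (IntermediateField.fixedField (V.comap h)).fixingSubgroup = V.comap h ∧
      Module.finrank K (IntermediateField.fixedField (V.comap h)) = V.index := by
  have i5 : IsGalois K (AlgebraicClosure K) := few_gal K _
  have hopen : IsOpen ((V.comap h : Subgroup _) :
      Set (AlgebraicClosure K ≃ₐ[K] AlgebraicClosure K)) :=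
    Subgroup.isOpen_mono (MonoidHom.ker_le_comap h V) hop
  have hclosed : IsClosed ((V.comap h : Subgroup _) :
      Set (AlgebraicClosure K ≃ₐ[K] AlgebraicClosure K)) := Subgroup.isClosed_of_isOpen _ hopen
  have hFV : (IntermediateField.fixedField (V.comap h)).fixingSubgroup = V.comap h :=
    InfiniteGalois.fixingSubgroup_fixedField ⟨V.comap h, hclosed⟩
  refine ⟨?_, hFV, ?_⟩
  · rw [← InfiniteGalois.isOpen_iff_finite, hFV]
    exact hopen
  · rw [IntermediateField.finrank_eq_fixingSubgroup_index, hFV,
      Subgroup.index_comap_of_surjective _ hs]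

theorem fchain_of (h : (AlgebraicClosure K ≃ₐ[K] AlgebraicClosure K) →* Γ)
    (hs : Function.Surjective h)
    (hop : IsOpen (h.ker : Set (AlgebraicClosure K ≃ₐ[K] AlgebraicClosure K))) (ts : List ℕ) :
    ∀ V : Subgroup Γ, GChain ts V → FChain K ts (IntermediateField.fixedField (V.comap h)) := by
  have i5 : IsGalois K (AlgebraicClosure K) := few_gal K _
  induction ts with
  | nil =>
    intro V hV
    change V = ⊤ at hV
    change IntermediateField.fixedField _ = ⊥
    rw [hV, Subgroup.comap_top]
    exact InfiniteGalois.fixedField_bot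
  | cons t ts ih =>
    rintro V ⟨V', h1, h2, h3⟩
    obtain ⟨k1, -, k3⟩ := field_of h hs hop V
    obtain ⟨-, -, k4⟩ := field_of h hs hop V'
    refine ⟨k1, _, IntermediateField.fixedField_antitone (Subgroup.comap_mono h1), ?_, ih V' h3⟩
    rw [k3, k4, ← h2]
    exact (Subgroup.relIndex_mul_index h1).symm

end

/-- the extensions with group `Γ`, acting on `P` -/
theorem fchain_galX {K : Type} [Field K] [NumberField K] {Γ P : Type} [Group Γ] [Finite Γ]
    [MulAction Γ P] [FaithfulSMul Γ P] [MulAction.IsPretransitive Γ P] (x₀ : P) (ts : List ℕ)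
    (hc : GChain ts (MulAction.stabilizer Γ x₀)) (L : IntermediateField K (AlgebraicClosure K))
    (hL : L ∈ GalX K (AlgebraicClosure K) (img Γ P)) : FChain K ts L := by
  have i5 : IsGalois K (AlgebraicClosure K) := few_gal K _
  obtain ⟨hfd, e, he⟩ := hL
  have hinj : Function.Injective (MulAction.toPermHom Γ P) := MulAction.toPerm_injective
  let ee : Γ ≃* img Γ P := MonoidHom.ofInjective hinj
  let h : (AlgebraicClosure K ≃ₐ[K] AlgebraicClosure K) →* Γ :=
    ee.symm.toMonoidHom.comp (fewHom e he)
  have hs : Function.Surjective h := ee.symm.surjective.comp (fewHom_surj e he)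
  have hker : h.ker = (normalClosure K L (AlgebraicClosure K)).fixingSubgroup := by
    rw [← fewHom_ker e he]
    ext σ
    rw [MonoidHom.mem_ker, MonoidHom.mem_ker]
    change ee.symm (fewHom e he σ) = 1 ↔ _
    rw [MulEquiv.map_eq_one_iff]
  have hop : IsOpen (h.ker : Set (AlgebraicClosure K ≃ₐ[K] AlgebraicClosure K)) := by
    rw [hker]
    exact (normalClosure K L (AlgebraicClosure K)).fixingSubgroup_isOpen
  have hact : ∀ σ (x : P), h σ • x = e (act L σ (e.symm x)) := by
    intro σ x
    have h1 : ee (h σ) = fewHom e he σ := ee.apply_symm_apply _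
    have h2 : (ee (h σ) : Equiv.Perm P) x = h σ • x := rfl
    rw [← h2, h1, fewHom_apply]
  obtain ⟨g, hg⟩ := MulAction.exists_smul_eq Γ x₀ (e L.val)
  have hc' : GChain ts (MulAction.stabilizer Γ (e L.val)) := by
    rw [← hg, MulAction.stabilizer_smul_eq_stabilizer_map_conj]
    exact gchain_map (MulAut.conj g) ts _ hc
  have h1 := fchain_of h hs hop ts _ hc'
  have h2 : L.fixingSubgroup = (MulAction.stabilizer Γ (e L.val)).comap h := by
    ext σ
    rw [Subgroup.mem_comap, MulAction.mem_stabilizer_iff, hact, Equiv.symm_apply_apply,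
      e.injective.eq_iff, IntermediateField.mem_fixingSubgroup_iff]
    constructor
    · intro h3
      ext y
      rw [act_apply_apply]
      exact h3 _ y.2
    · intro h3 y hy
      have h4 := congrArg (fun φ : L →ₐ[K] AlgebraicClosure K => φ ⟨y, hy⟩) h3
      simp only [act_apply_apply] at h4
      exact h4
  rw [← h2, InfiniteGalois.fixedField_fixingSubgroup] at h1
  exact h1

end Pool.Agent.H44.MB
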