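import Pool.Agent.H44.MB.ChnC

/-!
# Explicit bounds for the exponents of chains
-/

set_option autoImplicit false
set_option linter.unusedSectionVars false

open NumberField Filter Topology IntermediateField

namespace Pool.Agent.H44.MB

open Pool.Agent.TH444.ML (Gal)
open Pool.Agent.NH85.ML (GalX img Good galX_of_gal)
open Pool.Agent.W222.UABC (eS)

/-- many extensions or none: the data for towers over groups with a chain of blocks -/
theorem good_chain {e : ℕ → ℝ} (hU : BoundU e) (K : Type) [Field K] [NumberField K]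
    {Γ P : Type} [Group Γ] [Finite Γ] [MulAction Γ P] [FaithfulSMul Γ P]
    [MulAction.IsPretransitive Γ P] (x₀ : P) (ts : List ℕ)
    (hc : GChain ts (MulAction.stabilizer Γ x₀))
    (hne : (Gal K (AlgebraicClosure K) Γ).Nonempty) : Good K (img Γ P) (Ex e ts) := by
  obtain ⟨M, hM⟩ := hne
  exact ⟨galX_of_gal M hM x₀ (fun x => MulAction.exists_smul_eq Γ x₀ x),
    chain_upper hU K x₀ ts hc⟩

theorem eS_le {n : ℕ} (hn : 2 ≤ n) : eS n ≤ (1 - 1 / n) * ((n + 2) / 2) := by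
  unfold Pool.Agent.W222.UABC.eS
  have h1 : 2 ≤ n.minFac := (Nat.minFac_prime (by omega)).two_le
  have h2 : n / n.minFac ≤ n / 2 := Nat.div_le_div_left h1 (by norm_num)
  have h3 : n ≤ 2 * (n - n / n.minFac) := by omega
  have h4 : (n : ℝ) ≤ 2 * ((n - n / n.minFac : ℕ) : ℝ) := by exact_mod_cast h3
  have hn0 : (0 : ℝ) < n := by
    have : 0 < n := by omega
    exact_mod_cast this
  have hn2 : (2 : ℝ) ≤ n := by exact_mod_cast hn
  have h5 : (((n + 2) * (n - 1) : ℕ) : ℝ) = (n + 2) * (n - 1) := by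
    push_cast [Nat.cast_sub (by omega : 1 ≤ n)]
    ring
  have h6 : (1 - 1 / (n : ℝ)) * ((n + 2) / 2) = (n + 2) * (n - 1) / (2 * n) := by
    field_simp
  rw [h5, h6]
  refine div_le_div_of_nonneg_left ?_ (by linarith) ?_
  · nlinarith
  · linarith

/-- chains with degrees at most `t` -/
theorem Ex_bound {e : ℕ → ℝ} (h1 : e 1 = 0) (h2 : ∀ n : ℕ, 2 ≤ n → e n ≤ eS n) (ts : List ℕ)
    (t : ℕ) (hts : ∀ s ∈ ts, 1 ≤ s ∧ s ≤ t) : Ex e ts ≤ ((t : ℝ) + 2) / 2 := by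
  refine Ex_le _ (by positivity) ts fun s hs => ?_
  obtain ⟨h3, h4⟩ := hts s hs
  refine ⟨h3, ?_⟩
  rcases Nat.lt_or_ge s 2 with h | h
  · have h5 : s = 1 := by omega
    rw [h5, h1]
    norm_num
  · have h5 : (s : ℝ) ≤ t := by exact_mod_cast h4
    have h6 : (2 : ℝ) ≤ s := by exact_mod_cast h
    have h7 : 0 ≤ 1 - 1 / (s : ℝ) := by
      rw [sub_nonneg, div_le_one (by linarith)]
      linarith
    exact (h2 s h).trans ((eS_le h).trans (mul_le_mul_of_nonneg_left (by linarith) h7))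

/-- chains with degrees `s`, `s + 2 ≤ 2 ^ (i + 1)`, or `s` prime and `s + 2 ≤ 2 ^ (i + 2)` -/
theorem Ex_mixed {e : ℕ → ℝ} (h1 : e 1 = 0) (h2 : ∀ n : ℕ, 2 ≤ n → e n ≤ eS n) (ts : List ℕ)
    (i : ℕ) (hi : 1 ≤ i)
    (hts : ∀ s ∈ ts, 1 ≤ s ∧ (s + 2 ≤ 2 * 2 ^ i ∨ (s.Prime ∧ s + 2 ≤ 4 * 2 ^ i))) :
    Ex e ts ≤ 2 ^ i + 7 / 16 := by
  have hb : (2 : ℝ) ≤ 2 ^ i := by
    calc (2 : ℝ) = 2 ^ 1 := (pow_one 2).symm
      _ ≤ 2 ^ i := pow_le_pow_right₀ (by norm_num) hi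
  refine Ex_le _ (by positivity) ts fun s hs => ?_
  obtain ⟨h3, h4⟩ := hts s hs
  refine ⟨h3, ?_⟩
  rcases Nat.lt_or_ge s 2 with h | h
  · have h5 : s = 1 := by omega
    rw [h5, h1]
    norm_num
  have h6 : (2 : ℝ) ≤ s := by exact_mod_cast h
  have h7 : 0 ≤ 1 - 1 / (s : ℝ) := by
    rw [sub_nonneg, div_le_one (by linarith)]
    linarith
  rcases h4 with h4 | ⟨hp, h4⟩
  · have h5 : (s : ℝ) + 2 ≤ 2 * 2 ^ i := by exact_mod_cast h4
    exact (h2 s h).trans ((eS_le h).trans (mul_le_mul_of_nonneg_left (by linarith) h7))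
  · have h5 : (s : ℝ) + 2 ≤ 4 * 2 ^ i := by exact_mod_cast h4
    have h8 : eS s = (s + 2) / 4 := by
      unfold Pool.Agent.W222.UABC.eS
      rw [hp.minFac_eq, Nat.div_self hp.pos]
      have h9 : ((s - 1 : ℕ) : ℝ) = s - 1 := by
        rw [Nat.cast_sub (by omega)]
        norm_num
      push_cast
      rw [h9]
      have h10 : (s : ℝ) - 1 ≠ 0 := by
        have : (1 : ℝ) ≤ s - 1 := by linarith
        linarith
      field_simp
    refine (h2 s h).trans ?_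
    rw [h8]
    have h11 : (1 - 1 / (s : ℝ)) * (2 ^ i + 7 / 16) - (s + 2) / 4 =
        ((s - 1) * (2 ^ i + 7 / 16) - s * (s + 2) / 4) / s := by
      have : (s : ℝ) ≠ 0 := by linarith
      field_simp
    have h12 : 0 ≤ ((s : ℝ) - 1) * (2 ^ i + 7 / 16) - s * (s + 2) / 4 := by
      rcases Nat.lt_or_ge s 5 with h13 | h13
      · have h14 : (s : ℝ) ≤ 4 := by
          have : s ≤ 4 := by omega
          exact_mod_cast this
        rcases Nat.lt_or_ge s 4 with h15 | h15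
        · have h16 : (s : ℝ) ≤ 3 := by
            have : s ≤ 3 := by omega
            exact_mod_cast this
          nlinarith
        · have h17 : s = 4 := by omega
          exact absurd (h17 ▸ hp) (by norm_num)
      · have h14 : (5 : ℝ) ≤ s := by exact_mod_cast h13
        nlinarith
    have h13 : 0 ≤ ((s - 1) * (2 ^ i + 7 / 16) - s * (s + 2) / 4) / (s : ℝ) :=
      div_nonneg h12 (by linarith)
    linarith

/-- chains with degrees at most `t`, `t` large -/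
theorem Ex_log {e : ℕ → ℝ} (h1 : e 1 = 0) (h2 : ∀ n : ℕ, 2 ≤ n → e n ≤ eS n)
    (hlog : ∀ c : ℝ, 1 / (8 * (Real.log 2) ^ 2) < c → ∀ᶠ n : ℕ in atTop,
      e n ≤ c * (Real.log n) ^ 2) (c : ℝ) (hc : 1 / (8 * (Real.log 2) ^ 2) < c) :
    ∃ t₀ : ℕ, ∀ t : ℕ, t₀ ≤ t → ∀ ts : List ℕ, (∀ s ∈ ts, 1 ≤ s ∧ s ≤ t) →
      Ex e ts ≤ c * (Real.log t) ^ 2 := by
  have hl : 0 < Real.log 2 := Real.log_pos (by norm_num)
  have hc0 : 0 < 1 / (8 * (Real.log 2) ^ 2) := by positivity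
  obtain ⟨c', hc1, hc2⟩ := exists_between hc
  have hc'0 : 0 < c' := hc0.trans hc1
  obtain ⟨s₀, hs₀⟩ := eventually_atTop.1 (hlog c' hc1)
  -- `1 - 1 / s ≥ c' / c`
  have hlim : Tendsto (fun s : ℕ => (1 - 1 / (s : ℝ)) * c) atTop (𝓝 ((1 - 0) * c)) :=
    ((tendsto_const_nhds.sub tendsto_one_div_atTop_nhds_zero_nat).mul_const c)
  rw [sub_zero, one_mul] at hlim
  obtain ⟨s₁, hs₁⟩ := eventually_atTop.1 (hlim.eventually (lt_mem_nhds hc2))
  obtain ⟨S, hS⟩ : ∃ S : ℕ, S = max s₀ s₁ := ⟨_, rfl⟩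
  have hll : Tendsto (fun t : ℕ => c / 2 * (Real.log t) ^ 2) atTop atTop := by
    refine Tendsto.const_mul_atTop (by linarith) ?_
    exact (tendsto_pow_atTop two_ne_zero).comp
      (Real.tendsto_log_atTop.comp tendsto_natCast_atTop_atTop)
  obtain ⟨t₁, ht₁⟩ := eventually_atTop.1 (hll.eventually_ge_atTop ((S : ℝ) + 1))
  refine ⟨t₁, fun t ht ts hts => ?_⟩
  have hsq : 0 ≤ (Real.log t) ^ 2 := sq_nonneg _
  refine Ex_le _ (mul_nonneg (by linarith) hsq) ts fun s hs => ?_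
  obtain ⟨h3, h4⟩ := hts s hs
  refine ⟨h3, ?_⟩
  rcases Nat.lt_or_ge s 2 with h | h
  · have h5 : s = 1 := by omega
    rw [h5, h1]
    norm_num
  · have h6 : (2 : ℝ) ≤ s := by exact_mod_cast h
    rcases Nat.lt_or_ge s S with h7 | h7
    · have h8 := e_lt h1 h2 (n := s) (by omega)
      have h9 : (s : ℝ) ≤ S := by exact_mod_cast h7.le
      have h10 := ht₁ t ht
      have h11 : (1 : ℝ) / 2 ≤ 1 - 1 / s := by
        have : 1 / (s : ℝ) ≤ 1 / 2 := one_div_le_one_div_of_le (by norm_num) h6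
        linarith
      have h12 : 0 ≤ c * (Real.log t) ^ 2 := mul_nonneg (by linarith) hsq
      nlinarith
    · have h8 : e s ≤ c' * (Real.log s) ^ 2 := hs₀ s ((le_max_left _ _).trans (hS ▸ h7))
      have h9 : c' < (1 - 1 / (s : ℝ)) * c := hs₁ s ((le_max_right _ _).trans (hS ▸ h7))
      have h10 : (Real.log s) ^ 2 ≤ (Real.log t) ^ 2 := by
        have h11 : 0 ≤ Real.log s := Real.log_nonneg (by linarith)
        have h12 : Real.log s ≤ Real.log t :=
          Real.log_le_log (by linarith) (by exact_mod_cast h4)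
        exact pow_le_pow_left₀ h11 h12 2
      calc e s ≤ c' * (Real.log s) ^ 2 := h8
        _ ≤ c' * (Real.log t) ^ 2 := mul_le_mul_of_nonneg_left h10 hc'0.le
        _ ≤ (1 - 1 / (s : ℝ)) * c * (Real.log t) ^ 2 := mul_le_mul_of_nonneg_right h9.le hsq
        _ = _ := by ring

end Pool.Agent.H44.MB
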