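import Pool.Agent.H44.MB.Chn

/-!
# Counting the tops of chains of fields
-/

set_option autoImplicit false
set_option linter.unusedSectionVars false

open NumberField Filter Topology IntermediateField

namespace Pool.Agent.H44.MB

open Pool.Agent.TH444.ML (dsc dsc_eq nf_of_fd one_le_dsc)
open Pool.Agent.NH85.ML (GalX img TTX Upper few_gal)
open Pool.Agent.W301.Lin (FS)
open Pool.Agent.W222.UABC (eS)

/-- the exponents `e n` bound the number of extensions of degree `n`, uniformly -/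
def BoundU (e : ℕ → ℝ) : Prop :=
  (∀ n, 0 ≤ e n) ∧ ∀ n : ℕ, 1 ≤ n → ∀ k0 : ℕ, ∃ C : ℝ, ∀ (K : Type) [Field K] [NumberField K],
    Module.finrank ℚ K = k0 → ∀ X : ℝ, 1 ≤ X →
      (FS K n X).Finite ∧ ((FS K n X).ncard : ℝ) ≤ C * X ^ e n

theorem BoundU.bound {e : ℕ → ℝ} (h : BoundU e) : BoundE e := by
  refine ⟨h.1, fun n hn K _ _ => ?_⟩
  obtain ⟨C, hC⟩ := h.2 n hn (Module.finrank ℚ K)
  exact ⟨C, hC K rfl⟩

theorem exists_eU : ∃ e : ℕ → ℝ, BoundU e ∧ e 1 = 0 ∧ (∀ n : ℕ, 2 ≤ n → e n ≤ eS n) ∧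
    ∀ c : ℝ, 1 / (8 * (Real.log 2) ^ 2) < c → ∀ᶠ n : ℕ in atTop, e n ≤ c * (Real.log n) ^ 2 := by
  obtain ⟨e, h1, h2, h3, h4, h5⟩ := Pool.Agent.Y729.AE.linnikK
  refine ⟨e, ⟨h2, fun n hn k0 => ?_⟩, h4, h3, h1⟩
  obtain ⟨C, -, hC⟩ := h5 n hn k0
  exact ⟨C, hC⟩

/-- another algebraic closure -/
theorem fs_transfer (M Ω : Type) [Field M] [NumberField M] [Field Ω] [Algebra M Ω]
    [IsAlgClosure M Ω] (t : ℕ) (X : ℝ) (hfin : (FS M t X).Finite) :
    {L : IntermediateField M Ω | Module.finrank M L = t ∧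
      ∃ h : NumberField L, ((|@discr L _ h| : ℤ) : ℝ) ≤ X}.Finite ∧
    Set.ncard {L : IntermediateField M Ω | Module.finrank M L = t ∧
      ∃ h : NumberField L, ((|@discr L _ h| : ℤ) : ℝ) ≤ X} ≤ (FS M t X).ncard := by
  let φ : Ω ≃ₐ[M] AlgebraicClosure M := IsAlgClosure.equiv M Ω (AlgebraicClosure M)
  let F : IntermediateField M Ω → IntermediateField M (AlgebraicClosure M) := fun L =>
    L.map φ.toAlgHom
  have hinj : Function.Injective F := IntermediateField.map_injective φ.toAlgHom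
  have hmaps : ∀ L ∈ {L : IntermediateField M Ω | Module.finrank M L = t ∧
      ∃ h : NumberField L, ((|@discr L _ h| : ℤ) : ℝ) ≤ X}, F L ∈ FS M t X := by
    rintro L ⟨h1, h2, h3⟩
    let g : L ≃ₐ[M] F L := IntermediateField.intermediateFieldMap φ L
    have hnf : NumberField (F L) := NumberField.of_ringEquiv L (F L) g.toRingEquiv
    refine ⟨?_, hnf, ?_⟩
    · rw [← h1]
      exact g.toLinearEquiv.finrank_eq.symm
    · rw [← discr_eq_discr_of_ringEquiv L g.toRingEquiv]
      exact h3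
  constructor
  · exact Set.Finite.of_finite_image (f := F) (hfin.subset (Set.image_subset_iff.2 hmaps))
      hinj.injOn
  · exact Set.ncard_le_ncard_of_injOn F hmaps hinj.injOn hfin

/-- the extensions of degree `t` of `M` -/
def ET {K : Type} [Field K] [NumberField K] (M : IntermediateField K (AlgebraicClosure K)) (t : ℕ)
    (X : ℝ) : Set (IntermediateField K (AlgebraicClosure K)) :=
  {L | M ≤ L ∧ FiniteDimensional K L ∧ Module.finrank K L = t * Module.finrank K M ∧ dsc L ≤ X}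

theorem ext_count {e : ℕ → ℝ} (hU : BoundU e) (t : ℕ) (ht : 1 ≤ t) (k0 : ℕ) :
    ∃ C : ℝ, 0 ≤ C ∧ ∀ (K : Type) [Field K] [NumberField K]
      (M : IntermediateField K (AlgebraicClosure K)), FiniteDimensional K M →
      Module.finrank ℚ M = k0 → ∀ X : ℝ, 1 ≤ X →
        (ET M t X).Finite ∧ ((ET M t X).ncard : ℝ) ≤ C * X ^ e t := by
  obtain ⟨C, hC⟩ := hU.2 t ht k0
  refine ⟨|C|, abs_nonneg C, ?_⟩
  intro K _ _ M hfd hdeg X hX
  have hnf : NumberField M := nf_of_fd M
  have hac : IsAlgClosed (AlgebraicClosure K) := inferInstance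
  have halg : Algebra.IsAlgebraic M (AlgebraicClosure K) := Algebra.IsAlgebraic.tower_top (K := K) M
  have hcl : IsAlgClosure M (AlgebraicClosure K) := ⟨hac, halg⟩
  obtain ⟨h1, h2⟩ := hC M hdeg X hX
  obtain ⟨h3, h4⟩ := fs_transfer M (AlgebraicClosure K) t X h1
  have hsub : ET M t X ⊆ (fun L' : IntermediateField M (AlgebraicClosure K) =>
      IntermediateField.restrictScalars K L') '' {L : IntermediateField M (AlgebraicClosure K) |
        Module.finrank M L = t ∧ ∃ h : NumberField L, ((|@discr L _ h| : ℤ) : ℝ) ≤ X} := by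
    rintro L ⟨hML, hLfd, hLd, hLX⟩
    have hLnf : NumberField L := nf_of_fd L
    refine ⟨IntermediateField.extendScalars hML, ⟨?_, hLnf, ?_⟩, rfl⟩
    · have hfin : Module.finrank K L = Module.finrank K M *
          Module.finrank M (IntermediateField.extendScalars hML) :=
        (Module.finrank_mul_finrank K M (IntermediateField.extendScalars hML)).symm
      have hpos : 0 < Module.finrank K M := Module.finrank_pos
      rw [hLd] at hfin
      exact (Nat.eq_of_mul_eq_mul_left hpos (by rw [← hfin]; ring))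
    · rw [dsc_eq L] at hLX
      exact hLX
  refine ⟨(h3.image _).subset hsub, ?_⟩
  have h5 : (ET M t X).ncard ≤ (FS M t X).ncard :=
    (Set.ncard_le_ncard hsub (h3.image _)).trans ((Set.ncard_image_le h3).trans h4)
  calc ((ET M t X).ncard : ℝ) ≤ (FS M t X).ncard := by exact_mod_cast h5
    _ ≤ C * X ^ e t := h2
    _ ≤ |C| * X ^ e t := mul_le_mul_of_nonneg_right (le_abs_self C) (by positivity)

/-- the exponent of a chain -/
noncomputable def Ex (e : ℕ → ℝ) : List ℕ → ℝ
  | [] => 0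
  | t :: ts => e t + Ex e ts / t

theorem Ex_nonneg {e : ℕ → ℝ} (he : ∀ n, 0 ≤ e n) (ts : List ℕ) : 0 ≤ Ex e ts := by
  induction ts with
  | nil => exact le_rfl
  | cons t ts ih => exact add_nonneg (he t) (div_nonneg ih (Nat.cast_nonneg _))

theorem fchain_fd {K : Type} [Field K] (ts : List ℕ) (L : IntermediateField K (AlgebraicClosure K))
    (h : FChain K ts L) : FiniteDimensional K L ∧ Module.finrank K L = ts.prod := by
  induction ts generalizing L with
  | nil =>
    change L = ⊥ at h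
    subst h
    refine ⟨inferInstance, ?_⟩
    rw [IntermediateField.finrank_bot, List.prod_nil]
  | cons t ts ih =>
    obtain ⟨h1, M, h2, h3, h4⟩ := h
    refine ⟨h1, ?_⟩
    rw [h3, (ih M h4).2, List.prod_cons]

theorem chain_count {e : ℕ → ℝ} (hU : BoundU e) (K : Type) [Field K] [NumberField K]
    (ts : List ℕ) (hts : ∀ t ∈ ts, 1 ≤ t) : ∃ C : ℝ, 0 ≤ C ∧ ∀ X : ℝ, 1 ≤ X →
      {L : IntermediateField K (AlgebraicClosure K) | FChain K ts L ∧ dsc L ≤ X}.Finite ∧
      (Set.ncard {L : IntermediateField K (AlgebraicClosure K) | FChain K ts L ∧ dsc L ≤ X} : ℝ) ≤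
        C * X ^ Ex e ts := by
  classical
  induction ts with
  | nil =>
    refine ⟨1, one_pos.le, fun X hX => ?_⟩
    have hsub : {L : IntermediateField K (AlgebraicClosure K) | FChain K [] L ∧ dsc L ≤ X} ⊆ {⊥} := by
      rintro L ⟨h1, -⟩
      exact h1
    refine ⟨(Set.finite_singleton _).subset hsub, ?_⟩
    have h1 := Set.ncard_le_ncard hsub (Set.finite_singleton _)
    rw [Set.ncard_singleton] at h1
    change _ ≤ 1 * X ^ (0 : ℝ)
    rw [Real.rpow_zero, mul_one]
    exact_mod_cast h1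
  | cons t ts ih =>
    obtain ⟨C, hC0, hC⟩ := ih fun s hs => hts s (List.mem_cons_of_mem t hs)
    have ht : 1 ≤ t := hts t List.mem_cons_self
    obtain ⟨C', hC'0, hC'⟩ := ext_count hU t ht (Module.finrank ℚ K * ts.prod)
    refine ⟨C * C', mul_nonneg hC0 hC'0, fun X hX => ?_⟩
    have hX0 : 0 < X := by linarith
    have ht0 : (0 : ℝ) < t := by exact_mod_cast ht
    obtain ⟨Y, hY⟩ : ∃ Y : ℝ, Y = X ^ (1 / (t : ℝ)) := ⟨_, rfl⟩
    have hY1 : 1 ≤ Y := by
      rw [hY]
      exact Real.one_le_rpow hX (by positivity)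
    obtain ⟨h1, h2⟩ := hC Y hY1
    have hsub : {L : IntermediateField K (AlgebraicClosure K) | FChain K (t :: ts) L ∧ dsc L ≤ X} ⊆
        ⋃ M ∈ h1.toFinset, ET M t X := by
      rintro L ⟨⟨h3, M, h4, h5, h6⟩, h7⟩
      obtain ⟨hMfd, hMdeg⟩ := fchain_fd ts M h6
      simp only [Set.mem_iUnion, Set.Finite.mem_toFinset, exists_prop]
      refine ⟨M, ⟨h6, ?_⟩, h4, h3, h5, h7⟩
      have hd : dsc M ^ t ≤ dsc L := Pool.Agent.Q259.CA_FG.dsc_tower M L h4 t (by rw [h5, mul_comm])
      have h8 : dsc M ^ (t : ℝ) ≤ X := by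
        rw [Real.rpow_natCast]
        exact hd.trans h7
      have hM1 : 1 ≤ dsc M := one_le_dsc M
      have h9 := Real.rpow_le_rpow (by positivity) h8 (by positivity : 0 ≤ 1 / (t : ℝ))
      rw [← Real.rpow_mul (by linarith), mul_one_div_cancel ht0.ne', Real.rpow_one, ← hY] at h9
      exact h9
    have hM : ∀ M ∈ h1.toFinset, (ET M t X).Finite ∧ ((ET M t X).ncard : ℝ) ≤ C' * X ^ e t := by
      intro M hM
      rw [Set.Finite.mem_toFinset] at hM
      obtain ⟨hMfd, hMdeg⟩ := fchain_fd ts M hM.1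
      refine hC' K M hMfd ?_ X hX
      rw [← hMdeg, Module.finrank_mul_finrank ℚ K M]
    have hfin : (⋃ M ∈ h1.toFinset, ET M t X).Finite :=
      Set.Finite.biUnion h1.toFinset.finite_toSet fun M hMm => (hM M hMm).1
    refine ⟨hfin.subset hsub, ?_⟩
    have h10 : Set.ncard {L : IntermediateField K (AlgebraicClosure K) | FChain K (t :: ts) L ∧
        dsc L ≤ X} ≤ ∑ M ∈ h1.toFinset, (ET M t X).ncard :=
      (Set.ncard_le_ncard hsub hfin).trans (Finset.set_ncard_biUnion_le _ _)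
    calc (Set.ncard {L : IntermediateField K (AlgebraicClosure K) | FChain K (t :: ts) L ∧
          dsc L ≤ X} : ℝ)
        ≤ ∑ M ∈ h1.toFinset, ((ET M t X).ncard : ℝ) := by exact_mod_cast h10
      _ ≤ ∑ _M ∈ h1.toFinset, C' * X ^ e t := Finset.sum_le_sum fun M hMm => (hM M hMm).2
      _ = Set.ncard {L : IntermediateField K (AlgebraicClosure K) | FChain K ts L ∧ dsc L ≤ Y} *
            (C' * X ^ e t) := by
          rw [Finset.sum_const, nsmul_eq_mul, Set.ncard_eq_toFinset_card _ h1]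
      _ ≤ C * Y ^ Ex e ts * (C' * X ^ e t) :=
          mul_le_mul_of_nonneg_right h2 (by positivity)
      _ = C * C' * X ^ Ex e (t :: ts) := by
          have e1 : Y ^ Ex e ts = X ^ (Ex e ts / t) := by
            rw [hY, ← Real.rpow_mul hX0.le]
            congr 1
            ring
          have e2 : Ex e (t :: ts) = e t + Ex e ts / t := rfl
          rw [e1, e2, Real.rpow_add hX0]
          ring

/-- the upper bound for the extensions with group `Γ`, acting on `P`, with a chain of blocks -/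
theorem chain_upper {e : ℕ → ℝ} (hU : BoundU e) (K : Type) [Field K] [NumberField K]
    {Γ P : Type} [Group Γ] [Finite Γ] [MulAction Γ P] [FaithfulSMul Γ P]
    [MulAction.IsPretransitive Γ P] (x₀ : P) (ts : List ℕ)
    (hc : GChain ts (MulAction.stabilizer Γ x₀)) :
    Upper K (AlgebraicClosure K) (img Γ P) (Ex e ts) := by
  obtain ⟨C, hC0, hC⟩ := chain_count hU K ts (gchain_pos ts _ hc)
  refine ⟨C, hC0, fun Z hZ => ?_⟩
  obtain ⟨h1, h2⟩ := hC Z hZ
  have hsub : TTX K (AlgebraicClosure K) (img Γ P) Z ⊆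
      {L : IntermediateField K (AlgebraicClosure K) | FChain K ts L ∧ dsc L ≤ Z} := by
    rintro L ⟨hL, hLZ⟩
    exact ⟨fchain_galX x₀ ts hc L hL, hLZ⟩
  have h3 : (Set.ncard (TTX K (AlgebraicClosure K) (img Γ P) Z) : ℝ) ≤
      Set.ncard {L : IntermediateField K (AlgebraicClosure K) | FChain K ts L ∧ dsc L ≤ Z} := by
    exact_mod_cast Set.ncard_le_ncard hsub h1
  exact h3.trans h2

/-- a bound for the exponent of a chain -/
theorem Ex_le {e : ℕ → ℝ} (b : ℝ) (hb : 0 ≤ b) (ts : List ℕ)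
    (h : ∀ t ∈ ts, 1 ≤ t ∧ e t ≤ (1 - 1 / t) * b) : Ex e ts ≤ b := by
  induction ts with
  | nil => exact hb
  | cons t ts ih =>
    obtain ⟨h1, h2⟩ := h t List.mem_cons_self
    have h3 := ih fun s hs => h s (List.mem_cons_of_mem t hs)
    have ht0 : (0 : ℝ) < t := by exact_mod_cast h1
    change e t + Ex e ts / t ≤ b
    have h4 : Ex e ts / t ≤ b / t := div_le_div_of_nonneg_right h3 ht0.le
    have h5 : (1 - 1 / (t : ℝ)) * b = b - b / t := by ring
    linarith

end Pool.Agent.H44.MB
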