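import Pool.Agent.H44.MB.Iter

/-!
# Counting up to isomorphism
-/

set_option autoImplicit false
set_option linter.unusedSectionVars false

open NumberField Filter Topology IntermediateField

namespace Pool.Agent.H44.MB

open Pool.Agent.TH444.ML (Cnt)
open Pool.Agent.NH85.ML (Good cnt_TTX TTX_finite good_of_cnt)

/-- every isomorphism class has at most `m` members -/
theorem ncard_le_count (K : Type) [Field K] [NumberField K] {m : ℕ} (hm : 0 < m)
    (H : Subgroup (Equiv.Perm (Fin m))) (X : ℝ) :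
    Set.ncard (Cnt K H X) ≤
      m * Nat.card (Quot (fun L L' : Cnt K H X => Nonempty (L.1 ≃ₐ[K] L'.1))) := by
  classical
  have hfin : (Cnt K H X).Finite := by
    rw [cnt_TTX K hm]
    exact TTX_finite _ _
  have hF : Finite (Cnt K H X) := hfin
  have : Fintype (Cnt K H X) := Fintype.ofFinite _
  let r : Cnt K H X → Cnt K H X → Prop := fun L L' => Nonempty (L.1 ≃ₐ[K] L'.1)
  have hr : Equivalence r := ⟨fun L => ⟨AlgEquiv.refl⟩, fun ⟨e⟩ => ⟨e.symm⟩,
    fun ⟨e⟩ ⟨e'⟩ => ⟨e.trans e'⟩⟩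
  have : Fintype (Quot r) := Fintype.ofFinite _
  have hfib : ∀ q : Quot r, (Finset.univ.filter fun L : Cnt K H X => Quot.mk r L = q).card ≤ m := by
    intro q
    obtain ⟨L₀, rfl⟩ := Quot.exists_rep q
    obtain ⟨h1, -, h3, -⟩ := L₀.2
    have hfd : FiniteDimensional K L₀.1 := FiniteDimensional.of_finrank_pos (by
      have : Module.finrank K L₀.1 = m := h1
      omega)
    have hcard : Fintype.card (L₀.1 →ₐ[K] AlgebraicClosure K) = m := by
      rw [AlgHom.card]
      exact h1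
    refine le_trans ?_ hcard.le
    have hsub : (Finset.univ.filter fun L : Cnt K H X => Quot.mk r L = Quot.mk r L₀).map
        ⟨Subtype.val, Subtype.val_injective⟩ ⊆
        Finset.univ.image fun φ : L₀.1 →ₐ[K] AlgebraicClosure K => φ.fieldRange := by
      intro M hM
      rw [Finset.mem_map] at hM
      obtain ⟨L, hL, rfl⟩ := hM
      have h4 : r L L₀ := (Equivalence.eqvGen_iff hr).1 (Quot.eqvGen_exact (Finset.mem_filter.1 hL).2)
      obtain ⟨e⟩ := h4
      rw [Finset.mem_image]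
      refine ⟨L.1.val.comp e.symm.toAlgHom, Finset.mem_univ _, ?_⟩
      ext x
      constructor
      · rintro ⟨y, rfl⟩
        exact (e.symm y).2
      · intro hx
        refine ⟨e ⟨x, hx⟩, ?_⟩
        change ((e.symm (e ⟨x, hx⟩) : L.1) : AlgebraicClosure K) = x
        rw [AlgEquiv.symm_apply_apply]
    have h5 := Finset.card_le_card hsub
    rw [Finset.card_map] at h5
    exact h5.trans Finset.card_image_le
  have h6 := Finset.card_le_mul_card_image (s := (Finset.univ : Finset (Cnt K H X)))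
    (f := Quot.mk r) m (fun q _ => hfib q)
  have h7 : (Finset.univ.image (Quot.mk r)).card ≤ Nat.card (Quot r) := by
    rw [Nat.card_eq_fintype_card]
    exact Finset.card_le_univ _
  calc Set.ncard (Cnt K H X) = (Finset.univ : Finset (Cnt K H X)).card := by
        rw [Set.ncard_eq_toFinset_card', Set.toFinset_card, Finset.card_univ]
    _ ≤ m * (Finset.univ.image (Quot.mk r)).card := h6
    _ ≤ m * Nat.card (Quot r) := Nat.mul_le_mul_left _ h7

theorem ncard_pos_of_count (K : Type) [Field K] [NumberField K] {m : ℕ} (hm : 0 < m)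
    (H : Subgroup (Equiv.Perm (Fin m))) (X : ℝ)
    (h : 0 < Nat.card (Quot (fun L L' : Cnt K H X => Nonempty (L.1 ≃ₐ[K] L'.1)))) :
    0 < Set.ncard (Cnt K H X) := by
  have hfin : (Cnt K H X).Finite := by
    rw [cnt_TTX K hm]
    exact TTX_finite _ _
  obtain ⟨⟨q⟩, -⟩ := Nat.card_pos_iff.1 h
  obtain ⟨L, -⟩ := Quot.exists_rep q
  exact (Set.ncard_pos hfin).2 ⟨L.1, L.2⟩

/-- `0 < m` if there is a field -/
theorem pos_of_count (K : Type) [Field K] [NumberField K] {m : ℕ}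
    (H : Subgroup (Equiv.Perm (Fin m))) (X : ℝ)
    (h : 0 < Nat.card (Quot (fun L L' : Cnt K H X => Nonempty (L.1 ≃ₐ[K] L'.1)))) : 0 < m := by
  obtain ⟨⟨q⟩, -⟩ := Nat.card_pos_iff.1 h
  obtain ⟨L, -⟩ := Quot.exists_rep q
  obtain ⟨h1, -, h3, -⟩ := L.2
  have hfd : FiniteDimensional K L.1 := Module.Finite.of_restrictScalars_finite ℚ K L.1
  rw [← h1]
  exact Module.finrank_pos

/-- from a bound for the number of isomorphism classes -/
theorem good_of_count (K : Type) [Field K] [NumberField K] {m : ℕ}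
    (H : Subgroup (Equiv.Perm (Fin m))) {A : ℝ} (C X₀ : ℝ)
    (hC : ∀ X : ℝ, X₀ ≤ X →
      (Nat.card (Quot (fun L L' : Cnt K H X => Nonempty (L.1 ≃ₐ[K] L'.1))) : ℝ) ≤ C * X ^ A)
    (hne : ∃ X : ℝ, 0 < Nat.card (Quot (fun L L' : Cnt K H X => Nonempty (L.1 ≃ₐ[K] L'.1)))) :
    0 < m ∧ Good K H A := by
  obtain ⟨X₁, hX₁⟩ := hne
  have hm := pos_of_count K H X₁ hX₁
  refine ⟨hm, good_of_cnt K hm H (m * C) X₀ (fun X hX => ?_)
    ⟨X₁, ncard_pos_of_count K hm H X₁ hX₁⟩⟩
  have h1 : (Set.ncard (Cnt K H X) : ℝ) ≤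
      m * Nat.card (Quot (fun L L' : Cnt K H X => Nonempty (L.1 ≃ₐ[K] L'.1))) := by
    exact_mod_cast ncard_le_count K hm H X
  refine h1.trans ?_
  rw [mul_assoc]
  exact mul_le_mul_of_nonneg_left (hC X hX) (Nat.cast_nonneg _)

/-- a function with the growth of Malle's conjecture is `O(X ^ (5 / 4))` -/
theorem growth (f : ℝ → ℝ) (hf : ∀ X, 0 ≤ f X) (i b : ℕ) (c : ℝ) (hc : 0 < c)
    (h : Tendsto (fun X : ℝ => f X / (X ^ (1 / (i : ℝ)) * Real.log X ^ b)) atTop (𝓝 c)) :
    (∃ X, 0 < f X) ∧ ∃ X₀, ∀ X, X₀ ≤ X → f X ≤ (c + 1) * X ^ (5 / 4 : ℝ) := by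
  constructor
  · obtain ⟨X, hX⟩ := (h.eventually (lt_mem_nhds hc)).exists
    refine ⟨X, ?_⟩
    rcases (hf X).eq_or_lt with h0 | h0
    · rw [← h0] at hX
      simp at hX
    · exact h0
  · have h1 : ∀ᶠ X : ℝ in atTop, f X / (X ^ (1 / (i : ℝ)) * Real.log X ^ b) < c + 1 :=
      h.eventually (gt_mem_nhds (by linarith))
    have h2 : ∀ᶠ X : ℝ in atTop, ‖Real.log X ^ (b : ℝ)‖ ≤ 1 * ‖X ^ (1 / 4 : ℝ)‖ :=
      (isLittleO_log_rpow_rpow_atTop (b : ℝ) (by norm_num : (0 : ℝ) < 1 / 4)).def one_pos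
    have h3 := (h1.and h2).and (eventually_gt_atTop (3 : ℝ))
    obtain ⟨X₀, hX₀⟩ := eventually_atTop.1 h3
    refine ⟨X₀, fun X hX => ?_⟩
    obtain ⟨⟨h4, h5⟩, h6⟩ := hX₀ X hX
    have hX0 : 0 < X := by linarith
    have hlog : 0 < Real.log X := Real.log_pos (by linarith)
    have hpos : 0 < X ^ (1 / (i : ℝ)) * Real.log X ^ b := by positivity
    rw [div_lt_iff₀ hpos] at h4
    rw [Real.rpow_natCast, one_mul, Real.norm_of_nonneg (by positivity),
      Real.norm_of_nonneg (by positivity)] at h5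
    have h7 : 1 / (i : ℝ) ≤ 1 := by
      rcases Nat.eq_zero_or_pos i with h0 | h0
      · rw [h0]
        simp
      · rw [div_le_one (by exact_mod_cast h0)]
        exact_mod_cast h0
    have h8 : X ^ (1 / (i : ℝ)) ≤ X ^ (1 : ℝ) :=
      Real.rpow_le_rpow_of_exponent_le (by linarith) h7
    refine h4.le.trans ?_
    refine mul_le_mul_of_nonneg_left ?_ (by linarith)
    calc X ^ (1 / (i : ℝ)) * Real.log X ^ b ≤ X ^ (1 : ℝ) * X ^ (1 / 4 : ℝ) :=
          mul_le_mul h8 h5 (by positivity) (by positivity)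
      _ = X ^ (5 / 4 : ℝ) := by
          rw [← Real.rpow_add hX0]
          norm_num

end Pool.Agent.H44.MB
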