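import Pool.Agent.H44.MB.Exp

/-!
# The wreath product `C₂ ≀ (Γ, P)` under the criterion with general exponents
-/

set_option autoImplicit false
set_option linter.unusedSectionVars false

open NumberField Filter Topology IntermediateField

namespace Pool.Agent.H44.MB

open Pool.Agent.TH444.ML (dsc dsc_eq Cnt HasGp Gal nf_of_fd card_quot one_le_dsc)
open Pool.Agent.NH85.ML (GalX HasG TTX img Good Upper hasGp_of_equiv compDisc upper_of_summable
  cnt_TTX TTX_finite)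
open Pool.Agent.Q17.ML2 (GalS IsC2WrS)

theorem FewA.of_equiv {e : ℕ → ℝ} {a : ℝ} {Γ P Q : Type} [Group Γ] [MulAction Γ P]
    [MulAction Γ Q] (ε : P ≃ Q) (hε : ∀ (γ : Γ) (x : P), ε (γ • x) = γ • ε x)
    (h : FewA e a Γ P) : FewA e a Γ Q := by
  classical
  obtain ⟨r, U, B, h1, h2, h3, h4⟩ := h
  refine ⟨r, U, fun i => (B i).map ε.toEmbedding, h1, fun i => (h2 i).map, fun i γ hγ => ?_, ?_⟩
  · refine h3 i γ fun x hx => ?_
    have := hγ (ε x) (Finset.mem_map_of_mem ε.toEmbedding hx)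
    rw [← hε] at this
    exact ε.injective this
  · simp only [Finset.card_map]
    rw [← Nat.card_congr ε]
    exact h4

/-- the wreath product, in terms of the cosets of a point stabilizer -/
theorem isC2WrS_act {Γ P : Type} [Group Γ] [MulAction Γ P] {W : Subgroup Γ}
    (ε : (Γ ⧸ W) ≃ P) (hε : ∀ (γ : Γ) (x : Γ ⧸ W), ε (γ • x) = γ • ε x) {n : ℕ}
    {G : Subgroup (Equiv.Perm (Fin n))}
    (hG : ∃ f : Fin n ≃ P × Bool, ∀ π : Equiv.Perm (Fin n), π ∈ G ↔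
      ∃ γ : Γ, ∀ i, (f (π i)).1 = γ • (f i).1) : IsC2WrS Γ W G := by
  obtain ⟨f, hf⟩ := hG
  refine ⟨f.trans (ε.symm.prodCongr (Equiv.refl Bool)), fun π => ?_⟩
  rw [hf]
  have h1 : ∀ i, ((f.trans (ε.symm.prodCongr (Equiv.refl Bool))) i).1 = ε.symm (f i).1 :=
    fun i => rfl
  constructor
  · rintro ⟨γ, hi⟩
    refine ⟨γ, fun i => ?_⟩
    rw [h1, h1, hi]
    apply ε.injective
    rw [Equiv.apply_symm_apply, hε, Equiv.apply_symm_apply]
  · rintro ⟨γ, hi⟩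
    refine ⟨γ, fun i => ?_⟩
    have h2 := congrArg ε (hi i)
    rw [h1, h1, Equiv.apply_symm_apply, hε, Equiv.apply_symm_apply] at h2
    exact h2

/-- the asymptotic formula under the criterion -/
theorem few_asymp {e : ℕ → ℝ} (he : BoundE e) (K : Type) [Field K] [NumberField K] {Γ : Type}
    [Group Γ] [Finite Γ] {W : Subgroup Γ} (hW : W.normalCore = ⊥) {s : ℝ} (hs : s ≤ 3 / 2)
    (hF : FewA e s Γ (Γ ⧸ W)) (hne : (Gal K (AlgebraicClosure K) Γ).Nonempty) {n : ℕ}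
    (G : Subgroup (Equiv.Perm (Fin n))) (hG : IsC2WrS Γ W G) :
    ∃ c : ℝ, 0 < c ∧ Tendsto (fun X : ℝ =>
      (Nat.card (Quot (fun L L' : Cnt K G X => Nonempty (L.1 ≃ₐ[K] L'.1))) : ℝ) / X)
        atTop (𝓝 c) := by
  have hfa := faithful_quot hW
  have htr : MulAction.IsPretransitive Γ (Γ ⧸ W) := inferInstance
  obtain ⟨s', h1, h2, h3⟩ := good_few3 he K Γ (Γ ⧸ W) hF hne
  obtain ⟨t, ht1, ht2⟩ := exists_between (h2.trans_le hs)
  refine asympGen_iso K Γ W hW t ht2 ?_ ?_ G hG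
  · rw [galS_eq]
    exact Pool.Agent.NH85.ML.summable_of_upper h3.upper ht1 (h1.trans ht1.le)
  · rw [galS_eq]
    exact h3.ne

theorem ttx_act (K : Type) [Field K] [NumberField K] {Γ P : Type} [Group Γ] [MulAction Γ P]
    {d : ℕ} {G : Subgroup (Equiv.Perm (Fin d))}
    (hG : ∃ f : Fin d ≃ P, ∀ π : Equiv.Perm (Fin d), π ∈ G ↔ ∃ γ : Γ, ∀ i, f (π i) = γ • f i)
    (Z : ℝ) : TTX K (AlgebraicClosure K) G Z = TTX K (AlgebraicClosure K) (img Γ P) Z := by
  obtain ⟨f, hf⟩ := hG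
  have hiff : ∀ L : IntermediateField K (AlgebraicClosure K),
      HasG K (AlgebraicClosure K) G L ↔ HasG K (AlgebraicClosure K) (img Γ P) L := by
    intro L
    refine hasGp_of_equiv K f (img Γ P) (fun π => ?_) L
    rw [hf]
    constructor
    · rintro ⟨γ, h1⟩
      refine ⟨γ, ?_⟩
      ext x
      rw [Equiv.permCongr_apply, h1, Equiv.apply_symm_apply]
      rfl
    · rintro ⟨γ, h1⟩
      refine ⟨γ, fun i => ?_⟩
      have h2 := congrArg (fun ρ : Equiv.Perm P => ρ (f i)) h1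
      rw [Equiv.permCongr_apply, Equiv.symm_apply_apply] at h2
      exact h2.symm
  ext L
  constructor
  · rintro ⟨⟨h1, h2⟩, h3⟩
    exact ⟨⟨h1, (hiff L).1 h2⟩, h3⟩
  · rintro ⟨⟨h1, h2⟩, h3⟩
    exact ⟨⟨h1, (hiff L).2 h2⟩, h3⟩

/-- the upper bound -/
theorem few_upper {e : ℕ → ℝ} (he : BoundE e) (K : Type) [Field K] [NumberField K] {Γ P : Type}
    [Group Γ] [MulAction Γ P] [FaithfulSMul Γ P] [Finite P] [Nonempty P] {a : ℝ}
    (hF : FewA e a Γ P) {d : ℕ} (G : Subgroup (Equiv.Perm (Fin d)))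
    (hG : ∃ f : Fin d ≃ P, ∀ π : Equiv.Perm (Fin d), π ∈ G ↔ ∃ γ : Γ, ∀ i, f (π i) = γ • f i) :
    ∃ C : ℝ, ∀ X : ℝ, 1 ≤ X →
      (Nat.card (Quot (fun L L' : Cnt K G X => Nonempty (L.1 ≃ₐ[K] L'.1))) : ℝ) ≤ C * X ^ a := by
  have hP : 0 < Nat.card P := Nat.card_pos
  have hd : 0 < d := by
    obtain ⟨f, -⟩ := hG
    have := Nat.card_congr f
    rw [Nat.card_fin] at this
    omega
  obtain ⟨r, U, B, h1, h2, h3, h4⟩ := hF
  have ha : 0 ≤ a := by
    have h5 : (0 : ℝ) ≤ ∑ i, e (U i).index * (U i).index * (B i).card :=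
      Finset.sum_nonneg fun i _ =>
        mul_nonneg (mul_nonneg (he.1 _) (Nat.cast_nonneg _)) (Nat.cast_nonneg _)
    have h6 : (0 : ℝ) < Nat.card P := by exact_mod_cast hP
    by_contra hneg
    push Not at hneg
    nlinarith
  obtain ⟨C, hC0, hC⟩ := upper_of_summable K (AlgebraicClosure K) (img Γ P) ha
    (few_img3 he K h1 h2 h3 h4)
  obtain ⟨D, hDdef⟩ : ∃ D : ℝ, D = ((|discr K| : ℤ) : ℝ) ^ d := ⟨_, rfl⟩
  have hD1 : 1 ≤ D := by
    have h1 : (1 : ℤ) ≤ |discr K| := Int.one_le_abs (discr_ne_zero K)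
    have h2 : (1 : ℝ) ≤ ((|discr K| : ℤ) : ℝ) := by exact_mod_cast h1
    rw [hDdef]
    exact one_le_pow₀ h2
  refine ⟨C * D ^ a, fun X hX => ?_⟩
  have hcnt : Cnt K G X = TTX K (AlgebraicClosure K) (img Γ P) (X * D) := by
    rw [cnt_TTX K hd, ttx_act K hG, hDdef]
  have hfin : (Cnt K G X).Finite := by
    rw [hcnt]
    exact TTX_finite _ _
  have hF : Finite (Cnt K G X) := hfin
  have h5 : Nat.card (Quot (fun L L' : Cnt K G X => Nonempty (L.1 ≃ₐ[K] L'.1))) ≤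
      Set.ncard (Cnt K G X) := by
    rw [← Nat.card_coe_set_eq]
    exact Nat.card_le_card_of_surjective (Quot.mk _) Quot.mk_surjective
  have h6 := hC (X * D) (by nlinarith)
  rw [← hcnt, Real.mul_rpow (by linarith) (by linarith)] at h6
  calc (Nat.card (Quot (fun L L' : Cnt K G X => Nonempty (L.1 ≃ₐ[K] L'.1))) : ℝ)
      ≤ Set.ncard (Cnt K G X) := by exact_mod_cast h5
    _ ≤ C * (X ^ a * D ^ a) := h6
    _ = C * D ^ a * X ^ a := by ring

end Pool.Agent.H44.MB
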