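import Pool.Agent.H44.MB.Iter
import Pool.Graph.R_pool_sql_team_seeded_620a6dc7.Helper313SN.Iso

/-!
# `S_m`, `m ≥ 3`, is a Galois group over every number field
-/

set_option autoImplicit false
set_option linter.unusedSectionVars false

open NumberField Filter Topology IntermediateField

namespace Pool.Agent.H44.MB

open Pool.Agent.NH85.ML (GalX HasG)
open Pool.Agent.Q24.ML (Real)

/-- an extension with group `H` gives a Galois extension with group `H` -/
theorem real_of_galX (K : Type) [Field K] [NumberField K] {X : Type} [Finite X]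
    (H : Subgroup (Equiv.Perm X)) (hne : (GalX K (AlgebraicClosure K) H).Nonempty) : Real K H := by
  have i2 : Normal K (AlgebraicClosure K) := IsAlgClosure.normal K (AlgebraicClosure K)
  obtain ⟨M, hfd, e, he⟩ := hne
  obtain ⟨g⟩ := Pool.Agent.NH85.ML.few_iso e he
  have h1 : Normal K (normalClosure K M (AlgebraicClosure K)) := inferInstance
  exact ⟨normalClosure K M (AlgebraicClosure K), inferInstance, inferInstance, inferInstance,
    ⟨⟩, ⟨g.symm⟩⟩

theorem real_sym (K : Type) [Field K] [NumberField K] (m : ℕ) (hm : 3 ≤ m) :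
    Real K (Equiv.Perm (Fin m)) := by
  obtain ⟨c, hc, h⟩ := Pool.Agent.Helper313SN.rel_lower K (AlgebraicClosure K) hm
  obtain ⟨X, h1, h2⟩ := (h.and (eventually_gt_atTop (0 : ℝ))).exists
  have h3 := lt_of_lt_of_le (mul_pos hc (Real.rpow_pos_of_pos h2 ((1 : ℝ) / 2 + 1 / (m : ℝ)))) h1
  have h4 := Nat.cast_pos.1 h3
  obtain ⟨⟨q⟩, -⟩ := Nat.card_pos_iff.1 h4
  obtain ⟨L, -⟩ := Quot.exists_rep q
  obtain ⟨h5, h6, h7⟩ := L.2
  have hfd : FiniteDimensional K L.1 := FiniteDimensional.of_finrank_pos (by omega)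
  have hne : (GalX K (AlgebraicClosure K)
      (⊤ : Subgroup (Equiv.Perm (L.1 →ₐ[K] AlgebraicClosure K)))).Nonempty := by
    refine ⟨L.1, hfd, Equiv.refl _, fun π => ⟨fun _ => ?_, fun _ => Subgroup.mem_top _⟩⟩
    obtain ⟨σ, hσ⟩ := h6 π
    exact ⟨σ, fun φ => hσ φ⟩
  have h8 := real_of_galX K _ hne
  have hcard : Fintype.card (L.1 →ₐ[K] AlgebraicClosure K) = m := by
    rw [AlgHom.card K L.1 (AlgebraicClosure K), h5]
  let e : (L.1 →ₐ[K] AlgebraicClosure K) ≃ Fin m := Fintype.equivFinOfCardEq hcard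
  exact h8.congr (Subgroup.topEquiv.trans e.permCongrHom)

end Pool.Agent.H44.MB
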