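import Pool.Agent.H44.MB.Iter3
import Pool.Agent.H44.MB.Cls
import Pool.Agent.H44.MB.Sn

/-!
# The exponents
-/

set_option autoImplicit false

open Filter

namespace Pool.Agent.H44.MB

open Pool.Agent.W222.UABC (eS)

/-- the exponents of the library -/
theorem exists_e : ∃ e : ℕ → ℝ, BoundE e ∧ e 1 = 0 ∧ (∀ n : ℕ, 2 ≤ n → e n ≤ eS n) ∧
    ∀ c : ℝ, 1 / (8 * (Real.log 2) ^ 2) < c → ∀ᶠ n : ℕ in atTop, e n ≤ c * (Real.log n) ^ 2 := by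
  obtain ⟨e, h1, h2, h3, h4, h5⟩ := Pool.Agent.Y729.AE.linnikK
  refine ⟨e, ⟨h2, fun n hn K _ _ => ?_⟩, h4, h3, h1⟩
  obtain ⟨C, -, hC⟩ := h5 n hn (Module.finrank ℚ K)
  exact ⟨C, hC K rfl⟩

theorem e_lt {e : ℕ → ℝ} (h1 : e 1 = 0) (h2 : ∀ n : ℕ, 2 ≤ n → e n ≤ eS n) {n : ℕ} (hn : 1 ≤ n) :
    e n < ((n : ℝ) + 1) / 2 := by
  rcases Nat.lt_or_ge n 2 with h | h
  · have h3 : n = 1 := by omega
    rw [h3, h1]
    norm_num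
  · exact (h2 n h).trans_lt (eS_lt h)

end Pool.Agent.H44.MB
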