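import Pool.Graph.R_pool_sql_team_seeded_3dad9d7b.NH85.ML.All
import Pool.Graph.R_pool_sql_team_seeded_3997aac3.Q17.ML2.Fin

/-!
# Few extensions with group `H`, several subgroups and few point stabilizers

(helper44, MP_b39724_nt.)  `H` is a group of permutations of the finite set `X`, `U i` subgroups of `H`
of index `u i` whose normal cores intersect trivially, and `B i ⊆ X` nonempty sets such that every
element of `H` which fixes all points in `B i` is in `U i`. If `∑ 8 (u i) (u i + 1) |B i| ≤ |X|`, the sum
`∑ dsc M ^ (-1/4)` over the extensions `M` of `K` with group `H` converges.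
-/

set_option autoImplicit false
set_option linter.unusedSectionVars false

open NumberField Filter Topology IntermediateField

namespace Pool.Agent.H44.MB

open Pool.Agent.TH444.ML
open Pool.Agent.NH85.ML
open Pool.Agent.TH365.J3099 (act act_apply act_apply_apply ker_act)

section fin

variable {K Ω : Type} [Field K] [NumberField K] [Field Ω] [Algebra K Ω] [IsAlgClosure K Ω]
  {X : Type} [Finite X] {H : Subgroup (Equiv.Perm X)}

/-- the field attached to the subgroup `U` -/
lemma key_one (hc : CompDisc) (M : IntermediateField K Ω) [FiniteDimensional K M]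
    (e : (M →ₐ[K] Ω) ≃ X) (he : ∀ π : Equiv.Perm X, π ∈ H ↔
      ∃ σ : Ω ≃ₐ[K] Ω, ∀ φ : M →ₐ[K] Ω, e (σ.toAlgHom.comp φ) = π (e φ))
    (U : Subgroup H) (B : Finset X) (hB : ∀ h : H, (∀ x ∈ B, (h : Equiv.Perm X) x = x) → h ∈ U)
    (hBn : B.Nonempty) :
    ∃ F : IntermediateField K Ω, FiniteDimensional K F ∧ Module.finrank K F = U.index ∧
      F.fixingSubgroup = U.comap (fewHom e he) ∧ F ≤ normalClosure K M Ω ∧
      dnF F ^ Module.finrank K M ≤ dnF M ^ (B.card * U.index) := by
  have i1 : IsAlgClosed Ω := IsAlgClosure.isAlgClosed K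
  have i2 : Normal K Ω := IsAlgClosure.normal K Ω
  have i5 : IsGalois K Ω := few_gal K Ω
  set h := fewHom e he with hh
  have hs : Function.Surjective h := fewHom_surj e he
  obtain ⟨hCfd, hCd⟩ := fewC_disc hc M e B hBn
  set V : Subgroup (Ω ≃ₐ[K] Ω) := U.comap h with hV
  have hCV : (fewC e B).fixingSubgroup ≤ V := by
    intro σ hσ
    refine hB (h σ) fun x hx => ?_
    rw [hh, fewHom_apply]
    have h2 : act M σ (e.symm x) = e.symm x := by
      ext y
      rw [act_apply_apply]
      rw [IntermediateField.mem_fixingSubgroup_iff] at hσ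
      exact hσ _ ((le_iSup₂_of_le (f := fun (x : X) (_ : x ∈ B) => (e.symm x).fieldRange)
        x hx le_rfl) ⟨y, rfl⟩)
    rw [h2, Equiv.apply_symm_apply]
  have hopen : IsOpen (V : Set (Ω ≃ₐ[K] Ω)) :=
    Subgroup.isOpen_mono hCV (fewC e B).fixingSubgroup_isOpen
  have hclosed : IsClosed (V : Set (Ω ≃ₐ[K] Ω)) := Subgroup.isClosed_of_isOpen _ hopen
  obtain ⟨F, hFdef⟩ : ∃ F, F = IntermediateField.fixedField V := ⟨_, rfl⟩
  have hFV : F.fixingSubgroup = V := by
    rw [hFdef]
    exact InfiniteGalois.fixingSubgroup_fixedField ⟨V, hclosed⟩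
  have hFC : F ≤ fewC e B := by
    rw [← InfiniteGalois.fixedField_fixingSubgroup (fewC e B), hFdef]
    intro x hx
    rw [IntermediateField.mem_fixedField_iff] at hx ⊢
    exact fun σ hσ => hx σ (hCV hσ)
  have hFfd : FiniteDimensional K F := by
    rw [← InfiniteGalois.isOpen_iff_finite, hFV]
    exact hopen
  have hFr : Module.finrank K F = U.index := by
    rw [IntermediateField.finrank_eq_fixingSubgroup_index, hFV,
      Subgroup.index_comap_of_surjective _ hs]
  refine ⟨F, hFfd, hFr, hFV, hFC.trans (fewC_le e B), ?_⟩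
  obtain ⟨m, hm⟩ : ∃ m, Module.finrank K (fewC e B) = Module.finrank K F * m := by
    let F0 : IntermediateField K (fewC e B) := IntermediateField.restrict hFC
    have hal : F ≃ₐ[K] F0 := IntermediateField.restrictAlgEquiv hFC
    have h3 := Module.finrank_mul_finrank K F0 (fewC e B)
    rw [← hal.toLinearEquiv.finrank_eq] at h3
    exact ⟨_, h3.symm⟩
  have htow := Pool.Agent.Q259.CA_FG.dsc_tower F (fewC e B) hFC m hm.symm
  rw [dsc_dnF, dsc_dnF] at htow
  have htow' : dnF F ^ m ≤ dnF (fewC e B) := by exact_mod_cast htow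
  have hmpos : 0 < m := by
    rcases Nat.eq_zero_or_pos m with h0 | h0
    · rw [h0, mul_zero] at hm
      have : 0 < Module.finrank K (fewC e B) := Module.finrank_pos
      omega
    · exact h0
  have h9 : (dnF F ^ Module.finrank K M) ^ m ≤ (dnF M ^ (B.card * U.index)) ^ m := by
    calc (dnF F ^ Module.finrank K M) ^ m
        = (dnF F ^ m) ^ Module.finrank K M := by rw [← pow_mul, ← pow_mul, mul_comm]
      _ ≤ dnF (fewC e B) ^ Module.finrank K M := Nat.pow_le_pow_left htow' _
      _ ≤ dnF M ^ (B.card * Module.finrank K (fewC e B)) := hCd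
      _ = _ := by rw [hm, hFr, ← pow_mul, mul_assoc]
  exact (Nat.pow_le_pow_iff_left hmpos.ne').1 h9

/-- The data for several subgroups. -/
structure Small (H : Subgroup (Equiv.Perm X)) (r : ℕ) (U : Fin r → Subgroup H)
    (B : Fin r → Finset X) : Prop where
  core : ⨅ i, (U i).normalCore = ⊥
  ne : ∀ i, (B i).Nonempty
  fix : ∀ i, ∀ h : H, (∀ x ∈ B i, (h : Equiv.Perm X) x = x) → h ∈ U i
  card : ∑ i, 8 * (U i).index * ((U i).index + 1) * (B i).card ≤ Nat.card X

lemma key_all (hc : CompDisc) {r : ℕ} {U : Fin r → Subgroup H} {B : Fin r → Finset X}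
    (hS : Small H r U B) (M : IntermediateField K Ω) (hM : M ∈ GalX K Ω H) :
    ∃ F : Fin r → IntermediateField K Ω, (∀ i, FiniteDimensional K (F i)) ∧
      (∀ i, Module.finrank K (F i) = (U i).index) ∧
      (⨆ i, normalClosure K (F i) Ω) = normalClosure K M Ω ∧
      ∏ i, dnF (F i) ^ (8 * ((U i).index + 1)) ≤ dnF M := by
  have i1 : IsAlgClosed Ω := IsAlgClosure.isAlgClosed K
  have i2 : Normal K Ω := IsAlgClosure.normal K Ω
  have i5 : IsGalois K Ω := few_gal K Ω
  obtain ⟨hfd, e, he⟩ := hM
  have hD : Module.finrank K M = Nat.card X := by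
    rw [← Nat.card_congr e, Nat.card_eq_fintype_card, AlgHom.card]
  have key := fun i => key_one hc M e he (U i) (B i) (hS.fix i) (hS.ne i)
  choose F h1 h2 h3 h4 h5 using key
  have hs : Function.Surjective (fewHom e he) := fewHom_surj e he
  refine ⟨F, h1, h2, ?_, ?_⟩
  · apply le_antisymm
    · exact iSup_le fun i => normalClosure_le_iff_of_normal.2 (h4 i)
    · set S : IntermediateField K Ω := ⨆ i, normalClosure K (F i) Ω with hSdef
      have hfix : S.fixingSubgroup ≤ (normalClosure K M Ω).fixingSubgroup := by
        rw [← fewHom_ker e he]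
        have h6 : S.fixingSubgroup.map (fewHom e he) ≤ ⨅ i, (U i).normalCore := by
          refine le_iInf fun i => ?_
          set NF := normalClosure K (F i) Ω with hNF
          have h7 : S.fixingSubgroup ≤ NF.fixingSubgroup :=
            IntermediateField.fixingSubgroup_le (le_iSup (fun i => normalClosure K (F i) Ω) i)
          have h8 : NF.fixingSubgroup ≤ (U i).comap (fewHom e he) := by
            rw [← h3 i]
            exact IntermediateField.fixingSubgroup_le (le_normalClosure (F i))
          have hn : NF.fixingSubgroup.Normal := by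
            have : Normal K NF := inferInstance
            have hg : IsGalois K NF := ⟨⟩
            exact InfiniteGalois.normal_iff_isGalois NF |>.2 hg
          have hn2 : (NF.fixingSubgroup.map (fewHom e he)).Normal := Subgroup.Normal.map hn _ hs
          refine (Subgroup.map_mono h7).trans ?_
          rw [Subgroup.normal_le_normalCore, Subgroup.map_le_iff_le_comap]
          exact h8
        rw [hS.core, le_bot_iff, Subgroup.map_eq_bot_iff] at h6
        exact h6
      rw [← InfiniteGalois.fixedField_fixingSubgroup (normalClosure K M Ω),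
        ← InfiniteGalois.fixedField_fixingSubgroup S]
      exact IntermediateField.fixedField_antitone hfix
  · have hX : 0 < Module.finrank K M := Module.finrank_pos
    have h9 : (∏ i, dnF (F i) ^ (8 * ((U i).index + 1))) ^ Module.finrank K M ≤
        dnF M ^ Module.finrank K M := by
      calc (∏ i, dnF (F i) ^ (8 * ((U i).index + 1))) ^ Module.finrank K M
          = ∏ i, (dnF (F i) ^ Module.finrank K M) ^ (8 * ((U i).index + 1)) := by
            rw [← Finset.prod_pow]
            refine Finset.prod_congr rfl fun i _ => ?_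
            rw [← pow_mul, ← pow_mul, mul_comm]
        _ ≤ ∏ i, (dnF M ^ ((B i).card * (U i).index)) ^ (8 * ((U i).index + 1)) :=
            Finset.prod_le_prod' fun i _ => Nat.pow_le_pow_left (h5 i) _
        _ = dnF M ^ (∑ i, 8 * (U i).index * ((U i).index + 1) * (B i).card) := by
            rw [← Finset.prod_pow_eq_pow_sum]
            refine Finset.prod_congr rfl fun i _ => ?_
            rw [← pow_mul]
            congr 1
            ring
        _ ≤ dnF M ^ Module.finrank K M := by
            refine Nat.pow_le_pow_right (one_le_dnF M) ?_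
            rw [hD]
            exact hS.card
    exact (Nat.pow_le_pow_iff_left hX.ne').1 h9

end fin

end Pool.Agent.H44.MB
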