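import Pool.Agent.H44.MB.Min

/-!
# Counting the ideals in a fibre
-/

set_option autoImplicit false
set_option linter.unusedSectionVars false

namespace Pool.Agent.H44.MB

open NumberField Module NumberField.InfinitePlace
open scoped NNReal ENNReal
open Pool.Agent.TH55.J3092

variable {M : Type} [Field M] [NumberField M]

theorem Mn.le_one {𝔟 : Ideal (𝓞 M)} {x y : 𝓞 M} {τ : ℝ} (h : Mn 𝔟 x y τ) : τ ≤ 1 := by
  obtain ⟨w, hw⟩ := h.mn x h.xm h.x0
  have := pl_pos w h.x0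
  nlinarith

theorem fiber_card (𝔟 : Ideal (𝓞 M)) (Z : ℝ) (y : 𝓞 M) (k : InfinitePlace M → ℕ)
    (T : Finset (Ideal (𝓞 M)))
    (hT : ∀ I ∈ T, ∃ (x : 𝓞 M) (τ : ℝ), I = Ideal.span {x} ∧ Mn 𝔟 x y τ ∧
      (Ideal.absNorm I : ℝ) ≤ Ideal.absNorm 𝔟 * Z ∧ ∀ w : InfinitePlace M,
        (2 : ℝ) ^ k w ≤ τ * w (x : M) / w (y : M) ∧
        τ * w (x : M) / w (y : M) < (2 : ℝ) ^ (k w + 1)) (hTn : T.Nonempty) :
    (T.card : ℝ) ≤ 25 ^ finrank ℚ M *
      (Ideal.absNorm 𝔟 * Z / (Ideal.absNorm (Ideal.span {y}) : ℝ)) := by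
  classical
  set D := finrank ℚ M with hD
  have hDpos : 0 < D := finrank_pos
  have hDR : (0 : ℝ) < D := by exact_mod_cast hDpos
  choose! x τ hx using hT
  set Ny : ℝ := (Ideal.absNorm (Ideal.span {y}) : ℝ) with hNy
  obtain ⟨I₀, hI₀⟩ := hTn
  have hy0 : y ≠ 0 := (hx I₀ hI₀).2.1.y0
  have hNy0 : 0 < Ny := absNorm_pos' M hy0
  set R : ℝ := Ideal.absNorm 𝔟 * Z / Ny with hR
  have hinv : ∀ I ∈ T, (1 / τ I) ^ D ≤ R := by
    intro I hI
    obtain ⟨h1, h2, h3, h4⟩ := hx I hI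
    have h5 := h2.inv_le
    rw [← h1, ← hNy, ← hD] at h5
    have hτ := h2.t0
    rw [hR, le_div_iff₀ hNy0, div_pow, one_pow]
    rw [div_mul_eq_mul_div, one_mul, div_le_iff₀ (by positivity)]
    calc Ny ≤ τ I ^ D * (Ideal.absNorm I : ℝ) := h5
      _ ≤ τ I ^ D * (Ideal.absNorm 𝔟 * Z) := mul_le_mul_of_nonneg_left h3 (by positivity)
      _ = _ := mul_comm _ _
  have hR1 : 1 ≤ R := by
    refine le_trans ?_ (hinv I₀ hI₀)
    apply one_le_pow₀
    rw [le_div_iff₀ (hx I₀ hI₀).2.1.t0, one_mul]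
    exact (hx I₀ hI₀).2.1.le_one
  set A : ℝ := R ^ ((1 : ℝ) / (D : ℝ)) with hA
  have hA1 : 1 ≤ A := Real.one_le_rpow hR1 (by positivity)
  have hAD : A ^ D = R := by
    rw [hA, ← Real.rpow_natCast, ← Real.rpow_mul (by linarith), one_div,
      inv_mul_cancel₀ hDR.ne', Real.rpow_one]
  have hτA : ∀ I ∈ T, 1 / τ I ≤ A := by
    intro I hI
    have h1 := hinv I hI
    rw [← hAD] at h1
    exact le_of_pow_le_pow_left₀ hDpos.ne' (by linarith) h1
  set m : ℕ := ⌊16 * Real.sqrt 2 * A⌋₊ + 1 with hm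
  have hs2 : Real.sqrt 2 < 3 / 2 := by
    rw [Real.sqrt_lt' (by norm_num)]; norm_num
  have hs2' : 0 < Real.sqrt 2 := by positivity
  have hm1 : 16 * Real.sqrt 2 * A < m := by
    rw [hm]; push_cast; exact Nat.lt_floor_add_one _
  have hm2 : (m : ℝ) ≤ 25 * A := by
    rw [hm]; push_cast
    have := Nat.floor_le (show 0 ≤ 16 * Real.sqrt 2 * A by positivity)
    nlinarith
  have hmpos : (0 : ℝ) < m := lt_trans (by positivity) hm1
  have hmpos' : 0 < m := by exact_mod_cast hmpos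
  set s : InfinitePlace M → ℝ := fun w => 2 ^ k w * w (y : M) with hs
  have hs0 : ∀ w, 0 < s w := fun w => mul_pos (by positivity) (pl_pos w hy0)
  have hxs : ∀ I ∈ T, ∀ w : InfinitePlace M, s w ≤ τ I * w (x I : M) ∧ w (x I : M) < 4 * s w * A := by
    intro I hI w
    obtain ⟨h1, h2, h3, h4⟩ := hx I hI
    obtain ⟨h5, h6⟩ := h4 w
    have hw0 := pl_pos w hy0
    rw [le_div_iff₀ hw0] at h5
    rw [div_lt_iff₀ hw0] at h6
    refine ⟨h5, ?_⟩
    have h7 : τ I * w (x I : M) < 2 * s w := by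
      calc τ I * w (x I : M) < 2 ^ (k w + 1) * w (y : M) := h6
        _ = 2 * s w := by rw [hs, pow_succ]; ring
    have h8 : w (x I : M) = (1 / τ I) * (τ I * w (x I : M)) := by
      have := h2.t0.ne'
      field_simp
    rw [h8]
    have h9 := hτA I hI
    have h10 : 0 ≤ τ I * w (x I : M) := mul_nonneg h2.t0.le (apply_nonneg _ _)
    have h11 := hs0 w
    calc (1 / τ I) * (τ I * w (x I : M)) ≤ A * (τ I * w (x I : M)) :=
          mul_le_mul_of_nonneg_right h9 h10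
      _ ≤ A * (2 * s w) := mul_le_mul_of_nonneg_left h7.le (by linarith)
      _ < 4 * s w * A := by nlinarith
  set B : InfinitePlace M → ℝ := fun w => 4 * s w * A with hB
  set δ : InfinitePlace M → ℝ := fun w => s w / 2 with hδ
  have hδ0 : ∀ w, 0 < δ w := fun w => by rw [hδ]; have := hs0 w; positivity
  have hrange : ∀ I ∈ T, ∀ φ : M →+* ℂ,
      0 ≤ (tt φ (x I : M) + Real.sqrt 2 * B (mk φ)) / δ (mk φ) ∧
      (tt φ (x I : M) + Real.sqrt 2 * B (mk φ)) / δ (mk φ) < m := by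
    intro I hI φ
    have h1 : ‖φ (x I : M)‖ < B (mk φ) := by
      have := (hxs I hI (mk φ)).2
      rwa [InfinitePlace.apply] at this
    have h2 := abs_lt.mp (tt_lt φ _ (B (mk φ)) h1)
    constructor
    · apply div_nonneg _ (hδ0 _).le
      linarith [h2.1]
    · rw [div_lt_iff₀ (hδ0 _)]
      have h3 : 16 * Real.sqrt 2 * A * δ (mk φ) = 2 * Real.sqrt 2 * B (mk φ) := by
        rw [hδ, hB]; ring
      have h4 : 16 * Real.sqrt 2 * A * δ (mk φ) < m * δ (mk φ) :=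
        mul_lt_mul_of_pos_right hm1 (hδ0 _)
      linarith [h2.2]
  let g : Ideal (𝓞 M) → ((M →+* ℂ) → Fin m) := fun I φ =>
    ⟨⌊(tt φ (x I : M) + Real.sqrt 2 * B (mk φ)) / δ (mk φ)⌋₊ % m, Nat.mod_lt _ hmpos'⟩
  have hinj : Set.InjOn g T := by
    intro I hI J hJ hIJ
    rw [Finset.mem_coe] at hI hJ
    have h1 : ∀ φ : M →+* ℂ, |tt φ (((x I - x J : 𝓞 M)) : M)| ≤ δ (mk φ) := by
      intro φ
      have h2 := congrArg (fun p => (p φ : Fin m).val) hIJ
      simp only [g] at h2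
      obtain ⟨a1, a2⟩ := hrange I hI φ
      obtain ⟨b1, b2⟩ := hrange J hJ φ
      rw [Nat.mod_eq_of_lt ((Nat.floor_lt a1).mpr a2), Nat.mod_eq_of_lt ((Nat.floor_lt b1).mpr b2)]
        at h2
      have c1 := Nat.floor_le a1
      have c2 := Nat.lt_floor_add_one ((tt φ (x I : M) + Real.sqrt 2 * B (mk φ)) / δ (mk φ))
      have c3 := Nat.floor_le b1
      have c4 := Nat.lt_floor_add_one ((tt φ (x J : M) + Real.sqrt 2 * B (mk φ)) / δ (mk φ))
      rw [h2] at c1 c2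
      have e : tt φ (((x I - x J : 𝓞 M)) : M) = tt φ (x I : M) - tt φ (x J : M) := by
        rw [← tt_sub]; congr 1
      rw [e]
      have c5 : |(tt φ (x I : M) + Real.sqrt 2 * B (mk φ)) / δ (mk φ) -
          (tt φ (x J : M) + Real.sqrt 2 * B (mk φ)) / δ (mk φ)| ≤ 1 := by
        rw [abs_le]; constructor <;> linarith
      rw [← sub_div, abs_div, abs_of_pos (hδ0 _), div_le_one (hδ0 _)] at c5
      have e2 : tt φ (x I : M) + Real.sqrt 2 * B (mk φ) - (tt φ (x J : M) + Real.sqrt 2 * B (mk φ)) =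
          tt φ (x I : M) - tt φ (x J : M) := by ring
      rwa [e2] at c5
    have hz' : x I = x J := by
      by_contra hne
      have hne0 : x I - x J ≠ 0 := sub_ne_zero.mpr hne
      have hmem : x I - x J ∈ 𝔟 := 𝔟.sub_mem (hx I hI).2.1.xm (hx J hJ).2.1.xm
      obtain ⟨w, hw⟩ := (hx I hI).2.1.mn _ hmem hne0
      have h3 := norm_le_of_tt' (((x I - x J : 𝓞 M)) : M) δ (fun w => (hδ0 w).le) h1 w.embedding
      rw [InfinitePlace.mk_embedding, InfinitePlace.norm_embedding_eq] at h3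
      have h4 := (hxs I hI w).1
      have h5 : δ w < s w := by rw [hδ]; have := hs0 w; simp only; linarith
      linarith
    rw [(hx I hI).1, (hx J hJ).1, hz']
  have hcard : T.card ≤ m ^ D := by
    have h1 : T.card ≤ (Finset.univ : Finset ((M →+* ℂ) → Fin m)).card :=
      Finset.card_le_card_of_injOn g (fun I _ => Finset.mem_univ _) hinj
    rwa [Finset.card_univ, Fintype.card_fun, Fintype.card_fin, Embeddings.card, ← hD] at h1
  calc (T.card : ℝ) ≤ ((m ^ D : ℕ) : ℝ) := by exact_mod_cast hcard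
    _ = (m : ℝ) ^ D := by push_cast; ring
    _ ≤ (25 * A) ^ D := pow_le_pow_left₀ hmpos.le hm2 D
    _ = 25 ^ D * R := by rw [mul_pow, hAD]

end Pool.Agent.H44.MB
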