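import Pool.Agent.H44.MB.Fib

/-!
# Uniform linear bound for the number of principal ideals divisible by an ideal
-/

set_option autoImplicit false
set_option linter.unusedSectionVars false

namespace Pool.Agent.H44.MB

open NumberField Module NumberField.InfinitePlace
open scoped NNReal ENNReal
open Pool.Agent.TH55.J3092

/-- a generator -/
noncomputable def gen {M : Type} [Field M] [NumberField M] (J : Ideal (𝓞 M)) : 𝓞 M := by
  classical exact if h : ∃ x, J = Ideal.span {x} then h.choose else 0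

theorem gen_spec {M : Type} [Field M] [NumberField M] {J : Ideal (𝓞 M)}
    (h : ∃ x, J = Ideal.span {x}) : J = Ideal.span {gen J} := by
  unfold gen
  rw [dif_pos h]
  exact h.choose_spec

theorem card_places (M : Type) [Field M] [NumberField M] :
    Fintype.card (InfinitePlace M) ≤ finrank ℚ M := by
  rw [← sum_mult_eq, Fintype.card_eq_sum_ones]
  exact Finset.sum_le_sum fun w _ => mult_pos

theorem exists_data {M : Type} [Field M] [NumberField M] (𝔟 : Ideal (𝓞 M)) (h𝔟 : 𝔟 ≠ ⊥) (C2 : ℝ)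
    (hC2 : 2 ^ (finrank ℚ M) * Real.sqrt ((|discr M| : ℤ) : ℝ) < C2) (I : Ideal (𝓞 M))
    (hI : I ≠ ⊥) (hbI : 𝔟 ∣ I) (hIp : ∃ x, I = Ideal.span {x}) :
    ∃ (x : 𝓞 M) (τ : ℝ) (k : InfinitePlace M → Fin (Nat.log 2 ⌊C2⌋₊ + 1)) (J : Ideal (𝓞 M)),
      J ≠ ⊥ ∧ (Ideal.absNorm J : ℝ) ≤ C2 ∧ 𝔟 * J = Ideal.span {gen (𝔟 * J)} ∧
      I = Ideal.span {x} ∧ Mn 𝔟 x (gen (𝔟 * J)) τ ∧
      ∀ w : InfinitePlace M, (2 : ℝ) ^ (k w : ℕ) ≤ τ * w (x : M) / w (gen (𝔟 * J) : M) ∧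
        τ * w (x : M) / w (gen (𝔟 * J) : M) < (2 : ℝ) ^ ((k w : ℕ) + 1) := by
  classical
  obtain ⟨x₀, hx₀⟩ := hIp
  have hx00 : x₀ ≠ 0 := by
    rintro rfl
    exact hI (by rw [hx₀]; simp)
  have hxb : x₀ ∈ 𝔟 := by
    have h5 : I ≤ 𝔟 := Ideal.dvd_iff_le.mp hbI
    exact h5 (by rw [hx₀]; exact Ideal.mem_span_singleton_self _)
  obtain ⟨y₀, τ, hm⟩ := exists_mn 𝔟 hxb hx00
  have hbJ : 𝔟 ∣ Ideal.span {y₀} := by
    rw [Ideal.dvd_iff_le, Ideal.span_singleton_le_iff_mem]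
    exact hm.ym
  obtain ⟨J, hJ⟩ := hbJ
  have hgen : 𝔟 * J = Ideal.span {gen (𝔟 * J)} := gen_spec ⟨y₀, hJ.symm⟩
  have hass : Associated y₀ (gen (𝔟 * J)) := by
    rw [← Ideal.span_singleton_eq_span_singleton, ← hgen, hJ]
  obtain ⟨u, hu⟩ := hass
  have hm' := hm.unit u
  rw [hu] at hm'
  have hr := fun w => hm'.ratio_le h𝔟 C2 hC2 w
  have hJ0 : J ≠ ⊥ := by
    rintro rfl
    rw [Ideal.mul_bot, Ideal.span_singleton_eq_bot] at hJ
    exact hm.y0 hJ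
  have hb : 0 < (Ideal.absNorm 𝔟 : ℝ) := by
    have : Ideal.absNorm 𝔟 ≠ 0 := by
      rw [Ne, Ideal.absNorm_eq_zero_iff]; exact h𝔟
    exact_mod_cast Nat.pos_of_ne_zero this
  have hNJ : (Ideal.absNorm J : ℝ) ≤ C2 := by
    have h1 : (Ideal.absNorm (Ideal.span {y₀}) : ℝ) ≤ C2 * Ideal.absNorm 𝔟 :=
      hm.inv_le.trans (hm.norm_le h𝔟 C2 hC2)
    rw [hJ, map_mul] at h1
    push_cast at h1
    rw [mul_comm] at h1
    exact le_of_mul_le_mul_right h1 hb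
  refine ⟨x₀ * u, τ, fun w => ⟨Nat.log 2 ⌊τ * w ((x₀ * u : 𝓞 M) : M) / w (gen (𝔟 * J) : M)⌋₊, ?_⟩,
    J, hJ0, hNJ, hgen, ?_, hm', fun w => ?_⟩
  · rw [Nat.lt_succ_iff]
    exact Nat.log_mono_right (Nat.floor_le_floor (hr w).2)
  · rw [hx₀, Ideal.span_singleton_mul_right_unit u.isUnit]
  · obtain ⟨h1, h2⟩ := hr w
    set θ : ℝ := τ * w ((x₀ * u : 𝓞 M) : M) / w (gen (𝔟 * J) : M) with hθ
    have hfl : ⌊θ⌋₊ ≠ 0 := by
      have : 1 ≤ ⌊θ⌋₊ := Nat.le_floor (by exact_mod_cast h1)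
      omega
    constructor
    · have h3 : 2 ^ Nat.log 2 ⌊θ⌋₊ ≤ ⌊θ⌋₊ := Nat.pow_log_le_self 2 hfl
      have h4 : ((2 ^ Nat.log 2 ⌊θ⌋₊ : ℕ) : ℝ) ≤ (⌊θ⌋₊ : ℝ) := by exact_mod_cast h3
      push_cast at h4
      exact h4.trans (Nat.floor_le (by linarith))
    · have h3 : ⌊θ⌋₊ + 1 ≤ 2 ^ (Nat.log 2 ⌊θ⌋₊ + 1) :=
        Nat.lt_pow_succ_log_self (by norm_num) _
      have h4 : (⌊θ⌋₊ : ℝ) + 1 ≤ (2 : ℝ) ^ (Nat.log 2 ⌊θ⌋₊ + 1) := by exact_mod_cast h3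
      exact (Nat.lt_floor_add_one θ).trans_le h4

/-- uniform counting of principal ideals divisible by an ideal -/
def PrincE : Prop :=
  ∀ (D : ℕ) (ε : ℝ), 0 < ε → ∃ C : ℝ, 0 ≤ C ∧ ∀ (M : Type) [Field M] [NumberField M],
    finrank ℚ M = D → ∀ (𝔟 : Ideal (𝓞 M)), 𝔟 ≠ ⊥ → ∀ Z : ℝ, 1 ≤ Z →
      (Set.ncard {I : Ideal (𝓞 M) | I ≠ ⊥ ∧ 𝔟 ∣ I ∧ (∃ x, I = Ideal.span {x}) ∧
        (Ideal.absNorm I : ℝ) ≤ Ideal.absNorm 𝔟 * Z} : ℝ) ≤
      C * ((|discr M| : ℤ) : ℝ) ^ ε * Z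

theorem princE : PrincE := by
  classical
  intro D ε hε
  obtain ⟨Cs, hCs0, hCs⟩ := sum_inv D ε hε
  obtain ⟨K, hK1, hK⟩ := log_bound D ε hε
  refine ⟨K * 25 ^ D * Cs * ((2 : ℝ) ^ (D + 1)) ^ (2 * ε), by positivity, ?_⟩
  intro M _ _ hD 𝔟 h𝔟 Z hZ
  set d : ℝ := ((|discr M| : ℤ) : ℝ) with hd
  have hd1 : 1 ≤ d := by
    rw [hd]
    have h := discr_ne_zero M
    have : (1 : ℤ) ≤ |discr M| := Int.one_le_abs h
    exact_mod_cast this
  have hsd1 : 1 ≤ Real.sqrt d := Real.one_le_sqrt.mpr hd1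
  set C2 : ℝ := 2 ^ (D + 1) * Real.sqrt d with hC2
  have hC2lt : 2 ^ (finrank ℚ M) * Real.sqrt ((|discr M| : ℤ) : ℝ) < C2 := by
    rw [hD, hC2, ← hd, pow_succ]
    have : (0 : ℝ) < 2 ^ D * Real.sqrt d := by positivity
    linarith
  have hC21 : 1 ≤ C2 := by
    rw [hC2]
    have : (1 : ℝ) ≤ 2 ^ (D + 1) := one_le_pow₀ (by norm_num)
    nlinarith
  set L : ℕ := Nat.log 2 ⌊C2⌋₊ with hL
  set P : Set (Ideal (𝓞 M)) := {I : Ideal (𝓞 M) | I ≠ ⊥ ∧ 𝔟 ∣ I ∧ (∃ x, I = Ideal.span {x}) ∧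
        (Ideal.absNorm I : ℝ) ≤ Ideal.absNorm 𝔟 * Z} with hP
  have hPfin : P.Finite := by
    refine (Ideal.finite_setOfPred_absNorm_le (S := 𝓞 M) ⌊Ideal.absNorm 𝔟 * Z⌋₊).subset ?_
    rintro I ⟨-, -, -, hI⟩
    exact Nat.le_floor hI
  set F : Finset (Ideal (𝓞 M)) := hPfin.toFinset with hF
  have hmem : ∀ I ∈ F, I ≠ ⊥ ∧ 𝔟 ∣ I ∧ (∃ x, I = Ideal.span {x}) ∧
      (Ideal.absNorm I : ℝ) ≤ Ideal.absNorm 𝔟 * Z := fun I hI => hPfin.mem_toFinset.1 hI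
  have hb : 0 < (Ideal.absNorm 𝔟 : ℝ) := by
    have : Ideal.absNorm 𝔟 ≠ 0 := by
      rw [Ne, Ideal.absNorm_eq_zero_iff]; exact h𝔟
    exact_mod_cast Nat.pos_of_ne_zero this
  have hdat : ∀ I ∈ F, ∃ (x : 𝓞 M) (τ : ℝ) (k : InfinitePlace M → Fin (L + 1))
      (J : Ideal (𝓞 M)), J ≠ ⊥ ∧ (Ideal.absNorm J : ℝ) ≤ C2 ∧
      𝔟 * J = Ideal.span {gen (𝔟 * J)} ∧ I = Ideal.span {x} ∧ Mn 𝔟 x (gen (𝔟 * J)) τ ∧
      ∀ w : InfinitePlace M, (2 : ℝ) ^ (k w : ℕ) ≤ τ * w (x : M) / w (gen (𝔟 * J) : M) ∧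
        τ * w (x : M) / w (gen (𝔟 * J) : M) < (2 : ℝ) ^ ((k w : ℕ) + 1) := fun I hI =>
    exists_data 𝔟 h𝔟 C2 hC2lt I (hmem I hI).1 (hmem I hI).2.1 (hmem I hI).2.2.1
  choose! x τ k J hJ using hdat
  have hmaps : ∀ I ∈ F, (J I, k I) ∈ (F.image J) ×ˢ
      (Finset.univ : Finset (InfinitePlace M → Fin (L + 1))) := fun I hI =>
    Finset.mem_product.2 ⟨Finset.mem_image_of_mem J hI, Finset.mem_univ _⟩
  have hcard := Finset.card_eq_sum_card_fiberwise hmaps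
  have hfib : ∀ p ∈ (F.image J) ×ˢ (Finset.univ : Finset (InfinitePlace M → Fin (L + 1))),
      ((F.filter fun I => (J I, k I) = p).card : ℝ) ≤
        25 ^ D * Z * (1 / (Ideal.absNorm p.1 : ℝ)) := by
    rintro ⟨J₀, κ⟩ hp
    rcases (F.filter fun I => (J I, k I) = (J₀, κ)).eq_empty_or_nonempty with h0 | hne
    · rw [h0, Finset.card_empty, Nat.cast_zero]
      positivity
    · obtain ⟨I₀, hI₀⟩ := hne
      rw [Finset.mem_filter] at hI₀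
      have hJ₀ : J I₀ = J₀ := congrArg Prod.fst hI₀.2
      have h1 := fiber_card 𝔟 Z (gen (𝔟 * J₀)) (fun w => (κ w : ℕ))
        (F.filter fun I => (J I, k I) = (J₀, κ)) (fun I hI => by
          rw [Finset.mem_filter] at hI
          obtain ⟨hI1, hI2⟩ := hI
          have e1 : J I = J₀ := congrArg Prod.fst hI2
          have e2 : k I = κ := congrArg Prod.snd hI2
          obtain ⟨-, -, -, h5, h6, h7⟩ := hJ I hI1
          rw [e1] at h6 h7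
          rw [e2] at h7
          exact ⟨x I, τ I, h5, h6, (hmem I hI1).2.2.2, h7⟩) ⟨I₀, Finset.mem_filter.2 hI₀⟩
      rw [hD] at h1
      have h2 : (Ideal.absNorm (Ideal.span {gen (𝔟 * J₀)}) : ℝ) =
          Ideal.absNorm 𝔟 * Ideal.absNorm J₀ := by
        have h3 := (hJ I₀ hI₀.1).2.2.1
        rw [hJ₀] at h3
        rw [← h3, map_mul]
        push_cast
        ring
      have hJ0 : (0 : ℝ) < Ideal.absNorm J₀ := by
        have h3 := (hJ I₀ hI₀.1).1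
        rw [hJ₀] at h3
        have : Ideal.absNorm J₀ ≠ 0 := by
          rw [Ne, Ideal.absNorm_eq_zero_iff]; exact h3
        exact_mod_cast Nat.pos_of_ne_zero this
      rw [h2] at h1
      refine h1.trans (le_of_eq ?_)
      field_simp
  have hsum := hCs M hD C2 hC21 (F.image J) (fun J₀ hJ₀ => by
    obtain ⟨I, hI, rfl⟩ := Finset.mem_image.1 hJ₀
    exact ⟨(hJ I hI).1, (hJ I hI).2.1⟩)
  have hk : (Fintype.card (InfinitePlace M → Fin (L + 1)) : ℝ) ≤ K * C2 ^ ε := by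
    refine le_trans ?_ (hK C2 hC21)
    rw [Fintype.card_fun, Fintype.card_fin]
    have h1 : (L + 1) ^ Fintype.card (InfinitePlace M) ≤ (L + 1) ^ D :=
      Nat.pow_le_pow_right (Nat.succ_pos _) (hD ▸ card_places M)
    exact_mod_cast h1
  have hC20 : 0 < C2 := by linarith
  calc (P.ncard : ℝ) = (F.card : ℝ) := by rw [Set.ncard_eq_toFinset_card _ hPfin]
    _ = ∑ p ∈ (F.image J) ×ˢ (Finset.univ : Finset (InfinitePlace M → Fin (L + 1))),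
          ((F.filter fun I => (J I, k I) = p).card : ℝ) := by
        rw [hcard]; push_cast; rfl
    _ ≤ ∑ p ∈ (F.image J) ×ˢ (Finset.univ : Finset (InfinitePlace M → Fin (L + 1))),
          25 ^ D * Z * (1 / (Ideal.absNorm p.1 : ℝ)) := Finset.sum_le_sum hfib
    _ = ∑ J₀ ∈ F.image J, ∑ _κ : InfinitePlace M → Fin (L + 1),
          25 ^ D * Z * (1 / (Ideal.absNorm J₀ : ℝ)) := Finset.sum_product _ _ _
    _ = (Fintype.card (InfinitePlace M → Fin (L + 1)) : ℝ) * (25 ^ D * Z) *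
          ∑ J₀ ∈ F.image J, (1 / (Ideal.absNorm J₀ : ℝ)) := by
        rw [Finset.mul_sum]
        refine Finset.sum_congr rfl fun J₀ _ => ?_
        rw [Finset.sum_const, Finset.card_univ, nsmul_eq_mul]
        ring
    _ ≤ (K * C2 ^ ε) * (25 ^ D * Z) * (Cs * C2 ^ ε) := by
        refine mul_le_mul (mul_le_mul_of_nonneg_right hk (by positivity)) hsum
          (Finset.sum_nonneg fun J₀ _ => by positivity) (by positivity)
    _ = K * 25 ^ D * Cs * C2 ^ (2 * ε) * Z := by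
        have h1 : C2 ^ (2 * ε) = C2 ^ ε * C2 ^ ε := by
          rw [← Real.rpow_add hC20]
          congr 1
          ring
        rw [h1]
        ring
    _ = K * 25 ^ D * Cs * ((2 : ℝ) ^ (D + 1)) ^ (2 * ε) * d ^ ε * Z := by
        have h2 : C2 ^ (2 * ε) = ((2 : ℝ) ^ (D + 1)) ^ (2 * ε) * d ^ ε := by
          rw [hC2, Real.mul_rpow (by positivity) (by positivity)]
          congr 1
          rw [Real.sqrt_eq_rpow, ← Real.rpow_mul (by linarith)]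
          congr 1
          ring
        rw [h2]
        ring

end Pool.Agent.H44.MB
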