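import Pool.Agent.H44.MB.Gen
import Pool.Agent.H44.MB.Prc
import Pool.Agent.H44.MB.Asym

/-!
# The asymptotic formula under the condition that the sum of `dsc M ^ (-s)` converges, `s < 3 / 2`
-/

set_option autoImplicit false
set_option linter.unusedSectionVars false

open NumberField Filter Topology IntermediateField

namespace Pool.Agent.H44.MB

open Pool.Agent.TH444.ML (dsc dsc_eq Cnt HasGp Gal nf_of_fd card_quot)
open Pool.Agent.NH85.ML (GalX img compDisc)
open Pool.Agent.Q17.ML2 (GalS IsC2WrS TTS cnt_eqS quot_TTS badSmallS parts)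

theorem asympGen (K : Type) [Field K] [NumberField K] (Γ : Type) [Group Γ] [Finite Γ]
    (W : Subgroup Γ) (hW : W.normalCore = ⊥) (s : ℝ) (hs : s < 3 / 2)
    (hsum : Summable (fun M : GalS K (AlgebraicClosure K) Γ W => (dsc M.1) ^ (-s : ℝ)))
    (hne : (GalS K (AlgebraicClosure K) Γ W).Nonempty) {n : ℕ} (G : Subgroup (Equiv.Perm (Fin n)))
    (hG : IsC2WrS Γ W G) :
    (∀ X : ℝ, 0 < X → (Cnt K G X).Finite) ∧ ∃ c : ℝ, 0 < c ∧
      Tendsto (fun X : ℝ => (Set.ncard (Cnt K G X) : ℝ) / X) atTop (𝓝 c) := by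
  have hd : 0 < ((|discr K| : ℤ) : ℝ) ^ n := by
    have : (0 : ℤ) < |discr K| := abs_pos.2 (discr_ne_zero K)
    have : (0 : ℝ) < ((|discr K| : ℤ) : ℝ) := by exact_mod_cast this
    positivity
  have h := main_asympE (K := K) (Ω := AlgebraicClosure K) (H := Γ) (W := W)
    (Pool.Agent.TH444.ML.quadLim Pool.Agent.TH444.ML.rest) Pool.Agent.TH444.ML.quadPos
    (quadE Pool.Agent.TH263.J3086.discQuad Pool.Agent.TH914.J3087.kumP
      Pool.Agent.NH85.ML.idealUnifE princE) (badSmallS parts) (parts.wi parts.dg)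
    (parts.mu parts.dg) parts.dg hW s hs hsum hne _ hd
  simp only [cnt_eqS parts K hG]
  exact h

/-- up to isomorphism -/
theorem asympGen_iso (K : Type) [Field K] [NumberField K] (Γ : Type) [Group Γ] [Finite Γ]
    (W : Subgroup Γ) (hW : W.normalCore = ⊥) (s : ℝ) (hs : s < 3 / 2)
    (hsum : Summable (fun M : GalS K (AlgebraicClosure K) Γ W => (dsc M.1) ^ (-s : ℝ)))
    (hne : (GalS K (AlgebraicClosure K) Γ W).Nonempty) {n : ℕ} (G : Subgroup (Equiv.Perm (Fin n)))
    (hG : IsC2WrS Γ W G) :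
    ∃ c : ℝ, 0 < c ∧ Tendsto (fun X : ℝ =>
      (Nat.card (Quot (fun L L' : Cnt K G X => Nonempty (L.1 ≃ₐ[K] L'.1))) : ℝ) / X)
        atTop (𝓝 c) := by
  obtain ⟨hfin, c, hc0, hlim⟩ := asympGen K Γ W hW s hs hsum hne G hG
  have hpos : (0 : ℝ) < W.index := by
    exact_mod_cast Nat.pos_of_ne_zero Subgroup.index_ne_zero_of_finite
  refine ⟨c / W.index, by positivity, ?_⟩
  have h := hlim.div_const (W.index : ℝ)
  refine h.congr' ?_
  filter_upwards [eventually_gt_atTop (0 : ℝ)] with X hX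
  have hX' := hfin X hX
  rw [cnt_eqS parts K hG] at hX' ⊢
  have hq := quot_TTS parts (K := K) (Ω := AlgebraicClosure K) (H := Γ) (W := W) _ hX'
  rw [← hq]
  push_cast
  field_simp

end Pool.Agent.H44.MB
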