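import Pool.Agent.H44.MB.GenG
import Pool.Graph.R_pool_sql_team_seeded_3dad9d7b.NH85.ML.WeakOut

/-!
# The asymptotic formula for `C₂ ≀ H` from an upper bound `O(X ^ A)`, `A < 3 / 2`, for `H`
-/

set_option autoImplicit false
set_option linter.unusedSectionVars false

open NumberField Filter Topology IntermediateField

namespace Pool.Agent.H44.MB

open Pool.Agent.TH444.ML (dsc dsc_eq Cnt HasGp Gal nf_of_fd card_quot)
open Pool.Agent.NH85.ML (GalX HasG TTX img Good Upper IsWrP hasGp_of_equiv summable_of_upper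
  exists_act_of)
open Pool.Agent.Q17.ML2 (GalS IsC2WrS)
open Pool.Agent.TH365.J3099 (act act_apply act_apply_apply)

/-- `H ≤ S_m` is transitive if it is the group of an extension. -/
theorem trans_of_galX (K : Type) [Field K] [NumberField K] {m : ℕ}
    (H : Subgroup (Equiv.Perm (Fin m)))
    (hne : (GalX K (AlgebraicClosure K) H).Nonempty) : MulAction.IsPretransitive H (Fin m) := by
  have i2 : Normal K (AlgebraicClosure K) := IsAlgClosure.normal K (AlgebraicClosure K)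
  obtain ⟨M, hfd, e, he⟩ := hne
  refine ⟨fun x y => ?_⟩
  obtain ⟨σ, hσ⟩ := exists_act_of M (e.symm x) (e.symm y)
  let π : Equiv.Perm (Fin m) := e.permCongr (act M σ)
  have hπ : π ∈ H := by
    refine (he π).2 ⟨σ, fun φ => ?_⟩
    change _ = e (act M σ (e.symm (e φ)))
    rw [Equiv.symm_apply_apply]
    rfl
  refine ⟨⟨π, hπ⟩, ?_⟩
  change e (act M σ (e.symm x)) = y
  rw [hσ, Equiv.apply_symm_apply]

/-- the action of `H` on the cosets of a point stabilizer -/
theorem mem_quot {m : ℕ} (H : Subgroup (Equiv.Perm (Fin m))) {P : Type} [MulAction H P]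
    (ε : P ≃ Fin m) (hε : ∀ (h : H) (x : P), ε (h • x) = h • ε x) (π : Equiv.Perm (Fin m)) :
    π ∈ H ↔ ε.symm.permCongr π ∈ img H P := by
  constructor
  · intro hπ
    refine ⟨⟨π, hπ⟩, ?_⟩
    ext x
    rw [Equiv.permCongr_apply, Equiv.symm_symm]
    apply ε.injective
    rw [Equiv.apply_symm_apply]
    exact hε ⟨π, hπ⟩ x
  · rintro ⟨γ, hγ⟩
    have : π = γ.1 := by
      ext i
      have h1 := congrArg (fun ρ : Equiv.Perm P => ε (ρ (ε.symm i))) hγ
      simp only [Equiv.permCongr_apply, Equiv.symm_symm, Equiv.apply_symm_apply] at h1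
      rw [← h1]
      have h2 := hε γ (ε.symm i)
      rw [Equiv.apply_symm_apply] at h2
      exact congrArg _ h2
    rw [this]
    exact γ.2

theorem galX_quot (K : Type) [Field K] {m : ℕ} (H : Subgroup (Equiv.Perm (Fin m))) {P : Type}
    [MulAction H P] (ε : P ≃ Fin m) (hε : ∀ (h : H) (x : P), ε (h • x) = h • ε x) :
    GalX K (AlgebraicClosure K) (img H P) = GalX K (AlgebraicClosure K) H := by
  ext L
  have h := hasGp_of_equiv K ε.symm (img H P) (G := H) (mem_quot H ε hε) L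
  constructor
  · rintro ⟨h1, h2⟩
    exact ⟨h1, h.2 h2⟩
  · rintro ⟨h1, h2⟩
    exact ⟨h1, h.1 h2⟩

theorem isC2WrS_of {m : ℕ} (H : Subgroup (Equiv.Perm (Fin m))) {W : Subgroup H}
    (ε : (H ⧸ W) ≃ Fin m) (hε : ∀ (h : H) (x : H ⧸ W), ε (h • x) = h • ε x) {d : ℕ}
    {G : Subgroup (Equiv.Perm (Fin d))} (hG : IsWrP H G) : IsC2WrS H W G := by
  obtain ⟨f, hf⟩ := hG
  refine ⟨f.trans (ε.symm.prodCongr (Equiv.refl Bool)), fun π => ?_⟩
  rw [hf]
  have h1 : ∀ i, ((f.trans (ε.symm.prodCongr (Equiv.refl Bool))) i).1 = ε.symm (f i).1 := fun i => rfl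
  constructor
  · rintro ⟨h, hh, hi⟩
    refine ⟨⟨h, hh⟩, fun i => ?_⟩
    rw [h1, h1, hi]
    apply ε.injective
    rw [Equiv.apply_symm_apply, hε, Equiv.apply_symm_apply]
    rfl
  · rintro ⟨h, hi⟩
    refine ⟨h.1, h.2, fun i => ?_⟩
    have h2 := congrArg ε (hi i)
    rw [h1, h1, Equiv.apply_symm_apply, hε, Equiv.apply_symm_apply] at h2
    exact h2

/-- the data of a transitive group `H ≤ S_m` -/
theorem wr_data (K : Type) [Field K] [NumberField K] {m : ℕ} (hm : 0 < m)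
    (H : Subgroup (Equiv.Perm (Fin m))) (htr : MulAction.IsPretransitive H (Fin m)) :
    ∃ W : Subgroup H, W.normalCore = ⊥ ∧
      GalS K (AlgebraicClosure K) H W = GalX K (AlgebraicClosure K) H ∧
      ∀ (d : ℕ) (G : Subgroup (Equiv.Perm (Fin d))), IsWrP H G → IsC2WrS H W G := by
  let x₀ : Fin m := ⟨0, hm⟩
  obtain ⟨ε, hε⟩ := exists_quot (Γ := H) (P := Fin m) x₀
  refine ⟨MulAction.stabilizer H x₀, core_stab x₀, ?_, fun d G hG => isC2WrS_of H ε hε hG⟩
  rw [galS_eq]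
  exact galX_quot K H ε hε

/-- **The asymptotic formula for `C₂ ≀ H`** from an upper bound for `H`. -/
theorem good_asymp (K : Type) [Field K] [NumberField K] {m : ℕ} (hm : 0 < m)
    (H : Subgroup (Equiv.Perm (Fin m))) {A : ℝ} (hA : A < 3 / 2) (h : Good K H A) {d : ℕ}
    (G : Subgroup (Equiv.Perm (Fin d))) (hG : IsWrP H G) :
    ∃ c : ℝ, 0 < c ∧ Tendsto (fun X : ℝ =>
      (Nat.card (Quot (fun L L' : Cnt K G X => Nonempty (L.1 ≃ₐ[K] L'.1))) : ℝ) / X)
        atTop (𝓝 c) := by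
  have htr := trans_of_galX K H h.ne
  obtain ⟨W, hW, hGal, hWr⟩ := wr_data K hm H htr
  obtain ⟨s, hs⟩ : ∃ s : ℝ, s = (max A 0 + 3 / 2) / 2 := ⟨_, rfl⟩
  have h0 : 0 ≤ max A 0 := le_max_right _ _
  have h1 : A ≤ max A 0 := le_max_left _ _
  have h2 : max A 0 < 3 / 2 := max_lt hA (by norm_num)
  have hsum := summable_of_upper h.upper (s := s) (by rw [hs]; linarith) (by rw [hs]; linarith)
  refine asympGen_iso K H W hW s (by rw [hs]; linarith) ?_ ?_ G (hWr d G hG)
  · rw [hGal]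
    exact hsum
  · rw [hGal]
    exact h.ne

end Pool.Agent.H44.MB
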