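import Pool.Agent.H44.MB.Asym

/-!
# A criterion for `SmallP` in terms of orbits, and the homomorphism `G → Γ`
-/

set_option autoImplicit false

namespace Pool.Agent.H44.MB

open Pool.Agent.Q17.ML2 (IsC2WrS)

theorem SmallP.of_orbits {Γ P Q : Type} [Group Γ] [MulAction Γ P] [MulAction Γ Q] (r : ℕ)
    (q : Fin r → Q) (B : Fin r → Finset P) (hBn : ∀ i, (B i).Nonempty)
    (hfix : ∀ i, ∀ γ : Γ, (∀ x ∈ B i, γ • x = x) → γ • q i = q i)
    (hf : ∀ γ : Γ, (∀ i, ∀ g : Γ, γ • g • q i = g • q i) → γ = 1) (u b : ℕ)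
    (hu : ∀ i, (MulAction.orbit Γ (q i)).ncard ≤ u) (hb : ∀ i, (B i).card ≤ b)
    (hc : r * (8 * u * (u + 1) * b) ≤ Nat.card P) : SmallP Γ P := by
  refine ⟨r, fun i => MulAction.stabilizer Γ (q i), B, ?_, hBn, fun i γ h => ?_, ?_⟩
  · rw [eq_bot_iff]
    intro γ hγ
    rw [Subgroup.mem_iInf] at hγ
    rw [Subgroup.mem_bot]
    refine hf γ fun i g => ?_
    have h1 : g⁻¹ * γ * g ∈ MulAction.stabilizer Γ (q i) := by
      have := (Subgroup.normalCore_normal (MulAction.stabilizer Γ (q i))).conj_mem γ (hγ i) g⁻¹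
      rw [inv_inv] at this
      exact Subgroup.normalCore_le _ this
    rwa [MulAction.mem_stabilizer_iff, mul_smul, mul_smul, inv_smul_eq_iff] at h1
  · exact MulAction.mem_stabilizer_iff.2 (hfix i γ h)
  · refine le_trans ?_ hc
    calc ∑ i : Fin r, 8 * (MulAction.stabilizer Γ (q i)).index *
          ((MulAction.stabilizer Γ (q i)).index + 1) * (B i).card
        ≤ ∑ _i : Fin r, 8 * u * (u + 1) * b := by
          refine Finset.sum_le_sum fun i _ => ?_
          have h1 : (MulAction.stabilizer Γ (q i)).index ≤ u := by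
            rw [MulAction.index_stabilizer]
            exact hu i
          have h2 := hb i
          gcongr
      _ = r * (8 * u * (u + 1) * b) := by
          rw [Finset.sum_const, Finset.card_univ, Fintype.card_fin, smul_eq_mul]

/-- `G` maps onto `Γ` -/
theorem exists_hom {Γ : Type} [Group Γ] {W : Subgroup Γ} (hW : W.normalCore = ⊥) {n : ℕ}
    {G : Subgroup (Equiv.Perm (Fin n))} (hG : IsC2WrS Γ W G) :
    ∃ φ : G →* Γ, Function.Surjective φ := by
  have hfa := faithful_quot hW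
  obtain ⟨f, hf⟩ := hG
  have h1 : ∀ π : G, ∃ γ : Γ, ∀ i, (f (π.1 i)).1 = γ • (f i).1 := fun π => (hf π.1).1 π.2
  choose φ hφ using h1
  have huniq : ∀ (γ δ : Γ), (∀ i, γ • (f i).1 = δ • (f i).1) → γ = δ := by
    intro γ δ h
    refine eq_of_smul_eq_smul (α := Γ ⧸ W) fun x => ?_
    have h2 := h (f.symm (x, true))
    rwa [Equiv.apply_symm_apply] at h2
  refine ⟨{ toFun := φ, map_one' := ?_, map_mul' := ?_ }, fun γ => ?_⟩
  · refine huniq _ _ fun i => ?_
    rw [← hφ 1 i, one_smul]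
    rfl
  · intro π ρ
    refine huniq _ _ fun i => ?_
    rw [mul_smul, ← hφ ρ i, ← hφ π (ρ.1 i), ← hφ (π * ρ) i]
    rfl
  · let t : Equiv.Perm (Fin n) :=
      f.trans (((MulAction.toPerm γ).prodCongr (Equiv.refl Bool)).trans f.symm)
    have ht : ∀ i, (f (t i)).1 = γ • (f i).1 := by
      intro i
      simp [t]
    have htG : t ∈ G := (hf t).2 ⟨γ, ht⟩
    refine ⟨⟨t, htG⟩, ?_⟩
    refine huniq _ _ fun i => ?_
    exact (hφ ⟨t, htG⟩ i).symm.trans (ht i)

end Pool.Agent.H44.MB
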