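import Pool.Agent.H44.MB.UpStep
import Pool.Agent.H44.MB.Sum2
import Pool.Agent.H44.MB.Orb
import Pool.Graph.R_pool_sql_team_seeded_3997aac3.Q248.ML.Base

/-!
# Steps for the iterated wreath products
-/

set_option autoImplicit false
set_option linter.unusedSectionVars false

open NumberField Filter Topology IntermediateField

namespace Pool.Agent.H44.MB

open Pool.Agent.TH444.ML (dsc dsc_eq Cnt HasGp Gal nf_of_fd card_quot one_le_dsc)
open Pool.Agent.NH85.ML (GalX HasG TTX img Good Upper IsWrP hasGp_of_equiv summable_of_upper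
  exists_act_of compDisc upper_of_summable galX_of_gal isWrP_deg)
open Pool.Agent.Q17.ML2 (GalS IsC2WrS)

/-- the criterion for towers with `j` factors -/
def FewP (j : ℕ) (Γ P : Type) [Group Γ] [MulAction Γ P] : Prop :=
  ∃ (r : ℕ) (U : Fin r → Subgroup Γ) (B : Fin r → Finset P),
    (⨅ i, (U i).normalCore = ⊥) ∧ (∀ i, (B i).Nonempty) ∧
    (∀ i, ∀ γ : Γ, (∀ x ∈ B i, γ • x = x) → γ ∈ U i) ∧
    4 * ∑ i, (U i).index ^ 2 * (B i).card < (2 ^ j + 1) * Nat.card P

theorem FewP.mono {j j' : ℕ} (hj : j ≤ j') {Γ P : Type} [Group Γ] [MulAction Γ P]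
    (h : FewP j Γ P) : FewP j' Γ P := by
  obtain ⟨r, U, B, h1, h2, h3, h4⟩ := h
  refine ⟨r, U, B, h1, h2, h3, h4.trans_le ?_⟩
  have h5 : (2 : ℕ) ^ j ≤ 2 ^ j' := Nat.pow_le_pow_right (by norm_num) hj
  exact Nat.mul_le_mul_right _ (by omega)

theorem few_imgE (K Ω : Type) [Field K] [NumberField K] [Field Ω] [Algebra K Ω] [IsAlgClosure K Ω]
    {Γ P : Type} [Group Γ] [Finite P] [MulAction Γ P] [FaithfulSMul Γ P] {r : ℕ}
    {U : Fin r → Subgroup Γ} {B : Fin r → Finset P} (h1 : ⨅ i, (U i).normalCore = ⊥)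
    (h2 : ∀ i, (B i).Nonempty) (h3 : ∀ i, ∀ γ : Γ, (∀ x ∈ B i, γ • x = x) → γ ∈ U i) {s : ℝ}
    (h4 : 2 * ∑ i, ((U i).index : ℝ) ^ 2 * (B i).card < s * Nat.card P) :
    Summable (fun M : GalX K Ω (img Γ P) => (dsc M.1) ^ (-s)) := by
  have hinj : Function.Injective (MulAction.toPermHom Γ P) := MulAction.toPerm_injective
  let e : Γ ≃* img Γ P := MonoidHom.ofInjective hinj
  have hidx : ∀ i, ((U i).map e.toMonoidHom).index = (U i).index := fun i =>
    Subgroup.index_map_equiv (U i) e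
  have hcore : ⨅ i, ((U i).map e.toMonoidHom).normalCore = ⊥ := by
    rw [eq_bot_iff]
    have h5 : (⨅ i, ((U i).map e.toMonoidHom).normalCore).comap e.toMonoidHom ≤
        ⨅ i, (U i).normalCore := by
      refine le_iInf fun i => ?_
      have h6 : (⨅ i, ((U i).map e.toMonoidHom).normalCore).comap e.toMonoidHom ≤
          ((U i).map e.toMonoidHom).normalCore.comap e.toMonoidHom :=
        Subgroup.comap_mono (iInf_le _ i)
      refine h6.trans ?_
      have hn : (((U i).map e.toMonoidHom).normalCore.comap e.toMonoidHom).Normal := inferInstance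
      rw [Subgroup.normal_le_normalCore]
      intro x hx
      have h7 := Subgroup.normalCore_le _ (Subgroup.mem_comap.1 hx)
      obtain ⟨y, hy, hxy⟩ := Subgroup.mem_map.1 h7
      rw [← e.injective hxy]
      exact hy
    rw [h1] at h5
    intro x hx
    obtain ⟨y, rfl⟩ := e.surjective x
    have h6 : y ∈ (⊥ : Subgroup Γ) := h5 (Subgroup.mem_comap.2 hx)
    rw [Subgroup.mem_bot] at h6
    rw [h6, map_one]
    exact Subgroup.one_mem _
  refine few_smallE compDisc Pool.Agent.TH979.J3100.hermiteRel K Ω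
    (U := fun i => (U i).map e.toMonoidHom) (B := B) ⟨hcore, h2, ?_, ?_⟩
  · rintro i ⟨_, ⟨γ, rfl⟩⟩ h
    exact ⟨γ, h3 i γ h, rfl⟩
  · simp only [hidx]
    exact h4

/-- few extensions with group `Γ`, acting on `P` -/
theorem good_few (K : Type) [Field K] [NumberField K] (Γ P : Type) [Group Γ] [Finite P]
    [Nonempty P] [MulAction Γ P] [FaithfulSMul Γ P] [MulAction.IsPretransitive Γ P] {i : ℕ}
    (h : FewP (i + 1) Γ P) (hne : (Gal K (AlgebraicClosure K) Γ).Nonempty) :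
    ∃ s : ℝ, 0 ≤ s ∧ s < 1 / 2 + 2 ^ i ∧ Good K (img Γ P) s := by
  obtain ⟨x₀⟩ := (inferInstance : Nonempty P)
  have hfinΓ : Finite Γ := Finite.of_injective _
    (MulAction.toPerm_injective : Function.Injective (MulAction.toPerm (α := Γ) (β := P)))
  obtain ⟨r, U, B, h1, h2, h3, h4⟩ := h
  have hP : (0 : ℝ) < Nat.card P := by exact_mod_cast (Nat.card_pos : 0 < Nat.card P)
  obtain ⟨S, hS⟩ : ∃ S : ℝ, S = ∑ i, ((U i).index : ℝ) ^ 2 * (B i).card := ⟨_, rfl⟩
  have hS0 : 0 ≤ S := by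
    rw [hS]
    exact Finset.sum_nonneg fun i _ => by positivity
  have h5 : 4 * S < (2 ^ (i + 1) + 1) * Nat.card P := by
    rw [hS]
    exact_mod_cast h4
  obtain ⟨s, hs⟩ : ∃ s : ℝ, s = (2 * S / Nat.card P + (1 / 2 + 2 ^ i)) / 2 := ⟨_, rfl⟩
  have h6 : 2 * S / Nat.card P < 1 / 2 + 2 ^ i := by
    rw [div_lt_iff₀ hP]
    rw [pow_succ] at h5
    nlinarith
  have h7 : 0 ≤ 2 * S / Nat.card P := by positivity
  have hs0 : 0 ≤ s := by
    rw [hs]
    positivity
  have hs1 : s < 1 / 2 + 2 ^ i := by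
    rw [hs]
    linarith
  have hs2 : 2 * S < s * Nat.card P := by
    rw [← div_lt_iff₀ hP, hs]
    linarith
  refine ⟨s, hs0, hs1, ?_, ?_⟩
  · obtain ⟨M, hM⟩ := hne
    exact galX_of_gal M hM x₀ (fun x => MulAction.exists_smul_eq Γ x₀ x)
  · refine upper_of_summable K _ _ hs0 ?_
    exact few_imgE K (AlgebraicClosure K) h1 h2 h3 (by rw [← hS]; exact hs2)

/-- the action of `Γ` on `P`, transported to `{1, ..., d}` -/
theorem good_act (K : Type) [Field K] [NumberField K] {Γ P : Type} [Group Γ] [MulAction Γ P]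
    {d : ℕ} {G : Subgroup (Equiv.Perm (Fin d))}
    (hG : ∃ f : Fin d ≃ P, ∀ π : Equiv.Perm (Fin d), π ∈ G ↔ ∃ γ : Γ, ∀ i, f (π i) = γ • f i)
    {A : ℝ} (h : Good K (img Γ P) A) : Good K G A := by
  obtain ⟨f, hf⟩ := hG
  have hiff : ∀ L : IntermediateField K (AlgebraicClosure K),
      HasG K (AlgebraicClosure K) G L ↔ HasG K (AlgebraicClosure K) (img Γ P) L := by
    intro L
    refine hasGp_of_equiv K f (img Γ P) (fun π => ?_) L
    rw [hf]
    constructor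
    · rintro ⟨γ, h1⟩
      refine ⟨γ, ?_⟩
      ext x
      rw [Equiv.permCongr_apply, h1, Equiv.apply_symm_apply]
      rfl
    · rintro ⟨γ, h1⟩
      refine ⟨γ, fun i => ?_⟩
      have h2 := congrArg (fun ρ : Equiv.Perm P => ρ (f i)) h1
      rw [Equiv.permCongr_apply, Equiv.symm_apply_apply] at h2
      exact h2.symm
  have hT : ∀ Z : ℝ, TTX K (AlgebraicClosure K) G Z = TTX K (AlgebraicClosure K) (img Γ P) Z := by
    intro Z
    ext L
    constructor
    · rintro ⟨⟨h1, h2⟩, h3⟩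
      exact ⟨⟨h1, (hiff L).1 h2⟩, h3⟩
    · rintro ⟨⟨h1, h2⟩, h3⟩
      exact ⟨⟨h1, (hiff L).2 h2⟩, h3⟩
  constructor
  · obtain ⟨M, h1, h2⟩ := h.ne
    exact ⟨M, h1, (hiff M).2 h2⟩
  · obtain ⟨C, hC0, hC⟩ := h.upper
    exact ⟨C, hC0, fun Z hZ => by rw [hT]; exact hC Z hZ⟩

/-- the exponents in a tower -/
theorem good_tower_step (K : Type) [Field K] [NumberField K] {m : ℕ}
    {H : Subgroup (Equiv.Perm (Fin m))} {d : ℕ} {G : Subgroup (Equiv.Perm (Fin d))}
    (hG : IsWrP H G) (c : ℝ) (i : ℕ)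
    (h : ∀ ε : ℝ, 0 < ε → Good K H (max 1 (1 / 2 + c / 2 ^ i) + ε)) (ε : ℝ) (hε : 0 < ε) :
    Good K G (max 1 (1 / 2 + c / 2 ^ (i + 1)) + ε) := by
  have h1 := good_stepE K hG (h ε hε) (2 / 5 * ε) (by positivity)
  refine good_mono h1 ?_
  have e : c / 2 ^ (i + 1) = c / 2 ^ i / 2 := by
    rw [pow_succ, div_div]
  rw [e]
  obtain ⟨y, hy⟩ : ∃ y : ℝ, y = c / 2 ^ i := ⟨_, rfl⟩
  rw [← hy]
  have h2 : max 1 (1 / 4 + (max 1 (1 / 2 + y) + ε) / 2) ≤ max 1 (1 / 2 + y / 2) + ε / 2 := by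
    refine max_le ?_ ?_
    · have := le_max_left 1 (1 / 2 + y / 2)
      linarith
    · have h3 : max 1 (1 / 2 + y) ≤ 2 * max 1 (1 / 2 + y / 2) - 1 / 2 := by
        refine max_le ?_ ?_
        · have := le_max_left 1 (1 / 2 + y / 2)
          linarith
        · have := le_max_right 1 (1 / 2 + y / 2)
          linarith
      linarith
  linarith

/-- the end of the tower -/
theorem good_tower_exp (c : ℝ) (i : ℕ) (hc : c < 2 ^ i) :
    ∃ ε : ℝ, 0 < ε ∧ max 1 (1 / 2 + c / 2 ^ i) + ε < 3 / 2 := by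
  have h1 : c / 2 ^ i < 1 := by
    rw [div_lt_one (by positivity)]
    exact hc
  have h2 : max 1 (1 / 2 + c / 2 ^ i) < 3 / 2 := max_lt (by norm_num) (by linarith)
  exact ⟨(3 / 2 - max 1 (1 / 2 + c / 2 ^ i)) / 2, by linarith, by linarith⟩

/-- transitivity passes to the wreath product -/
theorem trans_step {m : ℕ} {H : Subgroup (Equiv.Perm (Fin m))} {d : ℕ}
    {G : Subgroup (Equiv.Perm (Fin d))} (hG : IsWrP H G) (hH : ∀ x y : Fin m, ∃ h ∈ H, h x = y) :
    ∀ x y : Fin d, ∃ g ∈ G, g x = y := by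
  obtain ⟨f, hf⟩ := hG
  intro i j
  obtain ⟨h, hh, hij⟩ := hH (f i).1 (f j).1
  let t : Equiv.Perm (Fin m × Bool) := h.prodCongr (Equiv.swap (f i).2 (f j).2)
  refine ⟨f.trans (t.trans f.symm), (hf _).2 ⟨h, hh, fun x => ?_⟩, ?_⟩
  · simp [t]
  · change f.symm (t (f i)) = j
    rw [Equiv.symm_apply_eq]
    exact Prod.ext (by simp [t, hij]) (by simp [t])

/-- the wreath product exists -/
theorem exists_step {m : ℕ} (H : Subgroup (Equiv.Perm (Fin m))) :
    ∃ (d : ℕ) (G : Subgroup (Equiv.Perm (Fin d))), IsWrP H G := by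
  have hcard : Nat.card (Fin m × Bool) = 2 * m := by
    rw [Nat.card_prod, mul_comm]
    simp
  let f : Fin (2 * m) ≃ Fin m × Bool := (Finite.equivFinOfCardEq hcard).symm
  let e : Equiv.Perm (Fin (2 * m)) ≃* Equiv.Perm (Fin m × Bool) := f.permCongrHom
  refine ⟨2 * m, (Pool.Agent.NH85.ML.W2 H).comap e.toMonoidHom, f, fun π => ?_⟩
  rw [Subgroup.mem_comap]
  constructor
  · rintro ⟨h, hh, h1⟩
    refine ⟨h, hh, fun i => ?_⟩
    have h2 := h1 (f i)
    have h3 : e.toMonoidHom π (f i) = f (π i) := by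
      change f (π (f.symm (f i))) = _
      rw [Equiv.symm_apply_apply]
    rw [h3] at h2
    exact h2
  · rintro ⟨h, hh, h1⟩
    refine ⟨h, hh, fun x => ?_⟩
    have h3 : e.toMonoidHom π x = f (π (f.symm x)) := rfl
    rw [h3, h1, Equiv.apply_symm_apply]

/-- the action, transported to `{1, ..., d}`, exists -/
theorem exists_act' (Γ P : Type) [Group Γ] [MulAction Γ P] [Finite P] :
    ∃ (d : ℕ) (G : Subgroup (Equiv.Perm (Fin d))),
      ∃ f : Fin d ≃ P, ∀ π : Equiv.Perm (Fin d), π ∈ G ↔ ∃ γ : Γ, ∀ i, f (π i) = γ • f i := by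
  let f : Fin (Nat.card P) ≃ P := (Finite.equivFin P).symm
  let e : Equiv.Perm (Fin (Nat.card P)) ≃* Equiv.Perm P := f.permCongrHom
  refine ⟨Nat.card P, (img Γ P).comap e.toMonoidHom, f, fun π => ?_⟩
  rw [Subgroup.mem_comap]
  have h3 : ∀ x, e.toMonoidHom π x = f (π (f.symm x)) := fun x => rfl
  constructor
  · rintro ⟨γ, h1⟩
    refine ⟨γ, fun i => ?_⟩
    have h2 := congrArg (fun ρ : Equiv.Perm P => ρ (f i)) h1
    simp only [h3, Equiv.symm_apply_apply] at h2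
    exact h2.symm
  · rintro ⟨γ, h1⟩
    refine ⟨γ, ?_⟩
    ext x
    rw [h3, h1, Equiv.apply_symm_apply]
    rfl

/-- the transported action is transitive -/
theorem trans_act {Γ P : Type} [Group Γ] [MulAction Γ P] [MulAction.IsPretransitive Γ P] {d : ℕ}
    {G : Subgroup (Equiv.Perm (Fin d))}
    (hG : ∃ f : Fin d ≃ P, ∀ π : Equiv.Perm (Fin d), π ∈ G ↔ ∃ γ : Γ, ∀ i, f (π i) = γ • f i) :
    ∀ x y : Fin d, ∃ g ∈ G, g x = y := by
  obtain ⟨f, hf⟩ := hG
  intro x y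
  obtain ⟨γ, hγ⟩ := MulAction.exists_smul_eq Γ (f x) (f y)
  refine ⟨f.symm.permCongr (MulAction.toPerm γ), (hf _).2 ⟨γ, fun i => ?_⟩, ?_⟩
  · rw [Equiv.permCongr_apply, Equiv.symm_symm, Equiv.apply_symm_apply]
    rfl
  · rw [Equiv.permCongr_apply, Equiv.symm_symm, Equiv.symm_apply_eq]
    exact hγ

/-- the transported group maps onto `Γ` -/
theorem hom_act {Γ P : Type} [Group Γ] [MulAction Γ P] [FaithfulSMul Γ P] {d : ℕ}
    {G : Subgroup (Equiv.Perm (Fin d))}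
    (hG : ∃ f : Fin d ≃ P, ∀ π : Equiv.Perm (Fin d), π ∈ G ↔ ∃ γ : Γ, ∀ i, f (π i) = γ • f i) :
    ∃ φ : G →* Γ, Function.Surjective φ := by
  obtain ⟨f, hf⟩ := hG
  have h1 : ∀ π : G, ∃ γ : Γ, ∀ i, f (π.1 i) = γ • f i := fun π => (hf π.1).1 π.2
  choose φ hφ using h1
  have huniq : ∀ (γ δ : Γ), (∀ i, γ • f i = δ • f i) → γ = δ := by
    intro γ δ h
    refine eq_of_smul_eq_smul (α := P) fun x => ?_
    have h2 := h (f.symm x)
    rwa [Equiv.apply_symm_apply] at h2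
  refine ⟨{ toFun := φ, map_one' := ?_, map_mul' := ?_ }, fun γ => ?_⟩
  · refine huniq _ _ fun i => ?_
    rw [← hφ 1 i, one_smul]
    rfl
  · intro π ρ
    refine huniq _ _ fun i => ?_
    rw [mul_smul, ← hφ ρ i, ← hφ π (ρ.1 i), ← hφ (π * ρ) i]
    rfl
  · let t : Equiv.Perm (Fin d) := f.trans ((MulAction.toPerm γ).trans f.symm)
    have ht : ∀ i, f (t i) = γ • f i := by
      intro i
      simp [t]
    have htG : t ∈ G := (hf t).2 ⟨γ, ht⟩
    refine ⟨⟨t, htG⟩, ?_⟩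
    refine huniq _ _ fun i => ?_
    exact (hφ ⟨t, htG⟩ i).symm.trans (ht i)

/-- `C₂ ≀ H` maps onto `H` -/
theorem hom_step {m : ℕ} (hm : 0 < m) {H : Subgroup (Equiv.Perm (Fin m))}
    (hH : ∀ x y : Fin m, ∃ h ∈ H, h x = y) {d : ℕ} {G : Subgroup (Equiv.Perm (Fin d))}
    (hG : IsWrP H G) : ∃ φ : G →* H, Function.Surjective φ := by
  have htr : MulAction.IsPretransitive H (Fin m) := ⟨fun x y => by
    obtain ⟨h, hh, h1⟩ := hH x y
    exact ⟨⟨h, hh⟩, h1⟩⟩
  obtain ⟨W, hW, -, hWr⟩ := wr_data ℚ hm H htr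
  exact exists_hom hW (hWr d G hG)

theorem FewP.of_orbits {Γ P Q : Type} [Group Γ] [MulAction Γ P] [MulAction Γ Q] (j r : ℕ)
    (q : Fin r → Q) (B : Fin r → Finset P) (hBn : ∀ i, (B i).Nonempty)
    (hfix : ∀ i, ∀ γ : Γ, (∀ x ∈ B i, γ • x = x) → γ • q i = q i)
    (hf : ∀ γ : Γ, (∀ i, ∀ g : Γ, γ • g • q i = g • q i) → γ = 1) (u b : ℕ)
    (hu : ∀ i, (MulAction.orbit Γ (q i)).ncard ≤ u) (hb : ∀ i, (B i).card ≤ b)
    (hc : 4 * (r * (u ^ 2 * b)) < (2 ^ j + 1) * Nat.card P) : FewP j Γ P := by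
  refine ⟨r, fun i => MulAction.stabilizer Γ (q i), B, ?_, hBn, fun i γ h => ?_, ?_⟩
  · rw [eq_bot_iff]
    intro γ hγ
    rw [Subgroup.mem_iInf] at hγ
    rw [Subgroup.mem_bot]
    refine hf γ fun i g => ?_
    have h1 : g⁻¹ * γ * g ∈ MulAction.stabilizer Γ (q i) := by
      have := (Subgroup.normalCore_normal (MulAction.stabilizer Γ (q i))).conj_mem γ (hγ i) g⁻¹
      rw [inv_inv] at this
      exact Subgroup.normalCore_le _ this
    rwa [MulAction.mem_stabilizer_iff, mul_smul, mul_smul, inv_smul_eq_iff] at h1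
  · exact MulAction.mem_stabilizer_iff.2 (hfix i γ h)
  · refine lt_of_le_of_lt (Nat.mul_le_mul_left 4 ?_) hc
    calc ∑ i : Fin r, (MulAction.stabilizer Γ (q i)).index ^ 2 * (B i).card
        ≤ ∑ _i : Fin r, u ^ 2 * b := by
          refine Finset.sum_le_sum fun i _ => ?_
          have h1 : (MulAction.stabilizer Γ (q i)).index ≤ u := by
            rw [MulAction.index_stabilizer]
            exact hu i
          have h2 := hb i
          gcongr
      _ = r * (u ^ 2 * b) := by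
          rw [Finset.sum_const, Finset.card_univ, Fintype.card_fin, smul_eq_mul]

end Pool.Agent.H44.MB
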