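import Pool.Agent.H44.MB.Sum
import Pool.Graph.R_pool_sql_team_seeded_3dad9d7b.NH85.ML.WeakOut
import Pool.Graph.R_seed8.Y729.AE.Count

/-!
# The sum over the extensions with group `H`, general exponents

`e n` are exponents such that the number of extensions of degree `n` of a number field with discriminant
at most `X` is `O(X ^ e n)`. `H` is a group of permutations of the finite set `X`, `U i` subgroups of `H`
whose normal cores intersect trivially, and `B i ⊆ X` nonempty sets such that every element of `H` which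
fixes all points in `B i` is in `U i`. If `∑ e [H : U i] [H : U i] |B i| < s |X|`, the sum of
`dsc M ^ (-s)` over the extensions `M` of `K` with group `H` converges.
-/

set_option autoImplicit false
set_option linter.unusedSectionVars false

open NumberField Filter Topology IntermediateField

namespace Pool.Agent.H44.MB

open Pool.Agent.TH444.ML
open Pool.Agent.NH85.ML
open Pool.Agent.TH228.J3101 (nf)
open Pool.Agent.TH365.J3099 (act act_apply act_apply_apply ker_act)

open Pool.Agent.W301.Lin (FS)

/-- the exponents `e n` bound the number of extensions of degree `n` -/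
def BoundE (e : ℕ → ℝ) : Prop :=
  (∀ n, 0 ≤ e n) ∧ ∀ n : ℕ, 1 ≤ n → ∀ (K : Type) [Field K] [NumberField K], ∃ C : ℝ, ∀ X : ℝ, 1 ≤ X →
    (FS K n X).Finite ∧ ((FS K n X).ncard : ℝ) ≤ C * X ^ e n

theorem fs_eq (K : Type) [Field K] [NumberField K] {u : ℕ} (hu : 1 ≤ u) (Z : ℝ) :
    {F : IntermediateField K (AlgebraicClosure K) | FiniteDimensional K F ∧
      Module.finrank K F = u ∧ dsc F ≤ Z} = FS K u Z := by
  ext F
  constructor
  · rintro ⟨h1, h2, h3⟩
    have hnf : NumberField F := nf_of_fd F
    refine ⟨h2, hnf, ?_⟩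
    rw [dsc_eq F] at h3
    exact h3
  · rintro ⟨h1, h2, h3⟩
    have hfd : FiniteDimensional K F := FiniteDimensional.of_finrank_pos (by omega)
    refine ⟨hfd, h1, ?_⟩
    rw [dsc_eq F]
    exact h3

/-- the sum over the fields of degree `u` -/
lemma deg_sum3 {e : ℕ → ℝ} (he : BoundE e) (K : Type) [Field K] [NumberField K] {u : ℕ}
    (hu : 1 ≤ u) (t : ℝ) (ht : e u < t) :
    ∃ T : ℝ, 0 ≤ T ∧ ∀ s : Finset (IntermediateField K (AlgebraicClosure K)),
      (∀ F ∈ s, FiniteDimensional K F ∧ Module.finrank K F = u) →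
      ∑ F ∈ s, (dsc F) ^ (-t) ≤ T := by
  classical
  obtain ⟨C, hC⟩ := he.2 u hu K
  let ι : Type := {F : IntermediateField K (AlgebraicClosure K) //
    FiniteDimensional K F ∧ Module.finrank K F = u}
  have ht0 : 0 ≤ t := (he.1 u).trans ht.le
  have hsum : Summable (fun F : ι => (dsc F.1) ^ (-t)) := by
    refine summable_of_count (fun F : ι => dsc F.1) (fun F => one_le_dsc F.1) C (e u) t ?_ ht ht0
    intro Z hZ
    obtain ⟨h1, h2⟩ := hC Z hZ
    rw [← fs_eq K hu] at h1 h2
    have himg : (fun F : ι => F.1) '' {F | dsc F.1 ≤ Z} =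
        {F : IntermediateField K (AlgebraicClosure K) |
        FiniteDimensional K F ∧ Module.finrank K F = u ∧ dsc F ≤ Z} := by
      ext M
      constructor
      · rintro ⟨M', hM', rfl⟩
        exact ⟨M'.2.1, M'.2.2, hM'⟩
      · rintro ⟨h1, h2, h3⟩
        exact ⟨⟨M, h1, h2⟩, h3, rfl⟩
    have hinj : Function.Injective (fun F : ι => F.1) := Subtype.val_injective
    constructor
    · refine Set.Finite.of_finite_image (f := fun F : ι => F.1) ?_ hinj.injOn
      rw [himg]
      exact h1
    · rw [← himg, Set.ncard_image_of_injective _ hinj] at h2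
      exact h2
  have hnn : ∀ F : ι, 0 ≤ (dsc F.1) ^ (-t) := fun F =>
    Real.rpow_nonneg (by have := one_le_dsc F.1; linarith) _
  refine ⟨∑' F : ι, (dsc F.1) ^ (-t), tsum_nonneg hnn, fun s hs => ?_⟩
  let j : {x // x ∈ s} → ι := fun F => ⟨F.1, hs F.1 F.2⟩
  have hj : Function.Injective j := fun x y hxy =>
    Subtype.ext (congrArg (fun z : ι => z.1) hxy)
  have h5 := hsum.sum_le_tsum (s.attach.map ⟨j, hj⟩) (fun M _ => hnn M)
  rw [Finset.sum_map] at h5
  rw [← Finset.sum_attach]
  exact h5

section fin

variable {K Ω : Type} [Field K] [NumberField K] [Field Ω] [Algebra K Ω] [IsAlgClosure K Ω]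
  {X : Type} [Finite X] {H : Subgroup (Equiv.Perm X)} {e : ℕ → ℝ}

/-- The data for several subgroups. -/
structure Small3 (e : ℕ → ℝ) (H : Subgroup (Equiv.Perm X)) (r : ℕ) (U : Fin r → Subgroup H)
    (B : Fin r → Finset X) (s : ℝ) : Prop where
  core : ⨅ i, (U i).normalCore = ⊥
  ne : ∀ i, (B i).Nonempty
  fix : ∀ i, ∀ h : H, (∀ x ∈ B i, (h : Equiv.Perm X) x = x) → h ∈ U i
  card : ∑ i, e (U i).index * (U i).index * (B i).card < s * Nat.card X

lemma key_all3 (hc : CompDisc) (hE : ∀ n, 0 ≤ e n) {r : ℕ} {U : Fin r → Subgroup H} {B : Fin r → Finset X} {s : ℝ}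
    (hS : Small3 e H r U B s) (δ : ℝ) (hδ : 0 < δ)
    (hδs : ∑ i, (e (U i).index + δ) * ((B i).card * (U i).index) ≤ s * Nat.card X)
    (M : IntermediateField K Ω) (hM : M ∈ GalX K Ω H) :
    ∃ F : Fin r → IntermediateField K Ω, (∀ i, FiniteDimensional K (F i)) ∧
      (∀ i, Module.finrank K (F i) = (U i).index) ∧
      (⨆ i, normalClosure K (F i) Ω) = normalClosure K M Ω ∧
      ∏ i, (dsc (F i)) ^ (e (U i).index + δ) ≤ (dsc M) ^ s := by
  have i1 : IsAlgClosed Ω := IsAlgClosure.isAlgClosed K
  have i2 : Normal K Ω := IsAlgClosure.normal K Ω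
  have i5 : IsGalois K Ω := few_gal K Ω
  obtain ⟨hfd, em, hem⟩ := hM
  have hD : Module.finrank K M = Nat.card X := by
    rw [← Nat.card_congr em, Nat.card_eq_fintype_card, AlgHom.card]
  have key := fun i => key_one hc M em hem (U i) (B i) (hS.fix i) (hS.ne i)
  choose F h1 h2 h3 h4 h5 using key
  have hs : Function.Surjective (fewHom em hem) := fewHom_surj em hem
  refine ⟨F, h1, h2, ?_, ?_⟩
  · apply le_antisymm
    · exact iSup_le fun i => normalClosure_le_iff_of_normal.2 (h4 i)
    · set S : IntermediateField K Ω := ⨆ i, normalClosure K (F i) Ω with hSdef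
      have hfix : S.fixingSubgroup ≤ (normalClosure K M Ω).fixingSubgroup := by
        rw [← fewHom_ker em hem]
        have h6 : S.fixingSubgroup.map (fewHom em hem) ≤ ⨅ i, (U i).normalCore := by
          refine le_iInf fun i => ?_
          set NF := normalClosure K (F i) Ω with hNF
          have h7 : S.fixingSubgroup ≤ NF.fixingSubgroup :=
            IntermediateField.fixingSubgroup_le (le_iSup (fun i => normalClosure K (F i) Ω) i)
          have h8 : NF.fixingSubgroup ≤ (U i).comap (fewHom em hem) := by
            rw [← h3 i]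
            exact IntermediateField.fixingSubgroup_le (le_normalClosure (F i))
          have hn : NF.fixingSubgroup.Normal := by
            have : Normal K NF := inferInstance
            have hg : IsGalois K NF := ⟨⟩
            exact InfiniteGalois.normal_iff_isGalois NF |>.2 hg
          have hn2 : (NF.fixingSubgroup.map (fewHom em hem)).Normal := Subgroup.Normal.map hn _ hs
          refine (Subgroup.map_mono h7).trans ?_
          rw [Subgroup.normal_le_normalCore, Subgroup.map_le_iff_le_comap]
          exact h8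
        rw [hS.core, le_bot_iff, Subgroup.map_eq_bot_iff] at h6
        exact h6
      rw [← InfiniteGalois.fixedField_fixingSubgroup (normalClosure K M Ω),
        ← InfiniteGalois.fixedField_fixingSubgroup S]
      exact IntermediateField.fixedField_antitone hfix
  · have hX : 0 < Module.finrank K M := Module.finrank_pos
    have hXr : (0 : ℝ) < Module.finrank K M := by exact_mod_cast hX
    have hM1 : 1 ≤ dsc M := one_le_dsc M
    have hM0 : 0 < dsc M := by linarith
    have hone : ∀ i, (dsc (F i)) ^ (e (U i).index + δ) ≤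
        (dsc M) ^ ((e (U i).index + δ) * ((B i).card * (U i).index) /
          Module.finrank K M) := by
      intro i
      have hF1 : 1 ≤ dsc (F i) := one_le_dsc (F i)
      have hF0 : 0 < dsc (F i) := by linarith
      have h6 : (dsc (F i)) ^ (Module.finrank K M : ℝ) ≤
          (dsc M) ^ (((B i).card * (U i).index : ℕ) : ℝ) := by
        rw [Real.rpow_natCast, Real.rpow_natCast, dsc_dnF, dsc_dnF]
        exact_mod_cast h5 i
      have hE' := hE (U i).index
      have hpos : 0 ≤ (e (U i).index + δ) / Module.finrank K M := by positivity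
      have h7 := Real.rpow_le_rpow (by positivity) h6 hpos
      rw [← Real.rpow_mul hF0.le, ← Real.rpow_mul hM0.le] at h7
      have e1 : (Module.finrank K M : ℝ) * ((e (U i).index + δ) / Module.finrank K M) =
          e (U i).index + δ := by
        field_simp
      have e2 : (((B i).card * (U i).index : ℕ) : ℝ) *
          ((e (U i).index + δ) / Module.finrank K M) =
          (e (U i).index + δ) * ((B i).card * (U i).index) / Module.finrank K M := by
        push_cast
        ring
      rw [e1, e2] at h7
      exact h7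
    calc ∏ i, (dsc (F i)) ^ (e (U i).index + δ)
        ≤ ∏ i, (dsc M) ^ ((e (U i).index + δ) * ((B i).card * (U i).index) /
          Module.finrank K M) :=
          Finset.prod_le_prod (fun i _ => Real.rpow_nonneg
            (by have := one_le_dsc (F i); linarith) _) fun i _ => hone i
      _ = (dsc M) ^ ((∑ i, (e (U i).index + δ) * ((B i).card * (U i).index)) /
          Module.finrank K M) := by
          rw [← Real.rpow_sum_of_pos hM0, Finset.sum_div]
      _ ≤ (dsc M) ^ s := by
          refine Real.rpow_le_rpow_of_exponent_le hM1 ?_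
          rw [div_le_iff₀ hXr, hD]
          exact hδs

/-- **Few extensions with group `H`.** -/
theorem few_small3 (hc : CompDisc) {e : ℕ → ℝ} (he : BoundE e) (K : Type) [Field K]
    [NumberField K] {X : Type} [Finite X] {H : Subgroup (Equiv.Perm X)} {r : ℕ} {U : Fin r → Subgroup H} {B : Fin r → Finset X}
    {s : ℝ} (hS : Small3 e H r U B s) :
    Summable (fun M : GalX K (AlgebraicClosure K) H => (dsc M.1) ^ (-s)) := by
  classical
  have hgal := few_gal K (AlgebraicClosure K)
  -- the choice of `δ`
  obtain ⟨S1, hS1⟩ : ∃ S1 : ℝ, S1 = ∑ i, e (U i).index * (U i).index * (B i).card := ⟨_, rfl⟩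
  obtain ⟨S2, hS2⟩ : ∃ S2 : ℝ, S2 = ∑ i, ((B i).card : ℝ) * (U i).index := ⟨_, rfl⟩
  have hS20 : 0 ≤ S2 := by
    rw [hS2]
    exact Finset.sum_nonneg fun i _ => by positivity
  have hgap : 0 < s * Nat.card X - S1 := by
    have := hS.card
    rw [← hS1] at this
    linarith
  obtain ⟨δ, hδdef⟩ : ∃ δ : ℝ, δ = (s * Nat.card X - S1) / (S2 + 1) := ⟨_, rfl⟩
  have hδ : 0 < δ := by rw [hδdef]; positivity
  have hδs : ∑ i, (e (U i).index + δ) * ((B i).card * (U i).index) ≤ s * Nat.card X := by
    have ee : ∑ i, (e (U i).index + δ) * ((B i).card * (U i).index) = S1 + δ * S2 := by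
      rw [hS1, hS2, Finset.mul_sum, ← Finset.sum_add_distrib]
      refine Finset.sum_congr rfl fun i _ => ?_
      ring
    rw [ee]
    have h1 : δ * (S2 + 1) = s * Nat.card X - S1 := by
      rw [hδdef]
      field_simp
    nlinarith
  have key := fun M : GalX K (AlgebraicClosure K) H => key_all3 hc he.1 hS δ hδ hδs M.1 M.2
  choose F hfd hfr hN hdsc using key
  have hT := fun i : Fin r => deg_sum3 he K (u := (U i).index)
    (Nat.one_le_iff_ne_zero.2 Subgroup.index_ne_zero_of_finite) (e (U i).index + δ) (by linarith)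
  choose T hT0 hT using hT
  have hbound : ∀ M : GalX K (AlgebraicClosure K) H, (dsc M.1) ^ (-s) ≤
      ∏ i, (dsc (F M i)) ^ (-(e (U i).index + δ)) := by
    intro M
    have h1 : ∀ i, (1 : ℝ) ≤ dsc (F M i) := fun i => one_le_dsc (F M i)
    have h0 : 0 < ∏ i, (dsc (F M i)) ^ (e (U i).index + δ) :=
      Finset.prod_pos fun i _ => Real.rpow_pos_of_pos (lt_of_lt_of_le one_pos (h1 i)) _
    have hM0 : 0 < dsc M.1 := lt_of_lt_of_le one_pos (one_le_dsc M.1)
    have e1 : ∏ i, (dsc (F M i)) ^ (-(e (U i).index + δ)) =
        (∏ i, (dsc (F M i)) ^ (e (U i).index + δ))⁻¹ := by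
      rw [← Finset.prod_inv_distrib]
      refine Finset.prod_congr rfl fun i _ => ?_
      exact Real.rpow_neg (by have := h1 i; linarith) _
    rw [e1, Real.rpow_neg hM0.le]
    exact inv_anti₀ h0 (hdsc M)
  set cH : ℕ := Nat.card (Subgroup H) with hcH
  have hfib : ∀ (s : Finset (GalX K (AlgebraicClosure K) H)) (F0 : Fin r → IntermediateField K (AlgebraicClosure K)),
      (∀ M ∈ s, F M = F0) → s.card ≤ cH := by
    intro s F0 hs
    rcases s.eq_empty_or_nonempty with h0 | ⟨M0, hM0⟩
    · rw [h0, Finset.card_empty]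
      exact Nat.zero_le _
    · obtain ⟨hfd0, e0, he0⟩ := M0.2
      obtain ⟨g0⟩ := few_iso e0 he0
      have h1 := few_fib (normalClosure K M0.1 (AlgebraicClosure K)) g0 (s.map ⟨Subtype.val, Subtype.val_injective⟩)
        (fun M' hM' => by
          rw [Finset.mem_map] at hM'
          obtain ⟨M, hM, rfl⟩ := hM'
          change M.1 ≤ _
          have h2 : normalClosure K M.1 (AlgebraicClosure K) = normalClosure K M0.1 (AlgebraicClosure K) := by
            rw [← hN M, ← hN M0, hs M hM, hs M0 hM0]
          rw [← h2]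
          exact le_normalClosure M.1)
      rwa [Finset.card_map] at h1
  have hf1 : ∀ (i : Fin r) (F' : IntermediateField K (AlgebraicClosure K)),
      0 ≤ (dsc F') ^ (-(e (U i).index + δ)) := fun i F' =>
    Real.rpow_nonneg (by have := one_le_dsc F'; linarith) _
  have hf0 : ∀ G : Fin r → IntermediateField K (AlgebraicClosure K),
      0 ≤ ∏ i, (dsc (G i)) ^ (-(e (U i).index + δ)) := fun G =>
    Finset.prod_nonneg fun i _ => hf1 i (G i)
  refine Summable.of_nonneg_of_le (fun M => ?_) hbound ?_
  · exact Real.rpow_nonneg (by have := one_le_dsc M.1; linarith) _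
  refine summable_of_sum_le (c := cH * ∏ i, T i) (fun M => hf0 (F M)) ?_
  intro s
  calc ∑ M ∈ s, ∏ i, (dsc (F M i)) ^ (-(e (U i).index + δ))
      = ∑ G ∈ s.image F, ∑ M ∈ s with F M = G,
          ∏ i, (dsc (F M i)) ^ (-(e (U i).index + δ)) :=
        (Finset.sum_fiberwise_of_maps_to (fun M hM => Finset.mem_image_of_mem F hM) _).symm
    _ ≤ ∑ G ∈ s.image F, cH * ∏ i, (dsc (G i)) ^ (-(e (U i).index + δ)) := by
        refine Finset.sum_le_sum fun G _ => ?_
        rw [Finset.sum_congr rfl (g := fun _ => ∏ i, (dsc (G i)) ^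
          (-(e (U i).index + δ))), Finset.sum_const, nsmul_eq_mul]
        · refine mul_le_mul_of_nonneg_right ?_ (hf0 G)
          exact_mod_cast hfib _ G fun M hM => (Finset.mem_filter.1 hM).2
        · intro M hM
          rw [(Finset.mem_filter.1 hM).2]
    _ = cH * ∑ G ∈ s.image F, ∏ i, (dsc (G i)) ^ (-(e (U i).index + δ)) := by
        rw [Finset.mul_sum]
    _ ≤ cH * ∏ i, T i := by
        refine mul_le_mul_of_nonneg_left ?_ (Nat.cast_nonneg _)
        calc ∑ G ∈ s.image F, ∏ i, (dsc (G i)) ^ (-(e (U i).index + δ))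
            ≤ ∑ G ∈ Fintype.piFinset fun i => s.image fun M => F M i,
                ∏ i, (dsc (G i)) ^ (-(e (U i).index + δ)) := by
              refine Finset.sum_le_sum_of_subset_of_nonneg ?_ fun G _ _ => hf0 G
              intro G hG
              obtain ⟨M, hM, rfl⟩ := Finset.mem_image.1 hG
              rw [Fintype.mem_piFinset]
              exact fun i => Finset.mem_image_of_mem (fun M => F M i) hM
          _ = ∏ i, ∑ F' ∈ s.image fun M => F M i,
                (dsc F') ^ (-(e (U i).index + δ)) :=
              (Finset.prod_univ_sum (fun i => s.image fun M => F M i)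
                (fun i (F' : IntermediateField K (AlgebraicClosure K)) =>
                  (dsc F') ^ (-(e (U i).index + δ)))).symm
          _ ≤ ∏ i, T i := by
              refine Finset.prod_le_prod (fun i _ => Finset.sum_nonneg fun F' _ => hf1 i F')
                fun i _ => hT i _ fun F' hF' => ?_
              obtain ⟨M, hM, rfl⟩ := Finset.mem_image.1 hF'
              exact ⟨hfd M i, hfr M i⟩

end fin

end Pool.Agent.H44.MB
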