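import Pool.Agent.H44.MB.Iter
import Pool.Agent.H44.MB.Sum3

/-!
# The criterion with general exponents
-/

set_option autoImplicit false
set_option linter.unusedSectionVars false

open NumberField Filter Topology IntermediateField

namespace Pool.Agent.H44.MB

open Pool.Agent.TH444.ML (dsc dsc_eq Cnt HasGp Gal nf_of_fd card_quot one_le_dsc)
open Pool.Agent.NH85.ML (GalX HasG TTX img Good Upper IsWrP hasGp_of_equiv summable_of_upper
  exists_act_of compDisc upper_of_summable galX_of_gal isWrP_deg)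
open Pool.Agent.Q17.ML2 (GalS IsC2WrS)

/-- the condition: the number of extensions with group `Γ`, acting on `P`, is `O(X ^ (a + ε))` -/
def FewA (e : ℕ → ℝ) (a : ℝ) (Γ P : Type) [Group Γ] [MulAction Γ P] : Prop :=
  ∃ (r : ℕ) (U : Fin r → Subgroup Γ) (B : Fin r → Finset P),
    (⨅ i, (U i).normalCore = ⊥) ∧ (∀ i, (B i).Nonempty) ∧
    (∀ i, ∀ γ : Γ, (∀ x ∈ B i, γ • x = x) → γ ∈ U i) ∧
    ∑ i, e (U i).index * (U i).index * (B i).card < a * Nat.card P

theorem FewA.mono {e : ℕ → ℝ} {a a' : ℝ} (ha : a ≤ a') {Γ P : Type} [Group Γ] [MulAction Γ P]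
    (h : FewA e a Γ P) : FewA e a' Γ P := by
  obtain ⟨r, U, B, h1, h2, h3, h4⟩ := h
  exact ⟨r, U, B, h1, h2, h3, h4.trans_le (mul_le_mul_of_nonneg_right ha (Nat.cast_nonneg _))⟩

theorem few_img3 {e : ℕ → ℝ} (he : BoundE e) (K : Type) [Field K] [NumberField K]
    {Γ P : Type} [Group Γ] [Finite P] [MulAction Γ P] [FaithfulSMul Γ P] {r : ℕ}
    {U : Fin r → Subgroup Γ} {B : Fin r → Finset P} (h1 : ⨅ i, (U i).normalCore = ⊥)
    (h2 : ∀ i, (B i).Nonempty) (h3 : ∀ i, ∀ γ : Γ, (∀ x ∈ B i, γ • x = x) → γ ∈ U i) {s : ℝ}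
    (h4 : ∑ i, e (U i).index * (U i).index * (B i).card < s * Nat.card P) :
    Summable (fun M : GalX K (AlgebraicClosure K) (img Γ P) => (dsc M.1) ^ (-s)) := by
  have hinj : Function.Injective (MulAction.toPermHom Γ P) := MulAction.toPerm_injective
  let ee : Γ ≃* img Γ P := MonoidHom.ofInjective hinj
  have hidx : ∀ i, ((U i).map ee.toMonoidHom).index = (U i).index := fun i =>
    Subgroup.index_map_equiv (U i) ee
  have hcore : ⨅ i, ((U i).map ee.toMonoidHom).normalCore = ⊥ := by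
    rw [eq_bot_iff]
    have h5 : (⨅ i, ((U i).map ee.toMonoidHom).normalCore).comap ee.toMonoidHom ≤
        ⨅ i, (U i).normalCore := by
      refine le_iInf fun i => ?_
      have h6 : (⨅ i, ((U i).map ee.toMonoidHom).normalCore).comap ee.toMonoidHom ≤
          ((U i).map ee.toMonoidHom).normalCore.comap ee.toMonoidHom :=
        Subgroup.comap_mono (iInf_le _ i)
      refine h6.trans ?_
      have hn : (((U i).map ee.toMonoidHom).normalCore.comap ee.toMonoidHom).Normal :=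
        inferInstance
      rw [Subgroup.normal_le_normalCore]
      intro x hx
      have h7 := Subgroup.normalCore_le _ (Subgroup.mem_comap.1 hx)
      obtain ⟨y, hy, hxy⟩ := Subgroup.mem_map.1 h7
      rw [← ee.injective hxy]
      exact hy
    rw [h1] at h5
    intro x hx
    obtain ⟨y, rfl⟩ := ee.surjective x
    have h6 : y ∈ (⊥ : Subgroup Γ) := h5 (Subgroup.mem_comap.2 hx)
    rw [Subgroup.mem_bot] at h6
    rw [h6, map_one]
    exact Subgroup.one_mem _
  refine few_small3 compDisc he K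
    (U := fun i => (U i).map ee.toMonoidHom) (B := B) ⟨hcore, h2, ?_, ?_⟩
  · rintro i ⟨_, ⟨γ, rfl⟩⟩ h
    exact ⟨γ, h3 i γ h, rfl⟩
  · simp only [hidx]
    exact h4

/-- few extensions with group `Γ`, acting on `P` -/
theorem good_few3 {e : ℕ → ℝ} (he : BoundE e) (K : Type) [Field K] [NumberField K] (Γ P : Type)
    [Group Γ] [Finite P] [Nonempty P] [MulAction Γ P] [FaithfulSMul Γ P]
    [MulAction.IsPretransitive Γ P] {a : ℝ} (h : FewA e a Γ P)
    (hne : (Gal K (AlgebraicClosure K) Γ).Nonempty) :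
    ∃ s : ℝ, 0 ≤ s ∧ s < a ∧ Good K (img Γ P) s := by
  obtain ⟨x₀⟩ := (inferInstance : Nonempty P)
  have hfinΓ : Finite Γ := Finite.of_injective _
    (MulAction.toPerm_injective : Function.Injective (MulAction.toPerm (α := Γ) (β := P)))
  obtain ⟨r, U, B, h1, h2, h3, h4⟩ := h
  have hP : (0 : ℝ) < Nat.card P := by exact_mod_cast (Nat.card_pos : 0 < Nat.card P)
  obtain ⟨S, hS⟩ : ∃ S : ℝ, S = ∑ i, e (U i).index * (U i).index * (B i).card := ⟨_, rfl⟩
  have hS0 : 0 ≤ S := by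
    rw [hS]
    exact Finset.sum_nonneg fun i _ =>
      mul_nonneg (mul_nonneg (he.1 _) (Nat.cast_nonneg _)) (Nat.cast_nonneg _)
  rw [← hS] at h4
  obtain ⟨s, hs⟩ : ∃ s : ℝ, s = (S / Nat.card P + a) / 2 := ⟨_, rfl⟩
  have h6 : S / Nat.card P < a := by
    rw [div_lt_iff₀ hP]
    exact h4
  have h7 : 0 ≤ S / Nat.card P := by positivity
  have hs0 : 0 ≤ s := by
    rw [hs]
    linarith
  have hs1 : s < a := by
    rw [hs]
    linarith
  have hs2 : S < s * Nat.card P := by
    rw [← div_lt_iff₀ hP, hs]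
    linarith
  refine ⟨s, hs0, hs1, ?_, ?_⟩
  · obtain ⟨M, hM⟩ := hne
    exact galX_of_gal M hM x₀ (fun x => MulAction.exists_smul_eq Γ x₀ x)
  · refine upper_of_summable K _ _ hs0 ?_
    exact few_img3 he K h1 h2 h3 (by rw [← hS]; exact hs2)

theorem FewA.of_orbits {e : ℕ → ℝ} (he : ∀ n, 0 ≤ e n) {Γ P Q : Type} [Group Γ] [MulAction Γ P]
    [MulAction Γ Q] (a : ℝ) (r : ℕ) (q : Fin r → Q) (B : Fin r → Finset P)
    (hBn : ∀ i, (B i).Nonempty)
    (hfix : ∀ i, ∀ γ : Γ, (∀ x ∈ B i, γ • x = x) → γ • q i = q i)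
    (hf : ∀ γ : Γ, (∀ i, ∀ g : Γ, γ • g • q i = g • q i) → γ = 1) (u b : ℕ)
    (hu : ∀ i, (MulAction.orbit Γ (q i)).ncard = u) (hb : ∀ i, (B i).card ≤ b)
    (hc : r * (e u * u * b) < a * Nat.card P) : FewA e a Γ P := by
  refine ⟨r, fun i => MulAction.stabilizer Γ (q i), B, ?_, hBn, fun i γ h => ?_, ?_⟩
  · rw [eq_bot_iff]
    intro γ hγ
    rw [Subgroup.mem_iInf] at hγ
    rw [Subgroup.mem_bot]
    refine hf γ fun i g => ?_
    have h1 : g⁻¹ * γ * g ∈ MulAction.stabilizer Γ (q i) := by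
      have := (Subgroup.normalCore_normal (MulAction.stabilizer Γ (q i))).conj_mem γ (hγ i) g⁻¹
      rw [inv_inv] at this
      exact Subgroup.normalCore_le _ this
    rwa [MulAction.mem_stabilizer_iff, mul_smul, mul_smul, inv_smul_eq_iff] at h1
  · exact MulAction.mem_stabilizer_iff.2 (hfix i γ h)
  · refine lt_of_le_of_lt ?_ hc
    calc ∑ i : Fin r, e (MulAction.stabilizer Γ (q i)).index *
          (MulAction.stabilizer Γ (q i)).index * (B i).card
        ≤ ∑ _i : Fin r, e u * u * b := by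
          refine Finset.sum_le_sum fun i _ => ?_
          have h1 : (MulAction.stabilizer Γ (q i)).index = u := by
            rw [MulAction.index_stabilizer]
            exact hu i
          rw [h1]
          have h2 : ((B i).card : ℝ) ≤ b := by exact_mod_cast hb i
          exact mul_le_mul_of_nonneg_left h2 (mul_nonneg (he u) (Nat.cast_nonneg _))
      _ = r * (e u * u * b) := by
          rw [Finset.sum_const, Finset.card_univ, Fintype.card_fin, nsmul_eq_mul]

/-- one core-free subgroup and a base -/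
theorem few_base3 {e : ℕ → ℝ} {Γ P : Type} [Group Γ] [MulAction Γ P] (a : ℝ) (U : Subgroup Γ)
    (hU : U.normalCore = ⊥) (B : Finset P) (hB : ∀ γ : Γ, (∀ x ∈ B, γ • x = x) → γ ∈ U)
    (hBn : B.Nonempty) (hc : e U.index * U.index * B.card < a * Nat.card P) :
    FewA e a Γ P := by
  refine ⟨1, fun _ => U, fun _ => B, ?_, fun _ => hBn, fun _ γ h => hB γ h, ?_⟩
  · rw [ciInf_const]
    exact hU
  · rw [Fin.sum_univ_one]
    exact hc

/-- every transitive action -/
theorem few_point3 {e : ℕ → ℝ} (he : ∀ n, 0 ≤ e n) {Γ P : Type} [Group Γ] [MulAction Γ P]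
    [FaithfulSMul Γ P] [MulAction.IsPretransitive Γ P] [Finite P] [Nonempty P] (a : ℝ)
    (ha : e (Nat.card P) < a) : FewA e a Γ P := by
  obtain ⟨x₀⟩ := (inferInstance : Nonempty P)
  have hP : (0 : ℝ) < Nat.card P := by exact_mod_cast (Nat.card_pos : 0 < Nat.card P)
  refine FewA.of_orbits he (Q := P) a 1 (fun _ => x₀) (fun _ => {x₀}) (fun _ => ⟨x₀, by simp⟩)
    (fun _ γ h => h x₀ (by simp)) (fun γ h => ?_) (Nat.card P) 1 (fun _ => ?_)
    (fun _ => by simp) ?_
  · refine eq_of_smul_eq_smul (α := P) fun x => ?_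
    obtain ⟨g, rfl⟩ := MulAction.exists_smul_eq Γ x₀ x
    rw [one_smul]
    exact h 0 g
  · rw [MulAction.orbit_eq_univ, Set.ncard_univ]
  · have h1 : ((1 : ℕ) : ℝ) * (e (Nat.card P) * (Nat.card P : ℝ) * ((1 : ℕ) : ℝ)) =
        e (Nat.card P) * Nat.card P := by
      push_cast
      ring
    rw [h1]
    exact mul_lt_mul_of_pos_right ha hP

/-- the bound of Schmidt's type is less than `(n + 1) / 2` -/
theorem eS_lt {n : ℕ} (hn : 2 ≤ n) : Pool.Agent.W222.UABC.eS n < (n + 1) / 2 := by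
  unfold Pool.Agent.W222.UABC.eS
  have h1 : 2 ≤ n.minFac := (Nat.minFac_prime (by omega)).two_le
  have h2 : n / n.minFac ≤ n / 2 := Nat.div_le_div_left h1 (by norm_num)
  have h3 : n ≤ 2 * (n - n / n.minFac) := by omega
  have h4 : (n : ℝ) ≤ 2 * ((n - n / n.minFac : ℕ) : ℝ) := by exact_mod_cast h3
  have hn0 : (0 : ℝ) < n := by
    have : 0 < n := by omega
    exact_mod_cast this
  have h5 : (((n + 2) * (n - 1) : ℕ) : ℝ) = (n + 2) * (n - 1) := by
    push_cast [Nat.cast_sub (by omega : 1 ≤ n)]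
    ring
  rw [h5, div_lt_div_iff₀ (by nlinarith) (by norm_num)]
  nlinarith

end Pool.Agent.H44.MB
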