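import Pool.Agent.H44.MB.Bnd

/-!
# Minimal elements of an ideal relative to a given one
-/

set_option autoImplicit false
set_option linter.unusedSectionVars false

namespace Pool.Agent.H44.MB

open NumberField Module NumberField.InfinitePlace
open scoped NNReal ENNReal
open Pool.Agent.TH55.J3092

variable {M : Type} [Field M] [NumberField M]

theorem norm_le_of_tt' (z : M) (δ : InfinitePlace M → ℝ) (hδ : ∀ w, 0 ≤ δ w)
    (h : ∀ φ : M →+* ℂ, |tt φ z| ≤ δ (InfinitePlace.mk φ)) (φ : M →+* ℂ) :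
    ‖φ z‖ ≤ δ (InfinitePlace.mk φ) := by
  have h1 := h φ
  have h2 := h (ComplexEmbedding.conjugate φ)
  rw [InfinitePlace.mk_conjugate_eq] at h2
  have h3 : tt (ComplexEmbedding.conjugate φ) z = (φ z).re - (φ z).im := by
    unfold tt
    rw [ComplexEmbedding.conjugate_coe_eq, Complex.conj_re, Complex.conj_im]
    ring
  rw [h3] at h2
  have h4 : ‖φ z‖ ^ 2 ≤ (δ (InfinitePlace.mk φ)) ^ 2 := by
    rw [Complex.sq_norm, Complex.normSq_apply]
    unfold tt at h1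
    have h5 := sq_le_sq' (abs_le.mp h1).1 (abs_le.mp h1).2
    have h6 := sq_le_sq' (abs_le.mp h2).1 (abs_le.mp h2).2
    nlinarith
  exact le_of_sq_le_sq h4 (hδ _)

theorem pl_pos (w : InfinitePlace M) {x : 𝓞 M} (hx : x ≠ 0) : 0 < w (x : M) := by
  rw [InfinitePlace.pos_iff]
  exact fun h => hx (by exact_mod_cast h)

/-- `y` is a nonzero element of `𝔟` which is smallest relative to `x` -/
structure Mn (𝔟 : Ideal (𝓞 M)) (x y : 𝓞 M) (τ : ℝ) : Prop where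
  xm : x ∈ 𝔟
  x0 : x ≠ 0
  ym : y ∈ 𝔟
  y0 : y ≠ 0
  t0 : 0 < τ
  le : ∀ w : InfinitePlace M, w (y : M) ≤ τ * w (x : M)
  mn : ∀ z ∈ 𝔟, z ≠ 0 → ∃ w : InfinitePlace M, τ * w (x : M) ≤ w (z : M)

theorem finite_small (x : 𝓞 M) : {y : 𝓞 M | ∀ w : InfinitePlace M, w (y : M) ≤ w (x : M)}.Finite := by
  classical
  obtain ⟨B, hB⟩ : ∃ B : ℝ, ∀ w : InfinitePlace M, w (x : M) ≤ B :=
    ⟨∑ w : InfinitePlace M, w (x : M), fun w => Finset.single_le_sum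
      (f := fun w : InfinitePlace M => w (x : M)) (fun v _ => apply_nonneg v _)
      (Finset.mem_univ w)⟩
  have h1 := NumberField.Embeddings.finite_of_norm_le M ℂ B
  refine Set.Finite.of_finite_image (f := fun y : 𝓞 M => (y : M)) (h1.subset ?_)
    (fun a _ b _ h => RingOfIntegers.ext h)
  rintro _ ⟨y, hy, rfl⟩
  refine ⟨y.isIntegral_coe, fun φ => ?_⟩
  have := (hy (InfinitePlace.mk φ)).trans (hB _)
  rwa [InfinitePlace.apply] at this

theorem exists_mn (𝔟 : Ideal (𝓞 M)) {x : 𝓞 M} (hx : x ∈ 𝔟) (hx0 : x ≠ 0) :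
    ∃ (y : 𝓞 M) (τ : ℝ), Mn 𝔟 x y τ := by
  classical
  set A : Set (𝓞 M) := {y | y ∈ 𝔟 ∧ y ≠ 0 ∧ ∀ w : InfinitePlace M, w (y : M) ≤ w (x : M)} with hA
  have hAf : A.Finite := (finite_small x).subset fun y hy => hy.2.2
  have hAn : A.Nonempty := ⟨x, hx, hx0, fun w => le_rfl⟩
  have hne : (Finset.univ : Finset (InfinitePlace M)).Nonempty := Finset.univ_nonempty
  let ρ : 𝓞 M → ℝ := fun y => Finset.univ.sup' hne fun w : InfinitePlace M =>
    w (y : M) / w (x : M)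
  obtain ⟨y, hy, hmin⟩ := Set.exists_min_image A ρ hAf hAn
  have hle : ∀ w : InfinitePlace M, w (y : M) / w (x : M) ≤ ρ y := fun w =>
    Finset.le_sup' (fun w : InfinitePlace M => w (y : M) / w (x : M)) (Finset.mem_univ w)
  have hτ1 : ρ y ≤ 1 := Finset.sup'_le hne _ fun w _ => by
    rw [div_le_one (pl_pos w hx0)]
    exact hy.2.2 w
  have hτ0 : 0 < ρ y := by
    obtain ⟨w⟩ : Nonempty (InfinitePlace M) := inferInstance
    exact (div_pos (pl_pos w hy.2.1) (pl_pos w hx0)).trans_le (hle w)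
  refine ⟨y, ρ y, hx, hx0, hy.1, hy.2.1, hτ0, fun w => ?_, fun z hz hz0 => ?_⟩
  · have := hle w
    rwa [div_le_iff₀ (pl_pos w hx0)] at this
  · by_contra hcon
    push Not at hcon
    have hzA : z ∈ A := by
      refine ⟨hz, hz0, fun w => (hcon w).le.trans ?_⟩
      have := pl_pos w hx0
      nlinarith
    have h1 := hmin z hzA
    have h2 : ρ z < ρ y := by
      rw [Finset.sup'_lt_iff]
      intro w _
      rw [div_lt_iff₀ (pl_pos w hx0)]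
      exact hcon w
    linarith

theorem Mn.unit {𝔟 : Ideal (𝓞 M)} {x y : 𝓞 M} {τ : ℝ} (h : Mn 𝔟 x y τ) (u : (𝓞 M)ˣ) :
    Mn 𝔟 (x * u) (y * u) τ := by
  have hu : ∀ w : InfinitePlace M, 0 < w (((u : 𝓞 M)) : M) := fun w => pl_pos w u.ne_zero
  have hw : ∀ (w : InfinitePlace M) (a b : 𝓞 M), w ((a * b : 𝓞 M) : M) = w (a : M) * w (b : M) := by
    intro w a b
    rw [← map_mul]
    congr 1
  refine ⟨Ideal.mul_mem_right _ _ h.xm, mul_ne_zero h.x0 u.ne_zero, Ideal.mul_mem_right _ _ h.ym,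
    mul_ne_zero h.y0 u.ne_zero, h.t0, fun w => ?_, fun z hz hz0 => ?_⟩
  · rw [hw, hw, ← mul_assoc]
    exact mul_le_mul_of_nonneg_right (h.le w) (hu w).le
  · obtain ⟨w, h1⟩ := h.mn (z * (u⁻¹ : (𝓞 M)ˣ)) (Ideal.mul_mem_right _ _ hz)
      (mul_ne_zero hz0 (u⁻¹ : (𝓞 M)ˣ).ne_zero)
    refine ⟨w, ?_⟩
    have h2 : w (z : M) = w ((z * (u⁻¹ : (𝓞 M)ˣ) : 𝓞 M) : M) * w ((u : 𝓞 M) : M) := by
      rw [← hw, mul_assoc, Units.inv_mul, mul_one]
    rw [hw, ← mul_assoc, h2]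
    exact mul_le_mul_of_nonneg_right h1 (hu w).le

theorem prod_const (c : ℝ) (x : 𝓞 M) : ∏ w : InfinitePlace M, (c * w (x : M)) ^ mult w =
    c ^ finrank ℚ M * (Ideal.absNorm (Ideal.span {x}) : ℝ) := by
  simp only [mul_pow]
  rw [Finset.prod_mul_distrib, prod_places, Finset.prod_pow_eq_pow_sum, sum_mult_eq]

theorem Mn.norm_le {𝔟 : Ideal (𝓞 M)} (h𝔟 : 𝔟 ≠ ⊥) {x y : 𝓞 M} {τ : ℝ} (h : Mn 𝔟 x y τ) (C2 : ℝ)
    (hC2 : 2 ^ (finrank ℚ M) * Real.sqrt ((|discr M| : ℤ) : ℝ) < C2) :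
    τ ^ finrank ℚ M * (Ideal.absNorm (Ideal.span {x}) : ℝ) ≤ C2 * Ideal.absNorm 𝔟 := by
  by_contra hcon
  push Not at hcon
  have hb : 0 < (Ideal.absNorm 𝔟 : ℝ) := by
    have : Ideal.absNorm 𝔟 ≠ 0 := by
      rw [Ne, Ideal.absNorm_eq_zero_iff]; exact h𝔟
    exact_mod_cast Nat.pos_of_ne_zero this
  have e0 : ∀ w : InfinitePlace M, ((Real.toNNReal (τ * w (x : M)) : ℝ≥0) : ℝ) = τ * w (x : M) :=
    fun w => Real.coe_toNNReal _ (mul_pos h.t0 (pl_pos w h.x0)).le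
  obtain ⟨a, ha, ha0, haw⟩ := mink_ideal M 𝔟 h𝔟 (fun w => Real.toNNReal (τ * w (x : M))) (by
      simp only [e0]
      rw [prod_const]
      refine lt_trans ?_ hcon
      exact mul_lt_mul_of_pos_right hC2 hb)
  obtain ⟨w, hw⟩ := h.mn a ha ha0
  have h2 := haw w
  rw [e0] at h2
  linarith

theorem Mn.inv_le {𝔟 : Ideal (𝓞 M)} {x y : 𝓞 M} {τ : ℝ} (h : Mn 𝔟 x y τ) :
    (Ideal.absNorm (Ideal.span {y}) : ℝ) ≤ τ ^ finrank ℚ M *
      (Ideal.absNorm (Ideal.span {x}) : ℝ) := by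
  rw [← prod_const, ← prod_places]
  exact Finset.prod_le_prod (fun w _ => pow_nonneg (apply_nonneg _ _) _) fun w _ =>
    pow_le_pow_left₀ (apply_nonneg _ _) (h.le w) _

theorem norm_ge {𝔟 : Ideal (𝓞 M)} {y : 𝓞 M} (hy : y ∈ 𝔟) (hy0 : y ≠ 0) :
    (Ideal.absNorm 𝔟 : ℝ) ≤ (Ideal.absNorm (Ideal.span {y}) : ℝ) := by
  have h5 : Ideal.absNorm 𝔟 ∣ Ideal.absNorm (Ideal.span {y}) := by
    apply Ideal.absNorm_dvd_absNorm_of_le
    rw [Ideal.span_singleton_le_iff_mem]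
    exact hy
  have h6 : 0 < (Ideal.absNorm (Ideal.span {y}) : ℝ) := absNorm_pos' M hy0
  exact_mod_cast Nat.le_of_dvd (by exact_mod_cast h6) h5

/-- the ratios are bounded -/
theorem Mn.ratio_le {𝔟 : Ideal (𝓞 M)} (h𝔟 : 𝔟 ≠ ⊥) {x y : 𝓞 M} {τ : ℝ} (h : Mn 𝔟 x y τ) (C2 : ℝ)
    (hC2 : 2 ^ (finrank ℚ M) * Real.sqrt ((|discr M| : ℤ) : ℝ) < C2) (w : InfinitePlace M) :
    1 ≤ τ * w (x : M) / w (y : M) ∧ τ * w (x : M) / w (y : M) ≤ C2 := by
  classical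
  have hb : 0 < (Ideal.absNorm 𝔟 : ℝ) := by
    have : Ideal.absNorm 𝔟 ≠ 0 := by
      rw [Ne, Ideal.absNorm_eq_zero_iff]; exact h𝔟
    exact_mod_cast Nat.pos_of_ne_zero this
  set θ : InfinitePlace M → ℝ := fun w => τ * w (x : M) / w (y : M) with hθ
  have h1 : ∀ w, 1 ≤ θ w := fun w => by
    rw [hθ]
    change 1 ≤ τ * w (x : M) / w (y : M)
    rw [one_le_div (pl_pos w h.y0)]
    exact h.le w
  refine ⟨h1 w, ?_⟩
  have h2 : ∏ w, θ w ^ mult w = τ ^ finrank ℚ M * (Ideal.absNorm (Ideal.span {x}) : ℝ) /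
      (Ideal.absNorm (Ideal.span {y}) : ℝ) := by
    simp only [hθ, div_pow]
    rw [Finset.prod_div_distrib, prod_const, prod_places]
  have h3 : ∏ w, θ w ^ mult w ≤ C2 := by
    rw [h2, div_le_iff₀ (absNorm_pos' M h.y0)]
    have hC0 : 0 ≤ C2 := le_trans (by positivity) hC2.le
    exact (h.norm_le h𝔟 C2 hC2).trans (mul_le_mul_of_nonneg_left (norm_ge h.ym h.y0) hC0)
  calc θ w = θ w ^ 1 := (pow_one _).symm
    _ ≤ θ w ^ mult w := pow_le_pow_right₀ (h1 w) mult_pos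
    _ ≤ ∏ w, θ w ^ mult w := by
        rw [← Finset.mul_prod_erase Finset.univ _ (Finset.mem_univ w)]
        have h4 : 1 ≤ ∏ v ∈ Finset.univ.erase w, θ v ^ mult v := by
          exact Finset.prod_induction _ (fun t : ℝ => 1 ≤ t)
            (fun a b ha hb => one_le_mul_of_one_le_of_one_le ha hb) le_rfl
            (fun v _ => one_le_pow₀ (h1 v))
        have h5 : 0 ≤ θ w ^ mult w := pow_nonneg (zero_le_one.trans (h1 w)) _
        nlinarith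
    _ ≤ C2 := h3

end Pool.Agent.H44.MB
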