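import Pool.Agent.H44.MB.Orb

/-!
# Wreath products in product action
-/

set_option autoImplicit false

open scoped Pointwise

namespace Pool.Agent.H44.MB

section

variable (A Ω : Type) [Group A] [MulAction A Ω] (m : ℕ) (T : Subgroup (Equiv.Perm (Fin m)))

/-- the group of the permutations `x ↦ (i ↦ a i • x (σ⁻¹ i))` of `Ω ^ m`, `a i ∈ A`, `σ ∈ T` -/
def prd : Subgroup (Equiv.Perm (Fin m → Ω)) where
  carrier := {π | ∃ a : Fin m → A, ∃ σ ∈ T, ∀ x i, π x i = a i • x (σ⁻¹ i)}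
  one_mem' := ⟨1, 1, T.one_mem, fun x i => by simp⟩
  mul_mem' := by
    rintro π ρ ⟨a, σ, hσ, h1⟩ ⟨b, τ, hτ, h2⟩
    refine ⟨fun i => a i * b (σ⁻¹ i), σ * τ, T.mul_mem hσ hτ, fun x i => ?_⟩
    rw [Equiv.Perm.mul_apply, h1, h2, mul_smul, mul_inv_rev, Equiv.Perm.mul_apply]
  inv_mem' := by
    rintro π ⟨a, σ, hσ, h1⟩
    refine ⟨fun i => (a (σ i))⁻¹, σ⁻¹, T.inv_mem hσ, fun y i => ?_⟩
    have h2 := h1 (π⁻¹ y) (σ i)
    rw [show π (π⁻¹ y) = y from π.apply_symm_apply y, show σ⁻¹ (σ i) = i from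
      σ.symm_apply_apply i] at h2
    rw [inv_inv]
    change π⁻¹ y i = (a (σ i))⁻¹ • y (σ i)
    rw [h2, inv_smul_smul]

/-- the element given by `a` and `σ` -/
def prdMk {σ : Equiv.Perm (Fin m)} (hσ : σ ∈ T) (a : Fin m → A) : prd A Ω m T :=
  ⟨{ toFun := fun x i => a i • x (σ⁻¹ i)
     invFun := fun y i => (a (σ i))⁻¹ • y (σ i)
     left_inv := fun x => by
       funext i
       simp
     right_inv := fun y => by
       funext i
       simp }, a, σ, hσ, fun x i => rfl⟩

theorem prdMk_apply {σ : Equiv.Perm (Fin m)} (hσ : σ ∈ T) (a : Fin m → A) (x : Fin m → Ω)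
    (i : Fin m) : (prdMk A Ω m T hσ a • x) i = a i • x (σ⁻¹ i) := rfl

theorem prd_transitive [MulAction.IsPretransitive A Ω] :
    MulAction.IsPretransitive (prd A Ω m T) (Fin m → Ω) := by
  refine ⟨fun x y => ?_⟩
  have h : ∀ i, ∃ a : A, a • x i = y i := fun i => MulAction.exists_smul_eq A (x i) (y i)
  choose a ha using h
  refine ⟨prdMk A Ω m T T.one_mem a, funext fun i => ?_⟩
  rw [prdMk_apply, inv_one, Equiv.Perm.one_apply, ha]

/-- the hyperplane `x i = w` -/
def hyp {Ω : Type} {m : ℕ} (i : Fin m) (w : Ω) : Set (Fin m → Ω) := {x | x i = w}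

variable {A Ω m T}

theorem smul_hyp (γ : prd A Ω m T) (a : Fin m → A) (σ : Equiv.Perm (Fin m))
    (h : ∀ x i, γ.1 x i = a i • x (σ⁻¹ i)) (i : Fin m) (w : Ω) :
    γ • hyp i w = hyp (σ i) (a (σ i) • w) := by
  ext y
  rw [Set.mem_smul_set_iff_inv_smul_mem]
  obtain ⟨x, rfl⟩ := MulAction.surjective γ y
  rw [inv_smul_smul]
  change x i = w ↔ γ.1 x (σ i) = a (σ i) • w
  rw [h, show σ⁻¹ (σ i) = i from σ.symm_apply_apply i, smul_left_cancel_iff]

theorem bound_pow {m a : ℕ} (hm : 19 ≤ m) (ha : 2 ≤ a) :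
    m * (8 * (m * a) * (m * a + 1) * 2) ≤ a ^ m := by
  have h1 : 16 * m ^ 2 * (m + 1) ≤ 2 ^ (m - 2) := by
    induction m, hm using Nat.le_induction with
    | base => norm_num
    | succ m hm ih =>
      have h2 : m + 1 - 2 = (m - 2) + 1 := by omega
      rw [h2, pow_succ]
      have h3 : 16 * (m + 1) ^ 2 * (m + 1 + 1) ≤ 16 * m ^ 2 * (m + 1) * 2 := by
        have h4 : (m + 1) * (m + 2) ≤ 2 * m ^ 2 := by nlinarith
        calc 16 * (m + 1) ^ 2 * (m + 1 + 1) = 16 * (m + 1) * ((m + 1) * (m + 2)) := by ring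
          _ ≤ 16 * (m + 1) * (2 * m ^ 2) := Nat.mul_le_mul_left _ h4
          _ = _ := by ring
      exact h3.trans (Nat.mul_le_mul_right _ ih)
  have h2 : 2 ^ (m - 2) ≤ a ^ (m - 2) := Nat.pow_le_pow_left ha _
  have h3 : a ^ m = a ^ (m - 2) * a ^ 2 := by
    rw [← pow_add]
    congr 1
    omega
  calc m * (8 * (m * a) * (m * a + 1) * 2) = 16 * m ^ 2 * a * (m * a + 1) := by ring
    _ ≤ 16 * m ^ 2 * a * ((m + 1) * a) := by
        refine Nat.mul_le_mul_left _ ?_
        nlinarith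
    _ = 16 * m ^ 2 * (m + 1) * a ^ 2 := by ring
    _ ≤ a ^ (m - 2) * a ^ 2 := Nat.mul_le_mul_right _ (h1.trans h2)
    _ = a ^ m := h3.symm

/-- **Product actions** -/
theorem small_prd [Finite Ω] [MulAction.IsPretransitive A Ω] (hm : 19 ≤ m)
    (hΩ : 2 ≤ Nat.card Ω) : SmallP (prd A Ω m T) (Fin m → Ω) := by
  classical
  have : Fintype Ω := Fintype.ofFinite Ω
  have hnt : Nontrivial Ω := Finite.one_lt_card_iff_nontrivial.1 (by omega)
  obtain ⟨w, w', hw⟩ := exists_pair_ne Ω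
  let c : Fin m → Ω := fun _ => w
  refine SmallP.of_orbits (Q := Set (Fin m → Ω)) m (fun i => hyp i w)
    (fun i => {c, Function.update c i w'}) (fun _ => ⟨c, by simp⟩) (fun i γ h => ?_)
    (fun γ h => ?_) (m * Nat.card Ω) 2 (fun i => ?_) (fun _ => Finset.card_le_two) ?_
  · obtain ⟨a, σ, hσ, ha⟩ := γ.2
    have h1 : γ.1 c = c := h c (by simp)
    have h2 : γ.1 (Function.update c i w') = Function.update c i w' := h _ (by simp)
    have h3 : ∀ j, a j • w = w := fun j => by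
      have := congrFun h1 j
      rw [ha] at this
      exact this
    have h4 : σ⁻¹ i = i := by
      by_contra hne
      have h5 := congrFun h2 i
      rw [ha, Function.update_self, Function.update_of_ne hne] at h5
      exact hw ((h3 i).symm.trans h5)
    have h5 : σ i = i := by
      conv_lhs => rw [← h4]
      exact σ.apply_symm_apply i
    rw [smul_hyp γ a σ ha, h5, h3]
  · apply Subtype.ext
    ext1 x
    funext i
    obtain ⟨b, hb⟩ := MulAction.exists_smul_eq A w (x i)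
    have h1 := h i (prdMk A Ω m T T.one_mem fun _ => b)
    have h2 : prdMk A Ω m T T.one_mem (fun _ => b) • hyp i w = hyp i (x i) := by
      rw [smul_hyp (prdMk A Ω m T T.one_mem fun _ => b) (fun _ => b) 1 (fun x i => rfl),
        Equiv.Perm.one_apply, hb]
    rw [h2] at h1
    have h3 : γ • x ∈ γ • hyp i (x i) := Set.smul_mem_smul_set rfl
    rw [h1] at h3
    exact h3
  · have h1 : MulAction.orbit (prd A Ω m T) (hyp i w) ⊆
        Set.range fun p : Fin m × Ω => (hyp p.1 p.2 : Set (Fin m → Ω)) := by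
      rintro _ ⟨γ, rfl⟩
      obtain ⟨a, σ, hσ, ha⟩ := γ.2
      exact ⟨(σ i, a (σ i) • w), (smul_hyp γ a σ ha i w).symm⟩
    calc (MulAction.orbit (prd A Ω m T) (hyp i w)).ncard
        ≤ (Set.range fun p : Fin m × Ω => (hyp p.1 p.2 : Set (Fin m → Ω))).ncard :=
          Set.ncard_le_ncard h1 (Set.finite_range _)
      _ ≤ (Set.univ : Set (Fin m × Ω)).ncard := by
          rw [← Set.image_univ]
          exact Set.ncard_image_le (Set.toFinite _)
      _ = m * Nat.card Ω := by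
          rw [Set.ncard_univ, Nat.card_prod, Nat.card_fin]
  · have h1 : Nat.card (Fin m → Ω) = Nat.card Ω ^ m := by
      rw [Nat.card_fun, Nat.card_fin]
    rw [h1]
    exact bound_pow hm hΩ

end

end Pool.Agent.H44.MB
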