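import Pool.Agent.H44.MB.Orb

/-!
# The action on `k`-subsets
-/

set_option autoImplicit false

namespace Pool.Agent.H44.MB

/-- the `k`-subsets of `{1, ..., m}` -/
abbrev Sb (m k : ℕ) : Type := {S : Finset (Fin m) // S.card = k}

/-- the image of a `k`-subset under a permutation -/
def sbAct {m k : ℕ} (σ : Equiv.Perm (Fin m)) (S : Sb m k) : Sb m k :=
  ⟨S.1.map σ.toEmbedding, by rw [Finset.card_map, S.2]⟩

/-- the action of a group of permutations on the `k`-subsets -/
instance sbMulAction {m k : ℕ} (Γ : Subgroup (Equiv.Perm (Fin m))) : MulAction Γ (Sb m k) where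
  smul γ S := sbAct γ.1 S
  one_smul S := by
    apply Subtype.ext
    change S.1.map _ = S.1
    exact Finset.map_refl
  mul_smul γ δ S := by
    apply Subtype.ext
    change S.1.map _ = (S.1.map _).map _
    rw [Finset.map_map]
    rfl

theorem sb_smul {m k : ℕ} {Γ : Subgroup (Equiv.Perm (Fin m))} (γ : Γ) (S : Sb m k) :
    (γ • S).1 = S.1.map (γ : Equiv.Perm (Fin m)).toEmbedding := rfl

theorem choose_mono {m : ℕ} {k : ℕ} (h3 : 3 ≤ k) (hk : k + 3 ≤ m) :
    m.choose 3 ≤ m.choose k := by
  have key : ∀ j, 3 ≤ j → 2 * j ≤ m → m.choose 3 ≤ m.choose j := by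
    intro j hj
    induction j, hj using Nat.le_induction with
    | base => intro _; exact le_rfl
    | succ j hj ih =>
      intro h
      refine (ih (by omega)).trans ?_
      exact Nat.choose_le_succ_of_lt_half_left (by omega)
  by_cases h : 2 * k ≤ m
  · exact key k h3 h
  · rw [← Nat.choose_symm (by omega : k ≤ m)]
    exact key (m - k) (by omega) (by omega)

theorem choose_three {m : ℕ} (hm : 100 ≤ m) : 16 * m * (m + 1) ≤ m.choose 3 := by
  obtain ⟨n, rfl⟩ : ∃ n, m = n + 3 := ⟨m - 3, by omega⟩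
  have h1 : (n + 3).choose 3 * 6 = (n + 3) * (n + 2) * (n + 1) := by
    have h := Nat.descFactorial_eq_factorial_mul_choose (n + 3) 3
    simp only [Nat.descFactorial_succ, Nat.descFactorial_zero, Nat.factorial] at h
    have e1 : n + 3 - 2 = n + 1 := by omega
    have e2 : n + 3 - 1 = n + 2 := by omega
    rw [e1, e2] at h
    have e3 : Nat.succ 2 * (Nat.succ 1 * (Nat.succ 0 * 1)) = 6 := rfl
    rw [e3, Nat.sub_zero] at h
    rw [mul_comm, ← h]
    ring
  have h2 : 96 * (n + 4) ≤ (n + 2) * (n + 1) := by nlinarith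
  have h3 : 16 * (n + 3) * (n + 3 + 1) * 6 ≤ (n + 3).choose 3 * 6 := by
    rw [h1]
    calc 16 * (n + 3) * (n + 3 + 1) * 6 = (n + 3) * (96 * (n + 4)) := by ring
      _ ≤ (n + 3) * ((n + 2) * (n + 1)) := Nat.mul_le_mul_left _ h2
      _ = _ := by ring
  omega

/-- two `k`-subsets which determine a point -/
theorem exists_pair {m k : ℕ} (a : Fin m) (hk1 : 1 ≤ k) (hkm : k + 1 ≤ m) :
    ∃ S T : Sb m k, ∀ σ : Equiv.Perm (Fin m), S.1.map σ.toEmbedding = S.1 →
      T.1.map σ.toEmbedding = T.1 → σ a = a := by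
  classical
  have hE : (Finset.univ.erase a).card = m - 1 := by
    rw [Finset.card_erase_of_mem (Finset.mem_univ a), Finset.card_univ, Fintype.card_fin]
  by_cases h : 2 * k ≤ m
  · obtain ⟨R, hR, hRc⟩ := Finset.exists_subset_card_eq (s := Finset.univ.erase a) (n := k - 1)
      (by omega)
    obtain ⟨R', hR', hRc'⟩ := Finset.exists_subset_card_eq (s := (Finset.univ.erase a) \ R)
      (n := k - 1) (by rw [Finset.card_sdiff_of_subset hR]; omega)
    have ha : a ∉ R := fun h => Finset.notMem_erase a _ (hR h)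
    have ha' : a ∉ R' := fun h => Finset.notMem_erase a _ (Finset.mem_sdiff.1 (hR' h)).1
    refine ⟨⟨insert a R, by rw [Finset.card_insert_of_notMem ha]; omega⟩,
      ⟨insert a R', by rw [Finset.card_insert_of_notMem ha']; omega⟩, fun σ h1 h2 => ?_⟩
    have h3 : insert a R ∩ insert a R' = {a} := by
      ext x
      simp only [Finset.mem_inter, Finset.mem_insert, Finset.mem_singleton]
      constructor
      · rintro ⟨h4 | h4, h5 | h5⟩
        · exact h4
        · exact h4
        · exact h5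
        · exact absurd h4 (Finset.mem_sdiff.1 (hR' h5)).2
      · intro h
        exact ⟨Or.inl h, Or.inl h⟩
    have h4 : ({a} : Finset (Fin m)).map σ.toEmbedding = {a} := by
      rw [← h3, Finset.map_inter, h1, h2]
    rw [Finset.map_singleton] at h4
    exact Finset.singleton_injective h4
  · obtain ⟨S, hS, hSc⟩ := Finset.exists_subset_card_eq (s := Finset.univ.erase a) (n := k)
      (by omega)
    obtain ⟨T, hT1, hT2, hTc⟩ := Finset.exists_subsuperset_card_eq
      (s := (Finset.univ.erase a) \ S) (t := Finset.univ.erase a) (n := k)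
      Finset.sdiff_subset (by rw [Finset.card_sdiff_of_subset hS]; omega) (by omega)
    refine ⟨⟨S, hSc⟩, ⟨T, hTc⟩, fun σ h1 h2 => ?_⟩
    have h3 : S ∪ T = Finset.univ.erase a := by
      apply le_antisymm (Finset.union_subset hS hT2)
      intro x hx
      by_cases hxS : x ∈ S
      · exact Finset.mem_union_left _ hxS
      · exact Finset.mem_union_right _ (hT1 (Finset.mem_sdiff.2 ⟨hx, hxS⟩))
    have h4 : (Finset.univ.erase a).map σ.toEmbedding = Finset.univ.erase a := by
      rw [← h3, Finset.map_union, h1, h2]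
    by_contra hne
    have h5 : σ a ∈ Finset.univ.erase a := Finset.mem_erase.2 ⟨hne, Finset.mem_univ _⟩
    rw [← h4, Finset.mem_map] at h5
    obtain ⟨b, hb, hb2⟩ := h5
    exact (Finset.mem_erase.1 hb).1 (σ.injective hb2)

/-- **`k`-subsets**, `Γ` any group of permutations, transitive on the points -/
theorem small_sb {m k : ℕ} (hm : 100 ≤ m) (hk : 3 ≤ k) (hkm : k + 3 ≤ m)
    (Γ : Subgroup (Equiv.Perm (Fin m))) (h1 : ∀ i j : Fin m, ∃ g ∈ Γ, g i = j) :
    SmallP Γ (Sb m k) := by
  classical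
  have hm0 : NeZero m := ⟨by omega⟩
  let a : Fin m := 0
  obtain ⟨S, T, hST⟩ := exists_pair (k := k) a (by omega) (by omega)
  refine SmallP.of_orbits (Q := Fin m) 1 (fun _ => a) (fun _ => {S, T}) (fun _ => ⟨S, by simp⟩)
    (fun _ γ h => ?_) (fun γ h => ?_) m 2 (fun _ => ?_) (fun _ => Finset.card_le_two) ?_
  · exact hST γ.1 (congrArg Subtype.val (h S (by simp))) (congrArg Subtype.val (h T (by simp)))
  · apply Subtype.ext
    ext1 x
    obtain ⟨g, hg, hgx⟩ := h1 a x
    have h2 := h 0 ⟨g, hg⟩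
    change γ.1 (g a) = g a at h2
    rw [hgx] at h2
    exact h2
  · refine (Set.ncard_le_card _).trans ?_
    rw [Nat.card_fin]
  · have h2 : Nat.card (Sb m k) = m.choose k := by
      rw [Nat.card_eq_fintype_card, Fintype.card_finset_len, Fintype.card_fin]
    rw [h2]
    calc 1 * (8 * m * (m + 1) * 2) = 16 * m * (m + 1) := by ring
      _ ≤ m.choose 3 := choose_three hm
      _ ≤ m.choose k := choose_mono hk hkm

theorem sb_faithful {m k : ℕ} (hk1 : 1 ≤ k) (hkm : k + 1 ≤ m) (Γ : Subgroup (Equiv.Perm (Fin m))) :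
    FaithfulSMul Γ (Sb m k) := by
  refine ⟨fun {γ δ} h => ?_⟩
  have h1 : ∀ S : Sb m k, (γ⁻¹ * δ) • S = S := fun S => by rw [mul_smul, ← h S, inv_smul_smul]
  have h2 : γ⁻¹ * δ = 1 := by
    apply Subtype.ext
    ext1 a
    obtain ⟨S, T, hST⟩ := exists_pair (k := k) a hk1 hkm
    exact hST (γ⁻¹ * δ : Γ).1 (congrArg Subtype.val (h1 S)) (congrArg Subtype.val (h1 T))
  exact (inv_mul_eq_one.1 h2)

end Pool.Agent.H44.MB
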