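import Pool.Agent.H44.MB.Iter
import Pool.Agent.H44.MB.Sub
import Pool.Agent.H44.MB.Prd

/-!
# The criterion for the actions on `k`-subsets and for product actions
-/

set_option autoImplicit false

open scoped Pointwise

namespace Pool.Agent.H44.MB

theorem choose_threeE {m : ℕ} (hm : 19 ≤ m) : 8 * m ^ 2 < 3 * m.choose 3 := by
  obtain ⟨n, rfl⟩ : ∃ n, m = n + 3 := ⟨m - 3, by omega⟩
  have h1 : (n + 3).choose 3 * 6 = (n + 3) * (n + 2) * (n + 1) := by
    have h := Nat.descFactorial_eq_factorial_mul_choose (n + 3) 3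
    simp only [Nat.descFactorial_succ, Nat.descFactorial_zero, Nat.factorial] at h
    have e1 : n + 3 - 2 = n + 1 := by omega
    have e2 : n + 3 - 1 = n + 2 := by omega
    rw [e1, e2] at h
    have e3 : Nat.succ 2 * (Nat.succ 1 * (Nat.succ 0 * 1)) = 6 := rfl
    rw [e3, Nat.sub_zero] at h
    rw [mul_comm, ← h]
    ring
  have h2 : 16 * (n + 3) < (n + 2) * (n + 1) := by nlinarith
  have h3 : 8 * (n + 3) ^ 2 * 2 < 3 * (n + 3).choose 3 * 2 := by
    calc 8 * (n + 3) ^ 2 * 2 = (n + 3) * (16 * (n + 3)) := by ring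
      _ < (n + 3) * ((n + 2) * (n + 1)) := Nat.mul_lt_mul_of_pos_left h2 (by omega)
      _ = (n + 3).choose 3 * 6 := by rw [h1]; ring
      _ = _ := by ring
  omega

/-- **`k`-subsets**, `Γ` any group of permutations, transitive on the points -/
theorem few_sb {m k : ℕ} (hm : 19 ≤ m) (hk : 3 ≤ k) (hkm : k + 3 ≤ m)
    (Γ : Subgroup (Equiv.Perm (Fin m))) (h1 : ∀ i j : Fin m, ∃ g ∈ Γ, g i = j) :
    FewP 1 Γ (Sb m k) := by
  classical
  have hm0 : NeZero m := ⟨by omega⟩
  let a : Fin m := 0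
  obtain ⟨S, T, hST⟩ := exists_pair (k := k) a (by omega) (by omega)
  refine FewP.of_orbits (Q := Fin m) 1 1 (fun _ => a) (fun _ => {S, T}) (fun _ => ⟨S, by simp⟩)
    (fun _ γ h => ?_) (fun γ h => ?_) m 2 (fun _ => ?_) (fun _ => Finset.card_le_two) ?_
  · exact hST γ.1 (congrArg Subtype.val (h S (by simp))) (congrArg Subtype.val (h T (by simp)))
  · apply Subtype.ext
    ext1 x
    obtain ⟨g, hg, hgx⟩ := h1 a x
    have h2 := h 0 ⟨g, hg⟩
    change γ.1 (g a) = g a at h2
    rw [hgx] at h2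
    exact h2
  · refine (Set.ncard_le_card _).trans ?_
    rw [Nat.card_fin]
  · have h2 : Nat.card (Sb m k) = m.choose k := by
      rw [Nat.card_eq_fintype_card, Fintype.card_finset_len, Fintype.card_fin]
    rw [h2]
    calc 4 * (1 * (m ^ 2 * 2)) = 8 * m ^ 2 := by ring
      _ < 3 * m.choose 3 := choose_threeE hm
      _ ≤ 3 * m.choose k := Nat.mul_le_mul_left _ (choose_mono hk hkm)
      _ = _ := by norm_num

/-- the symmetric group is transitive on the `k`-subsets -/
theorem sb_perm {m k : ℕ} (S S' : Sb m k) : ∃ g : Equiv.Perm (Fin m), sbAct g S = S' := by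
  classical
  let e : S.1 ≃ S'.1 := Finset.equivOfCardEq (S.2.trans S'.2.symm)
  let e' : {x // x ∈ S.1} ≃ {x // x ∈ S'.1} := e
  refine ⟨e'.extendSubtype, ?_⟩
  apply Subtype.ext
  change S.1.map _ = S'.1
  refine Finset.eq_of_subset_of_card_le ?_ ?_
  · intro y hy
    rw [Finset.mem_map] at hy
    obtain ⟨x, hx, rfl⟩ := hy
    exact e'.extendSubtype_mem x hx
  · rw [Finset.card_map, S.2, S'.2]

section

variable (A Ω : Type) [Group A] [MulAction A Ω] (m : ℕ) (T : Subgroup (Equiv.Perm (Fin m)))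

variable {A Ω m T}

theorem bound_powE {m a : ℕ} (hm : 16 ≤ m) (ha : 2 ≤ a) :
    4 * (m * ((m * a) ^ 2 * 2)) < 3 * a ^ m := by
  have h1 : 8 * m ^ 3 < 3 * 2 ^ (m - 2) := by
    induction m, hm using Nat.le_induction with
    | base => norm_num
    | succ m hm ih =>
      have h2 : m + 1 - 2 = (m - 2) + 1 := by omega
      rw [h2, pow_succ]
      have h3 : (m + 1) ^ 3 ≤ 2 * m ^ 3 := by
        have h4 : 16 * m ^ 2 ≤ m ^ 3 := by nlinarith [Nat.zero_le (m ^ 2)]
        nlinarith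
      calc 8 * (m + 1) ^ 3 ≤ 8 * (2 * m ^ 3) := Nat.mul_le_mul_left _ h3
        _ = 8 * m ^ 3 * 2 := by ring
        _ < 3 * 2 ^ (m - 2) * 2 := by omega
        _ = _ := by ring
  have h2 : 2 ^ (m - 2) ≤ a ^ (m - 2) := Nat.pow_le_pow_left ha _
  have h3 : a ^ m = a ^ (m - 2) * a ^ 2 := by
    rw [← pow_add]
    congr 1
    omega
  have ha2 : 0 < a ^ 2 := by positivity
  calc 4 * (m * ((m * a) ^ 2 * 2)) = 8 * m ^ 3 * a ^ 2 := by ring
    _ < 3 * 2 ^ (m - 2) * a ^ 2 := Nat.mul_lt_mul_of_pos_right h1 ha2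
    _ ≤ 3 * a ^ (m - 2) * a ^ 2 := Nat.mul_le_mul_right _ (Nat.mul_le_mul_left _ h2)
    _ = 3 * a ^ m := by rw [h3]; ring

/-- **Product actions** -/
theorem few_prd [Finite Ω] [MulAction.IsPretransitive A Ω] (hm : 16 ≤ m)
    (hΩ : 2 ≤ Nat.card Ω) : FewP 1 (prd A Ω m T) (Fin m → Ω) := by
  classical
  have : Fintype Ω := Fintype.ofFinite Ω
  have hnt : Nontrivial Ω := Finite.one_lt_card_iff_nontrivial.1 (by omega)
  obtain ⟨w, w', hw⟩ := exists_pair_ne Ω
  let c : Fin m → Ω := fun _ => w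
  refine FewP.of_orbits (Q := Set (Fin m → Ω)) 1 m (fun i => hyp i w)
    (fun i => {c, Function.update c i w'}) (fun _ => ⟨c, by simp⟩) (fun i γ h => ?_)
    (fun γ h => ?_) (m * Nat.card Ω) 2 (fun i => ?_) (fun _ => Finset.card_le_two) ?_
  · obtain ⟨a, σ, hσ, ha⟩ := γ.2
    have h1 : γ.1 c = c := h c (by simp)
    have h2 : γ.1 (Function.update c i w') = Function.update c i w' := h _ (by simp)
    have h3 : ∀ j, a j • w = w := fun j => by
      have := congrFun h1 j
      rw [ha] at this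
      exact this
    have h4 : σ⁻¹ i = i := by
      by_contra hne
      have h5 := congrFun h2 i
      rw [ha, Function.update_self, Function.update_of_ne hne] at h5
      exact hw ((h3 i).symm.trans h5)
    have h5 : σ i = i := by
      conv_lhs => rw [← h4]
      exact σ.apply_symm_apply i
    rw [smul_hyp γ a σ ha, h5, h3]
  · apply Subtype.ext
    ext1 x
    funext i
    obtain ⟨b, hb⟩ := MulAction.exists_smul_eq A w (x i)
    have h1 := h i (prdMk A Ω m T T.one_mem fun _ => b)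
    have h2 : prdMk A Ω m T T.one_mem (fun _ => b) • hyp i w = hyp i (x i) := by
      rw [smul_hyp (prdMk A Ω m T T.one_mem fun _ => b) (fun _ => b) 1 (fun x i => rfl),
        Equiv.Perm.one_apply, hb]
    rw [h2] at h1
    have h3 : γ • x ∈ γ • hyp i (x i) := Set.smul_mem_smul_set rfl
    rw [h1] at h3
    exact h3
  · have h1 : MulAction.orbit (prd A Ω m T) (hyp i w) ⊆
        Set.range fun p : Fin m × Ω => (hyp p.1 p.2 : Set (Fin m → Ω)) := by
      rintro _ ⟨γ, rfl⟩
      obtain ⟨a, σ, hσ, ha⟩ := γ.2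
      exact ⟨(σ i, a (σ i) • w), (smul_hyp γ a σ ha i w).symm⟩
    calc (MulAction.orbit (prd A Ω m T) (hyp i w)).ncard
        ≤ (Set.range fun p : Fin m × Ω => (hyp p.1 p.2 : Set (Fin m → Ω))).ncard :=
          Set.ncard_le_ncard h1 (Set.finite_range _)
      _ ≤ (Set.univ : Set (Fin m × Ω)).ncard := by
          rw [← Set.image_univ]
          exact Set.ncard_image_le (Set.toFinite _)
      _ = m * Nat.card Ω := by
          rw [Set.ncard_univ, Nat.card_prod, Nat.card_fin]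
  · have h1 : Nat.card (Fin m → Ω) = Nat.card Ω ^ m := by
      rw [Nat.card_fun, Nat.card_fin]
    rw [h1]
    have h2 := bound_powE hm hΩ
    rw [show (2 : ℕ) ^ 1 + 1 = 3 from rfl]
    exact h2

end

/-- every transitive action satisfies the criterion for long towers -/
theorem few_point {Γ P : Type} [Group Γ] [Finite Γ] [MulAction Γ P] [FaithfulSMul Γ P]
    [MulAction.IsPretransitive Γ P] [Finite P] [Nonempty P] (j : ℕ)
    (hj : 4 * Nat.card P ≤ 2 ^ j) : FewP j Γ P := by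
  obtain ⟨x₀⟩ := (inferInstance : Nonempty P)
  refine FewP.of_orbits (Q := P) j 1 (fun _ => x₀) (fun _ => {x₀}) (fun _ => ⟨x₀, by simp⟩)
    (fun _ γ h => h x₀ (by simp)) (fun γ h => ?_) (Nat.card P) 1 (fun _ => Set.ncard_le_card _)
    (fun _ => by simp) ?_
  · refine eq_of_smul_eq_smul (α := P) fun x => ?_
    obtain ⟨g, rfl⟩ := MulAction.exists_smul_eq Γ x₀ x
    rw [h 0 g, one_smul]
  · have hP : 0 < Nat.card P := Nat.card_pos
    calc 4 * (1 * (Nat.card P ^ 2 * 1)) = 4 * Nat.card P * Nat.card P := by ring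
      _ ≤ 2 ^ j * Nat.card P := Nat.mul_le_mul_right _ hj
      _ < (2 ^ j + 1) * Nat.card P := Nat.mul_lt_mul_of_pos_right (by omega) hP

/-- one subgroup and a base -/
theorem few_base {Γ P : Type} [Group Γ] [MulAction Γ P] (j : ℕ) (U : Subgroup Γ)
    (hU : U.normalCore = ⊥) (B : Finset P) (hB : ∀ γ : Γ, (∀ x ∈ B, γ • x = x) → γ = 1)
    (hBn : B.Nonempty) (hc : 4 * (U.index ^ 2 * B.card) < (2 ^ j + 1) * Nat.card P) :
    FewP j Γ P := by
  refine ⟨1, fun _ => U, fun _ => B, ?_, fun _ => hBn, fun _ γ h => ?_, ?_⟩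
  · rw [ciInf_const]
    exact hU
  · rw [hB γ h]
    exact U.one_mem
  · rw [Fin.sum_univ_one]
    exact hc

end Pool.Agent.H44.MB
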