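import Pool.Agent.H44.MB.Exp
import Pool.Agent.H44.MB.SubF

/-!
# The criterion with general exponents for the actions on `k`-subsets and for product actions
-/

set_option autoImplicit false

open Filter
open scoped Pointwise

namespace Pool.Agent.H44.MB

open Pool.Agent.W222.UABC (eS)

/-- the stabilizer of a point, seen from the `k`-subsets -/
theorem few_sb_gen {e : ℕ → ℝ} (he : ∀ n, 0 ≤ e n) {m k : ℕ} (hk1 : 1 ≤ k) (hkm : k + 1 ≤ m)
    (Γ : Subgroup (Equiv.Perm (Fin m))) (h1 : ∀ i j : Fin m, ∃ g ∈ Γ, g i = j)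
    (hc : e m * m * 2 < 3 / 2 * (m.choose k : ℝ)) : FewA e (3 / 2) Γ (Sb m k) := by
  classical
  have hm0 : NeZero m := ⟨by omega⟩
  let a : Fin m := 0
  obtain ⟨S, T, hST⟩ := exists_pair (k := k) a hk1 hkm
  have htr : MulAction.IsPretransitive Γ (Fin m) := ⟨fun x y => by
    obtain ⟨g, hg, hgx⟩ := h1 x y
    exact ⟨⟨g, hg⟩, hgx⟩⟩
  refine FewA.of_orbits he (Q := Fin m) (3 / 2) 1 (fun _ => a) (fun _ => {S, T})
    (fun _ => ⟨S, by simp⟩) (fun _ γ h => ?_) (fun γ h => ?_) m 2 (fun _ => ?_)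
    (fun _ => Finset.card_le_two) ?_
  · exact hST γ.1 (congrArg Subtype.val (h S (by simp))) (congrArg Subtype.val (h T (by simp)))
  · apply Subtype.ext
    ext1 x
    obtain ⟨g, hg, hgx⟩ := h1 a x
    have h2 := h 0 ⟨g, hg⟩
    change γ.1 (g a) = g a at h2
    rw [hgx] at h2
    exact h2
  · rw [MulAction.orbit_eq_univ, Set.ncard_univ, Nat.card_fin]
  · have h2 : Nat.card (Sb m k) = m.choose k := by
      rw [Nat.card_eq_fintype_card, Fintype.card_finset_len, Fintype.card_fin]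
    rw [h2]
    push_cast
    linarith

theorem choose_three6 (n : ℕ) : (n + 3).choose 3 * 6 = (n + 3) * (n + 2) * (n + 1) := by
  have h := Nat.descFactorial_eq_factorial_mul_choose (n + 3) 3
  simp only [Nat.descFactorial_succ, Nat.descFactorial_zero, Nat.factorial] at h
  have e1 : n + 3 - 2 = n + 1 := by omega
  have e2 : n + 3 - 1 = n + 2 := by omega
  rw [e1, e2] at h
  have e3 : Nat.succ 2 * (Nat.succ 1 * (Nat.succ 0 * 1)) = 6 := rfl
  rw [e3, Nat.sub_zero] at h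
  rw [mul_comm, ← h]
  ring

/-- the inequality for `k`-subsets, `3 ≤ k ≤ m - 3`, `m ≥ 7` -/
theorem sb_ineq {e : ℕ → ℝ} (h1 : e 1 = 0) (h2 : ∀ n : ℕ, 2 ≤ n → e n ≤ eS n) {m k : ℕ}
    (hm : 7 ≤ m) (hk : 3 ≤ k) (hkm : k + 3 ≤ m) : e m * m * 2 < 3 / 2 * (m.choose k : ℝ) := by
  have h3 : ((m.choose 3 : ℕ) : ℝ) ≤ m.choose k := by exact_mod_cast choose_mono hk hkm
  refine lt_of_lt_of_le ?_ (mul_le_mul_of_nonneg_left h3 (by norm_num))
  rcases Nat.lt_or_ge m 8 with h | h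
  · have h4 : m = 7 := by omega
    subst h4
    have h5 := h2 7 (by norm_num)
    have h6 : eS 7 = 9 / 4 := by
      have h7 : Nat.minFac 7 = 7 := Nat.Prime.minFac_eq (by norm_num)
      unfold Pool.Agent.W222.UABC.eS
      rw [h7]
      norm_num
    have h7 : Nat.choose 7 3 = 35 := by decide
    rw [h7]
    rw [h6] at h5
    push_cast
    linarith
  · obtain ⟨n, rfl⟩ : ∃ n, m = n + 3 := ⟨m - 3, by omega⟩
    have h4 := e_lt h1 h2 (n := n + 3) (by omega)
    have h5 : (((n + 3).choose 3 : ℕ) : ℝ) * 6 = (n + 3) * (n + 2) * (n + 1) := by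
      exact_mod_cast choose_three6 n
    have h6 : (5 : ℝ) ≤ n := by
      have : 5 ≤ n := by omega
      exact_mod_cast this
    push_cast at h4 ⊢
    have h7 : e (n + 3) * ((n : ℝ) + 3) * 2 < ((n : ℝ) + 3 + 1) / 2 * (n + 3) * 2 := by
      have h8 : (0 : ℝ) < (n : ℝ) + 3 := by linarith
      nlinarith
    refine h7.trans_le ?_
    have h8 : (((n + 3).choose 3 : ℕ) : ℝ) = (n + 3) * (n + 2) * (n + 1) / 6 := by linarith
    rw [h8]
    nlinarith

theorem choose_two_le {m k : ℕ} (h2 : 2 ≤ k) (hk : k + 2 ≤ m) : m.choose 2 ≤ m.choose k := by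
  have key : ∀ j, 2 ≤ j → 2 * j ≤ m → m.choose 2 ≤ m.choose j := by
    intro j hj
    induction j, hj using Nat.le_induction with
    | base => intro _; exact le_rfl
    | succ j hj ih =>
      intro h
      refine (ih (by omega)).trans ?_
      exact Nat.choose_le_succ_of_lt_half_left (by omega)
  by_cases h : 2 * k ≤ m
  · exact key k h2 h
  · rw [← Nat.choose_symm (by omega : k ≤ m)]
    exact key (m - k) (by omega) (by omega)

/-- the inequality for `k`-subsets, `2 ≤ k ≤ m - 2`, `m` large -/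
theorem sb_ineq2 {e : ℕ → ℝ} (hlog : ∀ c : ℝ, 1 / (8 * (Real.log 2) ^ 2) < c →
    ∀ᶠ n : ℕ in atTop, e n ≤ c * (Real.log n) ^ 2) :
    ∃ m₀ : ℕ, ∀ m k : ℕ, m₀ ≤ m → 2 ≤ k → k + 2 ≤ m →
      e m * m * 2 < 3 / 2 * (m.choose k : ℝ) := by
  obtain ⟨c, hc⟩ : ∃ c : ℝ, 1 / (8 * (Real.log 2) ^ 2) < c := exists_gt _
  have h1 : ∀ᶠ x : ℝ in atTop, ‖c * Real.log x ^ 2‖ ≤ 1 / 8 * ‖x‖ := by
    have h := (Real.isLittleO_pow_log_id_atTop (n := 2)).const_mul_left c
    exact h.def (by norm_num)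
  have h2 := (tendsto_natCast_atTop_atTop (R := ℝ)).eventually h1
  obtain ⟨m₀, hm₀⟩ := eventually_atTop.1 ((hlog c hc).and (h2.and (eventually_ge_atTop 4)))
  refine ⟨m₀, fun m k hm hk hkm => ?_⟩
  obtain ⟨h3, h4, h5⟩ := hm₀ m hm
  have h6 : e m ≤ 1 / 8 * m := by
    refine h3.trans ((le_abs_self _).trans ?_)
    rw [Real.norm_eq_abs, Real.norm_of_nonneg (Nat.cast_nonneg m)] at h4
    exact h4
  have h7 : ((m.choose 2 : ℕ) : ℝ) ≤ m.choose k := by exact_mod_cast choose_two_le hk hkm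
  refine lt_of_lt_of_le ?_ (mul_le_mul_of_nonneg_left h7 (by norm_num))
  rw [Nat.cast_choose_two]
  have h8 : (4 : ℝ) ≤ m := by exact_mod_cast h5
  nlinarith

/-- **Product actions** -/
theorem few_prd3 {e : ℕ → ℝ} (he : ∀ n, 0 ≤ e n) (h1 : e 1 = 0)
    (h2 : ∀ n : ℕ, 2 ≤ n → e n ≤ eS n) {A Ω : Type} [Group A] [MulAction A Ω] {m : ℕ}
    {T : Subgroup (Equiv.Perm (Fin m))} [Finite Ω] [MulAction.IsPretransitive A Ω] (hm : 1 ≤ m)
    (hT : ∀ i j : Fin m, ∃ g ∈ T, g i = j) (hΩ : 2 ≤ Nat.card Ω)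
    (hc : 2 * (m * Nat.card Ω) * (m * Nat.card Ω + 1) < 3 * Nat.card Ω ^ m) :
    FewA e (3 / 2) (prd A Ω m T) (Fin m → Ω) := by
  classical
  have : Fintype Ω := Fintype.ofFinite Ω
  have hnt : Nontrivial Ω := Finite.one_lt_card_iff_nontrivial.1 (by omega)
  obtain ⟨w, w', hw⟩ := exists_pair_ne Ω
  let c : Fin m → Ω := fun _ => w
  let i₀ : Fin m := ⟨0, hm⟩
  have horb : MulAction.orbit (prd A Ω m T) (hyp i₀ w) =
      Set.range fun p : Fin m × Ω => (hyp p.1 p.2 : Set (Fin m → Ω)) := by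
    ext Z
    constructor
    · rintro ⟨γ, rfl⟩
      obtain ⟨a, σ, hσ, ha⟩ := γ.2
      exact ⟨(σ i₀, a (σ i₀) • w), (smul_hyp γ a σ ha i₀ w).symm⟩
    · rintro ⟨⟨j, x⟩, rfl⟩
      obtain ⟨σ, hσ, hσj⟩ := hT i₀ j
      obtain ⟨b, hb⟩ := MulAction.exists_smul_eq A w x
      refine ⟨prdMk A Ω m T hσ fun _ => b, ?_⟩
      change prdMk A Ω m T hσ (fun _ => b) • hyp i₀ w = hyp j x
      rw [smul_hyp (prdMk A Ω m T hσ fun _ => b) (fun _ => b) σ (fun x i => rfl), hσj, hb]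
  have hinj : Function.Injective fun p : Fin m × Ω => (hyp p.1 p.2 : Set (Fin m → Ω)) := by
    rintro ⟨i, x⟩ ⟨j, y⟩ h
    simp only at h
    have h3 : (fun _ => x : Fin m → Ω) ∈ (hyp j y : Set (Fin m → Ω)) := by
      rw [← h]
      rfl
    have h4 : x = y := h3
    subst h4
    by_contra hne
    have hij : i ≠ j := fun hij => hne (by rw [hij])
    obtain ⟨z, hz⟩ := exists_ne x
    have h5 : Function.update (fun _ => x : Fin m → Ω) i z ∈ (hyp j x : Set (Fin m → Ω)) := by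
      change Function.update (fun _ => x : Fin m → Ω) i z j = x
      rw [Function.update_of_ne hij.symm]
    rw [← h] at h5
    change Function.update (fun _ => x : Fin m → Ω) i z i = x at h5
    rw [Function.update_self] at h5
    exact hz h5
  have hncard : (MulAction.orbit (prd A Ω m T) (hyp i₀ w)).ncard = m * Nat.card Ω := by
    rw [horb, ← Set.image_univ, Set.ncard_image_of_injective _ hinj, Set.ncard_univ,
      Nat.card_prod, Nat.card_fin]
  refine FewA.of_orbits he (Q := Set (Fin m → Ω)) (3 / 2) 1 (fun _ => hyp i₀ w)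
    (fun _ => {c, Function.update c i₀ w'}) (fun _ => ⟨c, by simp⟩) (fun _ γ h => ?_)
    (fun γ h => ?_) (m * Nat.card Ω) 2 (fun _ => hncard) (fun _ => Finset.card_le_two) ?_
  · obtain ⟨a, σ, hσ, ha⟩ := γ.2
    have h1 : γ.1 c = c := h c (by simp)
    have h2 : γ.1 (Function.update c i₀ w') = Function.update c i₀ w' := h _ (by simp)
    have h3 : ∀ j, a j • w = w := fun j => by
      have := congrFun h1 j
      rw [ha] at this
      exact this
    have h4 : σ⁻¹ i₀ = i₀ := by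
      by_contra hne
      have h5 := congrFun h2 i₀
      rw [ha, Function.update_self, Function.update_of_ne hne] at h5
      exact hw ((h3 i₀).symm.trans h5)
    have h5 : σ i₀ = i₀ := by
      conv_lhs => rw [← h4]
      exact σ.apply_symm_apply i₀
    rw [smul_hyp γ a σ ha, h5, h3]
  · apply Subtype.ext
    ext1 x
    funext i
    obtain ⟨σ, hσ, hσi⟩ := hT i₀ i
    obtain ⟨b, hb⟩ := MulAction.exists_smul_eq A w (x i)
    have h1 := h 0 (prdMk A Ω m T hσ fun _ => b)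
    have h2 : prdMk A Ω m T hσ (fun _ => b) • hyp i₀ w = hyp i (x i) := by
      rw [smul_hyp (prdMk A Ω m T hσ fun _ => b) (fun _ => b) σ (fun x i => rfl), hσi, hb]
    rw [h2] at h1
    have h3 : γ • x ∈ γ • hyp i (x i) := Set.smul_mem_smul_set rfl
    rw [h1] at h3
    exact h3
  · have h3 : Nat.card (Fin m → Ω) = Nat.card Ω ^ m := by
      rw [Nat.card_fun, Nat.card_fin]
    rw [h3]
    obtain ⟨u, hu⟩ : ∃ u, u = m * Nat.card Ω := ⟨_, rfl⟩
    rw [← hu] at hc ⊢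
    have hu1 : 1 ≤ u := by
      rw [hu]
      exact Nat.mul_pos hm (by omega)
    have h4 := e_lt h1 h2 hu1
    have h5 : (2 : ℝ) * u * (u + 1) < 3 * (Nat.card Ω : ℝ) ^ m := by exact_mod_cast hc
    have h6 : (1 : ℝ) ≤ u := by exact_mod_cast hu1
    push_cast
    nlinarith

end Pool.Agent.H44.MB
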