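import Pool.Agent.H44.MB.Few

/-!
# The sum over the extensions with group `H` converges
-/

set_option autoImplicit false
set_option linter.unusedSectionVars false

open NumberField Filter Topology IntermediateField

namespace Pool.Agent.H44.MB

open Pool.Agent.TH444.ML
open Pool.Agent.NH85.ML
open Pool.Agent.TH228.J3101 (nf)

/-- the sum over the fields of degree `u` -/
lemma deg_sum (hh : HermiteRel) (K Ω : Type) [Field K] [NumberField K] [Field Ω] [Algebra K Ω]
    [IsAlgClosure K Ω] (u : ℕ) : ∃ T : ℝ, 0 ≤ T ∧ ∀ s : Finset (IntermediateField K Ω),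
      (∀ F ∈ s, FiniteDimensional K F ∧ Module.finrank K F = u) →
      ∑ F ∈ s, (1 : ℝ) / (dnF F : ℝ) ^ (2 * u + 2) ≤ T := by
  classical
  obtain ⟨C, hC⟩ := hh K Ω u
  have hC' : 0 ≤ |C| := abs_nonneg C
  have hsum2 : Summable (fun m : ℕ => (1 : ℝ) / (m : ℝ) ^ 2) :=
    Real.summable_one_div_nat_pow.2 (by norm_num)
  refine ⟨|C| * ∑' m : ℕ, (1 : ℝ) / (m : ℝ) ^ 2,
    mul_nonneg hC' (tsum_nonneg fun m => by positivity), fun s hs => ?_⟩
  have hC0 : ∀ m : ℕ, 1 ≤ m → ((s.filter (fun F => dnF F = m)).card : ℝ) ≤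
      C * (m : ℝ) ^ (2 * u) := by
    intro m hm
    obtain ⟨hfin, hle⟩ := hC m (by exact_mod_cast hm)
    refine le_trans ?_ hle
    have h1 : (s.filter (fun F => dnF F = m)).card ≤ Set.ncard {F : IntermediateField K Ω |
        FiniteDimensional K F ∧ Module.finrank K F = u ∧ dsc F ≤ (m : ℝ)} := by
      rw [← Set.ncard_coe_finset]
      refine Set.ncard_le_ncard ?_ hfin
      intro F hF
      rw [Finset.mem_coe, Finset.mem_filter] at hF
      refine ⟨(hs F hF.1).1, (hs F hF.1).2, ?_⟩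
      rw [dsc_dnF, hF.2]
    exact_mod_cast h1
  calc ∑ F ∈ s, (1 : ℝ) / (dnF F : ℝ) ^ (2 * u + 2)
      = ∑ m ∈ s.image dnF, ∑ F ∈ s with dnF F = m, (1 : ℝ) / (dnF F : ℝ) ^ (2 * u + 2) :=
        (Finset.sum_fiberwise_of_maps_to (fun F hF => Finset.mem_image_of_mem _ hF) _).symm
    _ ≤ ∑ m ∈ s.image dnF, |C| * ((1 : ℝ) / (m : ℝ) ^ 2) := by
        refine Finset.sum_le_sum fun m hm => ?_
        obtain ⟨F0, hF0, hF0'⟩ := Finset.mem_image.1 hm
        have hm1 : 1 ≤ m := hF0' ▸ one_le_dnF F0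
        have hmpos : (0 : ℝ) < m := by exact_mod_cast hm1
        have e1 : ∑ F ∈ s with dnF F = m, (1 : ℝ) / (dnF F : ℝ) ^ (2 * u + 2) =
            ((s.filter (fun F => dnF F = m)).card : ℝ) * (1 / (m : ℝ) ^ (2 * u + 2)) := by
          rw [Finset.sum_congr rfl (g := fun _ => (1 : ℝ) / (m : ℝ) ^ (2 * u + 2)),
            Finset.sum_const, nsmul_eq_mul]
          intro F hF
          rw [(Finset.mem_filter.1 hF).2]
        rw [e1]
        calc ((s.filter (fun F => dnF F = m)).card : ℝ) * (1 / (m : ℝ) ^ (2 * u + 2))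
            ≤ (|C| * (m : ℝ) ^ (2 * u)) * (1 / (m : ℝ) ^ (2 * u + 2)) := by
              refine mul_le_mul_of_nonneg_right ?_ (by positivity)
              refine (hC0 m hm1).trans ?_
              exact mul_le_mul_of_nonneg_right (le_abs_self C) (by positivity)
          _ = |C| * ((1 : ℝ) / (m : ℝ) ^ 2) := by
              rw [pow_add]
              field_simp
    _ = |C| * ∑ m ∈ s.image dnF, (1 : ℝ) / (m : ℝ) ^ 2 := by rw [Finset.mul_sum]
    _ ≤ |C| * ∑' m : ℕ, (1 : ℝ) / (m : ℝ) ^ 2 := by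
        refine mul_le_mul_of_nonneg_left ?_ hC'
        exact hsum2.sum_le_tsum _ (fun m _ => by positivity)

/-- **Few extensions with group `H`.** -/
theorem few_small (hc : CompDisc) (hh : HermiteRel) (K Ω : Type) [Field K] [NumberField K]
    [Field Ω] [Algebra K Ω] [IsAlgClosure K Ω] {X : Type} [Finite X]
    {H : Subgroup (Equiv.Perm X)} {r : ℕ} {U : Fin r → Subgroup H} {B : Fin r → Finset X}
    (hS : Small H r U B) :
    Summable (fun M : GalX K Ω H => (dsc M.1) ^ (-(1 / 4) : ℝ)) := by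
  classical
  have hgal := few_gal K Ω
  have key := fun M : GalX K Ω H => key_all hc hS M.1 M.2
  choose F hfd hfr hN hdsc using key
  have hT := fun i : Fin r => deg_sum hh K Ω (U i).index
  choose T hT0 hT using hT
  have hbound : ∀ M : GalX K Ω H, (dsc M.1) ^ (-(1 / 4) : ℝ) ≤
      ∏ i, (1 : ℝ) / (dnF (F M i) : ℝ) ^ (2 * (U i).index + 2) := by
    intro M
    have h1 : ∀ i, (1 : ℝ) ≤ dnF (F M i) := fun i => by exact_mod_cast one_le_dnF (F M i)
    have h2 : ∏ i, (dnF (F M i) : ℝ) ^ (8 * ((U i).index + 1)) ≤ dsc M.1 := by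
      rw [dsc_dnF]
      exact_mod_cast hdsc M
    have h0 : 0 < ∏ i, (dnF (F M i) : ℝ) ^ (8 * ((U i).index + 1)) :=
      Finset.prod_pos fun i _ => pow_pos (lt_of_lt_of_le one_pos (h1 i)) _
    have h3 : (∏ i, (dnF (F M i) : ℝ) ^ (8 * ((U i).index + 1))) ^ (-(1 / 4) : ℝ) =
        ∏ i, (1 : ℝ) / (dnF (F M i) : ℝ) ^ (2 * (U i).index + 2) := by
      rw [← Real.finsetProd_rpow _ _ (fun i _ => by have := h1 i; positivity)]
      refine Finset.prod_congr rfl fun i _ => ?_
      have h5 : (0 : ℝ) < dnF (F M i) := lt_of_lt_of_le one_pos (h1 i)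
      have h4 : (1 : ℝ) / (dnF (F M i) : ℝ) ^ (2 * (U i).index + 2) =
          (dnF (F M i) : ℝ) ^ (-((2 * (U i).index + 2 : ℕ) : ℝ)) := by
        rw [Real.rpow_neg h5.le, Real.rpow_natCast, one_div]
      rw [h4, ← Real.rpow_natCast, ← Real.rpow_mul h5.le]
      congr 1
      push_cast
      ring
    rw [← h3]
    exact Real.rpow_le_rpow_of_nonpos h0 h2 (by norm_num)
  set cH : ℕ := Nat.card (Subgroup H) with hcH
  have hfib : ∀ (s : Finset (GalX K Ω H)) (F0 : Fin r → IntermediateField K Ω),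
      (∀ M ∈ s, F M = F0) → s.card ≤ cH := by
    intro s F0 hs
    rcases s.eq_empty_or_nonempty with h0 | ⟨M0, hM0⟩
    · rw [h0, Finset.card_empty]
      exact Nat.zero_le _
    · obtain ⟨hfd0, e0, he0⟩ := M0.2
      obtain ⟨g0⟩ := few_iso e0 he0
      have h1 := few_fib (normalClosure K M0.1 Ω) g0 (s.map ⟨Subtype.val, Subtype.val_injective⟩)
        (fun M' hM' => by
          rw [Finset.mem_map] at hM'
          obtain ⟨M, hM, rfl⟩ := hM'
          change M.1 ≤ _
          have h2 : normalClosure K M.1 Ω = normalClosure K M0.1 Ω := by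
            rw [← hN M, ← hN M0, hs M hM, hs M0 hM0]
          rw [← h2]
          exact le_normalClosure M.1)
      rwa [Finset.card_map] at h1
  have hf0 : ∀ G : Fin r → IntermediateField K Ω,
      0 ≤ ∏ i, (1 : ℝ) / (dnF (G i) : ℝ) ^ (2 * (U i).index + 2) := fun G =>
    Finset.prod_nonneg fun i _ => by positivity
  refine Summable.of_nonneg_of_le (fun M => ?_) hbound ?_
  · exact Real.rpow_nonneg (by rw [dsc_dnF]; positivity) _
  refine summable_of_sum_le (c := cH * ∏ i, T i) (fun M => hf0 (F M)) ?_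
  intro s
  calc ∑ M ∈ s, ∏ i, (1 : ℝ) / (dnF (F M i) : ℝ) ^ (2 * (U i).index + 2)
      = ∑ G ∈ s.image F, ∑ M ∈ s with F M = G,
          ∏ i, (1 : ℝ) / (dnF (F M i) : ℝ) ^ (2 * (U i).index + 2) :=
        (Finset.sum_fiberwise_of_maps_to (fun M hM => Finset.mem_image_of_mem F hM) _).symm
    _ ≤ ∑ G ∈ s.image F, cH * ∏ i, (1 : ℝ) / (dnF (G i) : ℝ) ^ (2 * (U i).index + 2) := by
        refine Finset.sum_le_sum fun G _ => ?_
        rw [Finset.sum_congr rfl (g := fun _ => ∏ i, (1 : ℝ) / (dnF (G i) : ℝ) ^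
          (2 * (U i).index + 2)), Finset.sum_const, nsmul_eq_mul]
        · refine mul_le_mul_of_nonneg_right ?_ (hf0 G)
          exact_mod_cast hfib _ G fun M hM => (Finset.mem_filter.1 hM).2
        · intro M hM
          rw [(Finset.mem_filter.1 hM).2]
    _ = cH * ∑ G ∈ s.image F, ∏ i, (1 : ℝ) / (dnF (G i) : ℝ) ^ (2 * (U i).index + 2) := by
        rw [Finset.mul_sum]
    _ ≤ cH * ∏ i, T i := by
        refine mul_le_mul_of_nonneg_left ?_ (Nat.cast_nonneg _)
        calc ∑ G ∈ s.image F, ∏ i, (1 : ℝ) / (dnF (G i) : ℝ) ^ (2 * (U i).index + 2)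
            ≤ ∑ G ∈ Fintype.piFinset fun i => s.image fun M => F M i,
                ∏ i, (1 : ℝ) / (dnF (G i) : ℝ) ^ (2 * (U i).index + 2) := by
              refine Finset.sum_le_sum_of_subset_of_nonneg ?_ fun G _ _ => hf0 G
              intro G hG
              obtain ⟨M, hM, rfl⟩ := Finset.mem_image.1 hG
              rw [Fintype.mem_piFinset]
              exact fun i => Finset.mem_image_of_mem (fun M => F M i) hM
          _ = ∏ i, ∑ F' ∈ s.image fun M => F M i,
                (1 : ℝ) / (dnF F' : ℝ) ^ (2 * (U i).index + 2) :=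
              (Finset.prod_univ_sum (fun i => s.image fun M => F M i)
                (fun i (F' : IntermediateField K Ω) =>
                  (1 : ℝ) / (dnF F' : ℝ) ^ (2 * (U i).index + 2))).symm
          _ ≤ ∏ i, T i := by
              refine Finset.prod_le_prod (fun i _ => Finset.sum_nonneg fun F' _ => by positivity)
                fun i _ => hT i _ fun F' hF' => ?_
              obtain ⟨M, hM, rfl⟩ := Finset.mem_image.1 hF'
              exact ⟨hfd M i, hfr M i⟩

end Pool.Agent.H44.MB
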