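import Pool.Agent.H44.MB.GoodA

/-!
# The exponent `A` for `H` gives the exponent `max (1, A / 2 + 1 / 4) + ε` for `C₂ ≀ H`
-/

set_option autoImplicit false
set_option linter.unusedSectionVars false

open NumberField Filter Topology IntermediateField

namespace Pool.Agent.H44.MB

open Pool.Agent.TH444.ML
open Pool.Agent.NH85.ML

section

variable {K Ω : Type} [Field K] [NumberField K] [Field Ω] [Algebra K Ω] [IsAlgClosure K Ω]
variable {P : Type} [Finite P]

/-- the upper bound for `C₂ ≀ H` from a weak upper bound for `H` -/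
theorem upper_stepE {H : Subgroup (Equiv.Perm P)} {A : ℝ} (hA : 3 / 2 ≤ A) (h : Upper K Ω H A)
    (ε : ℝ) (hε : 0 < ε) : Upper K Ω (W2 H) (1 / 4 + A / 2 + 5 / 4 * ε) := by
  classical
  have hac : IsAlgClosed Ω := IsAlgClosure.isAlgClosed K
  obtain ⟨C, hC0, hC⟩ := unif_all (Module.finrank ℚ K * Nat.card P) ε hε
  set s : ℝ := 3 / 2 * (1 + ε) with hs
  set s' : ℝ := A + 2 * ε with hs'
  have hss : 0 ≤ s' - s := by rw [hs, hs']; linarith
  have hsum : Summable (fun M : GalX K Ω H => (dsc M.1) ^ (-s')) :=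
    summable_of_upper h (by rw [hs']; linarith) (by rw [hs']; linarith)
  have hnn : ∀ M : GalX K Ω H, 0 ≤ (dsc M.1) ^ (-s') := fun M =>
    Real.rpow_nonneg (by have := one_le_dsc M.1; linarith) _
  refine ⟨C * ∑' M : GalX K Ω H, (dsc M.1) ^ (-s'), mul_nonneg hC0 (tsum_nonneg hnn), ?_⟩
  intro Z hZ
  have hZ0 : 0 < Z := by linarith
  have hq0 : 0 < √Z := Real.sqrt_pos.2 hZ0
  -- the bound for a single `M`
  have hM : ∀ M : GalX K Ω H, (SMX H M.1 Z).Finite ∧
      (Set.ncard (SMX H M.1 Z) : ℝ) ≤ C * Z ^ (1 + ε) * (dsc M.1) ^ (-s) := by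
    rintro ⟨M, hM⟩
    have hfd := galX_fd hM
    have hnf : NumberField M := nf_of_fd M
    have hdeg : Module.finrank ℚ M = Module.finrank ℚ K * Nat.card P := by
      rw [← galX_card hM, Module.finrank_mul_finrank ℚ K M]
    set d : ℝ := dsc M with hd
    have hd1 : 1 ≤ d := one_le_dsc M
    have hd0 : 0 < d := by linarith
    have hsub : SMX H M Z ⊆ AS M (Z / d ^ 2) := by
      rintro L ⟨hL, hLZ⟩
      refine ⟨hL.2.1, hL.2.2.2.1, ?_⟩
      rw [← hd, div_mul_cancel₀ _ (by positivity)]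
      exact hLZ
    have hfin : (AS M (Z / d ^ 2)).Finite := finite_ASX' quadUnif M _ (by positivity)
    refine ⟨hfin.subset hsub, ?_⟩
    have h1 : (Set.ncard (SMX H M Z) : ℝ) ≤ Set.ncard (QS M Ω (Z / d ^ 2)) := by
      rw [← ncard_AS]
      exact_mod_cast Set.ncard_le_ncard hsub hfin
    have h2 := hC M Ω hdeg (Z / d ^ 2) (by positivity)
    rw [← dsc_eq M, ← hd] at h2
    refine h1.trans (h2.trans (le_of_eq ?_))
    rw [Real.div_rpow hZ0.le (by positivity)]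
    have e1 : (d ^ 2) ^ (1 + ε) = d ^ (2 * (1 + ε)) := by
      rw [← Real.rpow_natCast, ← Real.rpow_mul hd0.le]
      norm_num
    have e2 : d ^ ((1 + ε) / 2) / d ^ (2 * (1 + ε)) = d ^ (-s) := by
      rw [← Real.rpow_sub hd0]
      congr 1
      rw [hs]
      ring
    rw [e1, ← e2]
    ring
  -- the union
  have hfinH : (TTX K Ω H (√Z)).Finite := TTX_finite H (√Z)
  have hsubU : TTX K Ω (W2 H) Z ⊆ ⋃ M ∈ hfinH.toFinset, SMX H M Z := by
    rintro L ⟨hL, hLZ⟩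
    obtain ⟨M, hML⟩ := (wrIffX K Ω P H L).1 hL
    simp only [Set.mem_iUnion, Set.Finite.mem_toFinset, exists_prop]
    refine ⟨M, ⟨hML.1, ?_⟩, hML, hLZ⟩
    have hfd := galX_fd hML.1
    have hfdL := hML.2.2.1
    have h1 := dsc_sq_le hML.2.1 hML.2.2.2.1
    exact Real.le_sqrt_of_sq_le (h1.trans hLZ)
  have hmemG : ∀ M ∈ hfinH.toFinset, M ∈ GalX K Ω H := by
    intro M hMm
    rw [Set.Finite.mem_toFinset] at hMm
    exact hMm.1
  have hU : (Set.ncard (TTX K Ω (W2 H) Z) : ℝ) ≤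
      ∑ M ∈ hfinH.toFinset.attach, (Set.ncard (SMX H M.1 Z) : ℝ) := by
    have h1 : Set.ncard (TTX K Ω (W2 H) Z) ≤ Set.ncard (⋃ M ∈ hfinH.toFinset, SMX H M Z) := by
      refine Set.ncard_le_ncard hsubU ?_
      exact Set.Finite.biUnion hfinH.toFinset.finite_toSet
        (fun M hMm => (hM ⟨M, hmemG M hMm⟩).1)
    have h2 : Set.ncard (⋃ M ∈ hfinH.toFinset, SMX H M Z) ≤
        ∑ M ∈ hfinH.toFinset, Set.ncard (SMX H M Z) :=
      Finset.set_ncard_biUnion_le _ _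
    rw [Finset.sum_attach hfinH.toFinset (fun M => (Set.ncard (SMX H M Z) : ℝ))]
    exact_mod_cast h1.trans h2
  refine hU.trans ?_
  have h3 : ∑ M ∈ hfinH.toFinset.attach, (Set.ncard (SMX H M.1 Z) : ℝ) ≤
      ∑ M ∈ hfinH.toFinset.attach, C * Z ^ (1 + ε) * ((√Z) ^ (s' - s) * (dsc M.1) ^ (-s')) := by
    refine Finset.sum_le_sum fun M _ => ?_
    refine (hM ⟨M.1, hmemG M.1 M.2⟩).2.trans ?_
    refine mul_le_mul_of_nonneg_left ?_ (by positivity)
    have h7 : M.1 ∈ TTX K Ω H (√Z) := hfinH.mem_toFinset.1 M.2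
    have h8 := one_le_dsc M.1
    have h9 : 0 < dsc M.1 := by linarith
    have e1 : (dsc M.1) ^ (-s) = (dsc M.1) ^ (s' - s) * (dsc M.1) ^ (-s') := by
      rw [← Real.rpow_add h9]
      congr 1
      ring
    change (dsc M.1) ^ (-s) ≤ _
    rw [e1]
    exact mul_le_mul_of_nonneg_right (Real.rpow_le_rpow h9.le h7.2 hss)
      (Real.rpow_nonneg h9.le _)
  refine h3.trans ?_
  rw [← Finset.mul_sum, ← Finset.mul_sum]
  have h4 : ∑ M ∈ hfinH.toFinset.attach, (dsc M.1) ^ (-s') ≤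
      ∑' M : GalX K Ω H, (dsc M.1) ^ (-s') := by
    let j : {x // x ∈ hfinH.toFinset} → GalX K Ω H := fun M => ⟨M.1, hmemG M.1 M.2⟩
    have hj : Function.Injective j := fun x y hxy =>
      Subtype.ext (congrArg (fun z : GalX K Ω H => z.1) hxy)
    have h5 := hsum.sum_le_tsum (hfinH.toFinset.attach.map ⟨j, hj⟩) (fun M _ => hnn M)
    rw [Finset.sum_map] at h5
    exact h5
  have h6 : Z ^ (1 + ε) * (√Z) ^ (s' - s) = Z ^ (1 / 4 + A / 2 + 5 / 4 * ε) := by
    rw [Real.sqrt_eq_rpow, ← Real.rpow_mul hZ0.le, ← Real.rpow_add hZ0]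
    congr 1
    rw [hs, hs']
    ring
  have h7 : 0 ≤ C * (Z ^ (1 + ε) * (√Z) ^ (s' - s)) := by positivity
  calc C * Z ^ (1 + ε) * ((√Z) ^ (s' - s) * ∑ M ∈ hfinH.toFinset.attach, (dsc M.1) ^ (-s'))
      = C * (Z ^ (1 + ε) * (√Z) ^ (s' - s)) * ∑ M ∈ hfinH.toFinset.attach, (dsc M.1) ^ (-s') := by
        ring
    _ ≤ C * (Z ^ (1 + ε) * (√Z) ^ (s' - s)) * ∑' M : GalX K Ω H, (dsc M.1) ^ (-s') :=
        mul_le_mul_of_nonneg_left h4 h7
    _ = _ := by rw [h6]; ring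

/-- the trivial upper bound -/
theorem upper_triv (H : Subgroup (Equiv.Perm P)) : Upper K Ω H (2 * Nat.card P) := by
  obtain ⟨C, hC⟩ := Pool.Agent.TH979.J3100.hermiteRel K Ω (Nat.card P)
  refine ⟨|C|, abs_nonneg C, fun Z hZ => ?_⟩
  obtain ⟨h1, h2⟩ := hC Z hZ
  have h3 : TTX K Ω H Z ⊆ {F : IntermediateField K Ω | FiniteDimensional K F ∧
      Module.finrank K F = Nat.card P ∧ dsc F ≤ Z} := by
    rintro M ⟨hM, hMZ⟩
    exact ⟨hM.1, galX_card hM, hMZ⟩
  have h4 : (Set.ncard (TTX K Ω H Z) : ℝ) ≤ Set.ncard {F : IntermediateField K Ω |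
      FiniteDimensional K F ∧ Module.finrank K F = Nat.card P ∧ dsc F ≤ Z} := by
    exact_mod_cast Set.ncard_le_ncard h3 h1
  refine h4.trans (h2.trans ?_)
  have e : Z ^ (2 * (Nat.card P : ℝ)) = Z ^ (2 * Nat.card P) := by
    rw [← Real.rpow_natCast]
    push_cast
    rfl
  rw [e]
  exact mul_le_mul_of_nonneg_right (le_abs_self C) (by positivity)

end

/-- a larger exponent -/
theorem good_mono {K : Type} [Field K] [NumberField K] {Q : Type} {H : Subgroup (Equiv.Perm Q)}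
    {A A' : ℝ} (h : Good K H A) (hA : A ≤ A') : Good K H A' := by
  refine ⟨h.ne, ?_⟩
  obtain ⟨C, hC0, hC⟩ := h.upper
  exact ⟨C, hC0, fun Z hZ => (hC Z hZ).trans
    (mul_le_mul_of_nonneg_left (Real.rpow_le_rpow_of_exponent_le hZ hA) hC0)⟩

/-- the step for all exponents -/
theorem good_stepE (K : Type) [Field K] [NumberField K] {m : ℕ} {H : Subgroup (Equiv.Perm (Fin m))}
    {d : ℕ} {G : Subgroup (Equiv.Perm (Fin d))} (hG : IsWrP H G) {A : ℝ}
    (h : Good K H A) (ε : ℝ) (hε : 0 < ε) :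
    Good K G (max 1 (1 / 4 + A / 2) + 5 / 4 * ε) := by
  rcases lt_or_ge A (3 / 2) with hA | hA
  · refine good_mono (good_step K hG hA h ε hε) ?_
    have := le_max_left 1 (1 / 4 + A / 2)
    linarith
  · have h1 := good_step K hG (A := 5 / 4) (by norm_num)
    have hup := upper_stepE hA h.upper ε hε
    refine good_mono (A := 1 / 4 + A / 2 + 5 / 4 * ε) ⟨?_, ?_⟩ ?_
    · obtain ⟨c, hc, hlow⟩ := lower_step (K := K) (Ω := AlgebraicClosure K) h.ne 1 one_pos
      obtain ⟨X, h1, h2⟩ := (hlow.and (eventually_gt_atTop (0 : ℝ))).exists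
      have h3 : 0 < (Set.ncard (TTX K (AlgebraicClosure K) (W2 H) (X * 1)) : ℝ) :=
        (mul_pos hc h2).trans_le h1
      have h4 : 0 < Set.ncard (TTX K (AlgebraicClosure K) (W2 H) (X * 1)) := by exact_mod_cast h3
      rw [← isWrP_TTX K hG] at h4
      obtain ⟨L, hL⟩ := Set.nonempty_of_ncard_ne_zero h4.ne'
      exact ⟨L, hL.1⟩
    · obtain ⟨C, hC0, hC⟩ := hup
      refine ⟨C, hC0, fun Z hZ => ?_⟩
      rw [isWrP_TTX K hG]
      exact hC Z hZ
    · have := le_max_right 1 (1 / 4 + A / 2)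
      linarith

end Pool.Agent.H44.MB
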